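import Pool.Agent.NT.HDefs
import Pool.Agent.NT.Exps

/-!
NTQ (natural time, quantitative form), module Q7: the displacements of at most `2 ^ ((1 - κ) L)` are `a`-Hoelder in the
natural time, for every `a < 3 / 4`, with an exception of small weight (from the stretched exponential bound of the
walks that leave a box of radius `2 ^ m` with at most `2 ^ (β m)` letters, `β < 4 / 3`).
Text: doc proof/QDISP_h94, section 4.
-/

set_option autoImplicit false

namespace HexObs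

namespace NTm

open Finset TS SDN SDN.CN

open scoped ENNReal

namespace DeepA

/-- a large displacement gives an infix that leaves its box -/
lemma inf_ext {t : List Bool} (ht : t ∈ SA) {i j m : ℕ} {dir : Bool} (hij : i ≤ j) (hj : j ≤ t.length)
    (h : 2 ^ (m + 3) ≤ |lvl dir (vx oo up t j) - lvl dir (vx oo up t i)|) :
    (t.drop i).take (j - i) ∈ SA ∧ T2.Ext m ((t.drop i).take (j - i)) ∧ ((t.drop i).take (j - i)).length = j - i := by
  have hw : (t.drop i).take (j - i) ∈ SA := SA_take (SA_drop ht i) _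
  have hlen : ((t.drop i).take (j - i)).length = j - i := by
    rw [List.length_take, List.length_drop]
    omega
  refine ⟨hw, ?_, hlen⟩
  refine ⟨j - i, hlen.ge, ?_⟩
  obtain ⟨c, hc, -, h3⟩ := drop_frame' t i
  have h4 := h3 (j - i)
  rw [Nat.add_sub_cancel' hij] at h4
  rw [T2.ExU.vx_take (t.drop i) (j - i) (j - i) le_rfl (by rw [List.length_drop]; omega)]
  by_contra hcon
  push Not at hcon
  have h1 := hcon false
  have h2 := hcon true
  have hp : (0 : ℤ) < 2 ^ m := by positivity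
  rw [h4] at h
  have e8 : (2 : ℤ) ^ (m + 3) = 8 * 2 ^ m := by ring
  rw [e8] at h
  obtain ⟨v, hv⟩ : ∃ v, v = vx oo up (t.drop i) (j - i) := ⟨_, rfl⟩
  rw [← hv] at h h1 h2
  have h6 : |lvl false v| ≤ 3 * 2 ^ m := by
    rw [abs_lt] at h1
    unfold row at h1
    rw [abs_le]
    constructor <;> omega
  have h7 : |lvl true v| ≤ 3 * 2 ^ m := by
    rw [abs_lt] at h2
    unfold row at h2
    rw [abs_le]
    constructor <;> omega
  have h8 : T2.ExU.NL (6 * 2 ^ m) v := by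
    rw [abs_le] at h6 h7
    refine ⟨?_, ?_, ?_⟩ <;> rw [abs_le] <;> constructor <;> omega
  have h9 := T2.ExU.NL_rot hc h8
  have h10 : |lvl dir (mulE c v)| ≤ 6 * 2 ^ m := by
    cases dir
    · exact h9.1
    · exact h9.2.1
  have h11 : lvl dir (vx oo up t i + mulE c v) - lvl dir (vx oo up t i) = lvl dir (mulE c v) := by
    cases dir <;> simp only [lvl_false_eq, lvl_true_eq, Prod.fst_add, Prod.snd_add] <;> ring
  rw [h11] at h
  omega

/-- the level changes by at most 2 in a step -/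
lemma lip (t : List Bool) (dir : Bool) (i k : ℕ) :
    |lvl dir (vx oo up t (i + k)) - lvl dir (vx oo up t i)| ≤ 2 * k := by
  induction k with
  | zero => simp
  | succ k ih =>
    have h1 : vx oo up t (i + (k + 1)) = vx oo up t (i + k) + dx up t (i + k) := by
      rw [← add_assoc, vx_succ]
    have h2 := T2.ExU.NL_dir (dx_mem up_dirs t (i + k))
    have h3 : |lvl dir (dx up t (i + k))| ≤ 2 := by
      cases dir
      · exact h2.1
      · exact h2.2.1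
    have h4 : lvl dir (vx oo up t (i + k) + dx up t (i + k)) - lvl dir (vx oo up t i) =
        (lvl dir (vx oo up t (i + k)) - lvl dir (vx oo up t i)) + lvl dir (dx up t (i + k)) := by
      cases dir <;> simp only [lvl_false_eq, lvl_true_eq, Prod.fst_add, Prod.snd_add] <;> ring
    rw [h1, h4]
    refine (abs_add_le _ _).trans ?_
    push_cast
    linarith

/-- weight of the words that contain an infix of the set A -/
lemma gf_inf (Λ : ℕ) (A : Set (List Bool)) :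
    gf {t | t ∈ SAL Λ ∧ ∃ i k, (t.drop i).take k ∈ A} ≤ gf (SAL Λ) ^ 2 * gf A := by
  have h1 : gf {t | t ∈ SAL Λ ∧ ∃ i k, (t.drop i).take k ∈ A} ≤
      gf (SAL Λ) * gf {s | ∃ w ∈ A, ∃ v ∈ SAL Λ, s = w ++ v} := by
    refine gf_le_mul ?_
    rintro t ⟨ht, i, k, hw⟩
    have hl : t.length ≤ Λ := ht.2
    refine ⟨t.take i, ⟨SA_take ht.1 i, by rw [List.length_take]; omega⟩, t.drop i, ⟨_, hw, (t.drop i).drop k, ⟨?_, ?_⟩,
      (List.take_append_drop k _).symm⟩, (List.take_append_drop i t).symm⟩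
    · exact SA_drop (SA_drop ht.1 i) k
    · rw [List.length_drop, List.length_drop]
      omega
  have h2 : gf {s | ∃ w ∈ A, ∃ v ∈ SAL Λ, s = w ++ v} ≤ gf A * gf (SAL Λ) := gf_le_mul fun t ht => ht
  calc gf {t | t ∈ SAL Λ ∧ ∃ i k, (t.drop i).take k ∈ A} ≤
      gf (SAL Λ) * gf {s | ∃ w ∈ A, ∃ v ∈ SAL Λ, s = w ++ v} := h1
    _ ≤ gf (SAL Λ) * (gf A * gf (SAL Λ)) := mul_le_mul_right h2 _
    _ = gf (SAL Λ) ^ 2 * gf A := by ring

/-- the numbers: y = log₂ of the displacement, τ = log₂ of the time, lam = log₂ l(L), m + 3 ≤ y < m + 4 -/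
lemma numbers {a κ : ℝ} (ha : 0 < a) (ha1 : a < 3 / 4) (hκ : 0 < κ) : ∃ e s b : ℝ, 0 < e ∧ 0 < s ∧ 0 < b ∧
    ∀ c1 : ℝ, ∃ L0 : ℕ, ∀ L : ℕ, L0 ≤ L → ∀ y τ lam : ℝ, lam ≤ (4 / 3 + e) * L + c1 → L + a * (τ - lam) ≤ y →
      y ≤ (1 - κ) * L → y ≤ τ + 1 → b * L + 4 ≤ y ∧ ∀ m : ℕ, (m : ℝ) + 3 ≤ y → y < m + 4 → τ ≤ (4 / 3 - s) * m := by
  obtain ⟨d, hd⟩ : ∃ d : ℝ, d = 1 - 4 / 3 * a := ⟨_, rfl⟩
  have hd0 : 0 < d := by rw [hd]; linarith
  obtain ⟨k, hk⟩ : ∃ k : ℝ, k = min κ 1 := ⟨_, rfl⟩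
  have hk0 : 0 < k := by rw [hk]; exact lt_min hκ one_pos
  have hk1 : k ≤ 1 := by rw [hk]; exact min_le_right _ _
  have hkκ : k ≤ κ := by rw [hk]; exact min_le_left _ _
  obtain ⟨e, he⟩ : ∃ e : ℝ, e = k * d / (4 * a) := ⟨_, rfl⟩
  have he0 : 0 < e := by rw [he]; positivity
  have hea : a * e = k * d / 4 := by
    rw [he]
    field_simp
  refine ⟨e, e, d / 4, he0, he0, by positivity, fun c1 => ?_⟩
  obtain ⟨B, hB⟩ : ∃ B : ℝ, B = |c1| + 4 + 4 / (a * e) := ⟨_, rfl⟩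
  obtain ⟨L1, hL1⟩ := exists_nat_ge ((4 * (5 + |c1|)) / d)
  obtain ⟨L2, hL2⟩ := exists_nat_ge ((a * |c1| + 4) / (k * d / 2))
  refine ⟨L1 + L2, fun L hL y τ lam hlam h1 h2 h3 => ?_⟩
  have hLR : (0 : ℝ) ≤ L := Nat.cast_nonneg _
  have g1 : 4 * (5 + |c1|) ≤ d * L := by
    have h4 : (L1 : ℝ) ≤ L := by exact_mod_cast (by omega : L1 ≤ L)
    have h5 := hL1.trans h4
    rw [div_le_iff₀ hd0] at h5
    linarith
  have g2 : a * |c1| + 4 ≤ k * d / 2 * L := by
    have h4 : (L2 : ℝ) ≤ L := by exact_mod_cast (by omega : L2 ≤ L)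
    have h5 := hL2.trans h4
    rw [div_le_iff₀ (by positivity)] at h5
    linarith
  have g3 : a * lam ≤ a * ((4 / 3 + e) * L + |c1|) :=
    mul_le_mul_of_nonneg_left (hlam.trans (by linarith [le_abs_self c1])) ha.le
  have g4 : a * ((4 / 3 + e) * L + |c1|) = (1 - d) * L + k * d / 4 * L + a * |c1| := by
    rw [hd]
    have : a * ((4 / 3 + e) * L + |c1|) = 4 / 3 * a * L + a * e * L + a * |c1| := by ring
    rw [this, hea, hd]
    ring
  have g5 : k * d / 4 * L ≤ d / 4 * L := by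
    refine mul_le_mul_of_nonneg_right ?_ hLR
    nlinarith
  have g6 : a * |c1| ≤ |c1| := by
    have := abs_nonneg c1
    nlinarith
  have g7 : 0 ≤ |c1| := abs_nonneg c1
  constructor
  · -- (1 - a) y ≥ (3 / 4) d L - a - a |c1|
    have h4 : a * (y - 1) ≤ a * τ := mul_le_mul_of_nonneg_left (by linarith) ha.le
    have h5 : 3 / 4 * d * L - 1 - |c1| ≤ (1 - a) * y := by nlinarith
    have h6 : 0 < y := by
      by_contra hcon
      push Not at hcon
      have : (1 - a) * y ≤ 0 := mul_nonpos_of_nonneg_of_nonpos (by linarith) hcon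
      nlinarith
    have h7 : (1 - a) * y ≤ y := by nlinarith
    nlinarith
  · intro m hm1 hm2
    -- a τ ≤ y - L + a lam
    have h4 : a * τ ≤ y - L + a * lam := by linarith
    have h5 : (m : ℝ) ≤ (1 - κ) * L := by linarith
    have h5' : (m : ℝ) ≤ (1 - k) * L := by
      refine h5.trans (mul_le_mul_of_nonneg_right (by linarith) hLR)
    -- want a τ ≤ a (4/3 - e) m = (1 - d) m - (k d / 4) m
    have h6 : a * ((4 / 3 - e) * m) = (1 - d) * m - k * d / 4 * m := by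
      have : a * ((4 / 3 - e) * m) = 4 / 3 * a * m - a * e * m := by ring
      rw [this, hea, hd]
      ring
    refine le_of_mul_le_mul_left ?_ ha
    rw [h6]
    have h7 : a * τ ≤ m + 4 - d * L + k * d / 4 * L + a * |c1| := by linarith
    have h8 : (d + k * d / 4) * m ≤ (d + k * d / 4) * ((1 - k) * L) := mul_le_mul_of_nonneg_left h5' (by positivity)
    have h9 : (d + k * d / 4) * ((1 - k) * L) = d * L + k * d / 4 * L - k * d * L - k * (k * d / 4 * L) := by ring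
    have h10 : 0 ≤ k * (k * d / 4 * L) := by positivity
    nlinarith

lemma weight {g b c ε Q C1 Cp : ℝ} (hC1 : 0 < C1) (hCp : 0 < Cp) (hb : 0 < b) (hc : 0 < c) (hε : 0 < ε) :
    ∃ L0 : ℕ, ∀ L m : ℕ, L0 ≤ L → b * L ≤ m → ∀ Λ : ℕ, (Λ : ℝ) ≤ C1 * (2 : ℝ) ^ (g * L) →
      ((2 * L + 1 : ℕ) : ℝ) * ((((Λ : ℝ) ^ Cp * Cp)) ^ 2 * Real.exp (-(2 : ℝ) ^ (c * m))) ≤
        ε * (2 : ℝ) ^ (-(Q * L)) := by
  obtain ⟨L0, hL0⟩ := T2.Inx.ev (c := 1) (ρ := c * b) (A := Real.log 2 * (2 + 2 * Cp * g + Q))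
    (B := 2 * Real.log Cp + 2 * Cp * Real.log C1 - Real.log ε) one_pos (by positivity)
  refine ⟨L0, fun L m hL hm Λ hΛ => ?_⟩
  have h0 := hL0 L hL
  have h1 : (2 : ℝ) ^ (c * b * L) ≤ (2 : ℝ) ^ (c * m) := by
    refine Real.rpow_le_rpow_of_exponent_le (by norm_num) ?_
    rw [mul_assoc]
    exact mul_le_mul_of_nonneg_left hm hc.le
  have h2 : ((2 * L + 1 : ℕ) : ℝ) ≤ Real.exp (Real.log 2 * (2 * L)) := by
    have h3 : 2 * L + 1 ≤ 2 ^ (2 * L) := Nat.lt_two_pow_self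
    rw [← Real.rpow_def_of_pos (by norm_num), show (2 * (L : ℝ)) = ((2 * L : ℕ) : ℝ) by push_cast; ring,
      Real.rpow_natCast]
    exact_mod_cast h3
  have h4 : (Λ : ℝ) ^ Cp * Cp ≤ Real.exp (Real.log Cp + Cp * (Real.log C1 + Real.log 2 * (g * L))) := by
    have h5 : (Λ : ℝ) ^ Cp ≤ (C1 * (2 : ℝ) ^ (g * L)) ^ Cp :=
      Real.rpow_le_rpow (Nat.cast_nonneg _) hΛ hCp.le
    have h6 : (C1 * (2 : ℝ) ^ (g * L)) ^ Cp = Real.exp (Cp * (Real.log C1 + Real.log 2 * (g * L))) := by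
      rw [Real.rpow_def_of_pos (by positivity), Real.log_mul hC1.ne' (by positivity), Real.log_rpow (by norm_num)]
      congr 1
      ring
    rw [Real.exp_add, Real.exp_log hCp, mul_comm Cp]
    rw [h6] at h5
    exact mul_le_mul_of_nonneg_right h5 hCp.le
  have h7 : ((Λ : ℝ) ^ Cp * Cp) ^ 2 ≤
      Real.exp (2 * (Real.log Cp + Cp * (Real.log C1 + Real.log 2 * (g * L)))) := by
    have h8 := pow_le_pow_left₀ (by positivity) h4 2
    rw [← Real.exp_nat_mul] at h8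
    exact_mod_cast h8
  calc ((2 * L + 1 : ℕ) : ℝ) * ((((Λ : ℝ) ^ Cp * Cp)) ^ 2 * Real.exp (-(2 : ℝ) ^ (c * m))) ≤
      Real.exp (Real.log 2 * (2 * L)) * (Real.exp (2 * (Real.log Cp + Cp * (Real.log C1 + Real.log 2 * (g * L)))) *
        Real.exp (-(2 : ℝ) ^ (c * m))) := by
        gcongr
    _ = Real.exp (Real.log 2 * (2 * L) + (2 * (Real.log Cp + Cp * (Real.log C1 + Real.log 2 * (g * L))) +
        -(2 : ℝ) ^ (c * m))) := by
        rw [Real.exp_add, Real.exp_add]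
    _ ≤ Real.exp (Real.log ε + Real.log 2 * (-(Q * L))) := by
        refine Real.exp_le_exp.2 ?_
        rw [one_mul] at h0
        linarith
    _ = ε * (2 : ℝ) ^ (-(Q * L)) := by
        rw [Real.exp_add, Real.exp_log hε, Real.rpow_def_of_pos (by norm_num)]

end DeepA

open DeepA

theorem deep_holder {a κ : ℝ} (ha : 0 < a) (ha1 : a < 3 / 4) (hκ : 0 < κ) {θ : ℝ} {l : ℕ → ℕ} (hl : Seq θ l) {ε : ℝ}
    (hε : 0 < ε) : ∃ L0 : ℕ, ∀ L : ℕ, L0 ≤ L →
      gf {t | t ∈ BU ∧ (t.length : ℝ) < (l L : ℝ) + 1 ∧ ∃ (dir : Bool) (i j : ℕ), i < j ∧ j ≤ t.length ∧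
        2 ^ L * (((j : ℝ) - i) / l L) ^ a ≤ |((lvl dir (vx oo up t j) - lvl dir (vx oo up t i) : ℤ) : ℝ)| ∧
        |((lvl dir (vx oo up t j) - lvl dir (vx oo up t i) : ℤ) : ℝ)| ≤ (2 : ℝ) ^ ((1 - κ) * L)} ≤
      ENNReal.ofReal (ε * Ub L) := by
  obtain ⟨e, s, b, he, hs, hb, hnum⟩ := numbers ha ha1 hκ
  obtain ⟨C1, hC1, hup⟩ := hl.up e he
  obtain ⟨L1, hL1⟩ := hnum (Real.logb 2 C1)
  obtain ⟨c, M0, hc, hE⟩ := ExpsA.expUp (β := 4 / 3 - s) (by linarith)
  obtain ⟨Cp, hCp, hpoly⟩ := SAL_poly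
  obtain ⟨L2, hL2⟩ := weight (g := 4 / 3 + e) (Q := 0) hC1 hCp hb hc hε
  obtain ⟨L3, hL3⟩ := exists_nat_ge ((M0 : ℝ) / b)
  refine ⟨L1 + L2 + L3, fun L hL => ?_⟩
  have hLR : (0 : ℝ) ≤ L := Nat.cast_nonneg _
  obtain ⟨A, hA⟩ : ∃ A : ℕ → Set (List Bool), ∀ m, A m =
    {w | w ∈ SA ∧ T2.Ext m w ∧ (w.length : ℝ) ≤ (2 : ℝ) ^ ((4 / 3 - s) * m)} := ⟨_, fun _ => rfl⟩
  classical
  obtain ⟨I, hI⟩ : ∃ I : Finset ℕ, I = (Finset.range (L + 1)).filter (fun m : ℕ => b * (L : ℝ) ≤ m) := ⟨_, rfl⟩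
  have hsub : {t | t ∈ BU ∧ (t.length : ℝ) < (l L : ℝ) + 1 ∧ ∃ (dir : Bool) (i j : ℕ), i < j ∧ j ≤ t.length ∧
        2 ^ L * (((j : ℝ) - i) / l L) ^ a ≤ |((lvl dir (vx oo up t j) - lvl dir (vx oo up t i) : ℤ) : ℝ)| ∧
        |((lvl dir (vx oo up t j) - lvl dir (vx oo up t i) : ℤ) : ℝ)| ≤ (2 : ℝ) ^ ((1 - κ) * L)} ⊆
      ⋃ m ∈ I, {t | t ∈ SAL (l L) ∧ ∃ i k, (t.drop i).take k ∈ A m} := by
    rintro t ⟨⟨h, hh⟩, hlen, dir, i, j, hij, hj, h1, h2⟩
    have hSA : t ∈ SA := ExpsA.brd_SA hh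
    have hl0 : (0 : ℝ) < l L := by
      have := hl.one L
      exact_mod_cast this
    have hijR : (0 : ℝ) < (j : ℝ) - i := by
      have : (i : ℝ) < j := by exact_mod_cast hij
      linarith
    obtain ⟨Δ, hΔ⟩ : ∃ Δ : ℤ, Δ = |lvl dir (vx oo up t j) - lvl dir (vx oo up t i)| := ⟨_, rfl⟩
    have hΔR : |((lvl dir (vx oo up t j) - lvl dir (vx oo up t i) : ℤ) : ℝ)| = (Δ : ℝ) := by
      rw [hΔ, Int.cast_abs]
    rw [hΔR] at h1 h2
    have hx : 0 < 2 ^ L * (((j : ℝ) - i) / l L) ^ a := by positivity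
    have hΔ0 : (0 : ℝ) < Δ := lt_of_lt_of_le hx h1
    have h3 : (Δ : ℝ) ≤ 2 * ((j : ℝ) - i) := by
      have h4 := lip t dir i (j - i)
      rw [Nat.add_sub_cancel' hij.le, ← hΔ] at h4
      have h5 : (Δ : ℝ) ≤ ((2 * ((j - i : ℕ) : ℤ) : ℤ) : ℝ) := by exact_mod_cast h4
      rw [← Nat.cast_sub hij.le]
      exact_mod_cast h5
    -- the logarithms
    obtain ⟨y, hy⟩ : ∃ y : ℝ, y = Real.logb 2 Δ := ⟨_, rfl⟩
    obtain ⟨τ, hτ⟩ : ∃ τ : ℝ, τ = Real.logb 2 ((j : ℝ) - i) := ⟨_, rfl⟩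
    obtain ⟨lam, hlam⟩ : ∃ lam : ℝ, lam = Real.logb 2 (l L) := ⟨_, rfl⟩
    have k1 : lam ≤ (4 / 3 + e) * L + Real.logb 2 C1 := by
      have h4 := Real.logb_le_logb_of_le (b := 2) (by norm_num) hl0 (hup L)
      rw [Real.logb_mul hC1.ne' (by positivity), Real.logb_rpow (by norm_num) (by norm_num)] at h4
      rw [hlam]
      linarith
    have k2 : L + a * (τ - lam) ≤ y := by
      have h4 := Real.logb_le_logb_of_le (b := 2) (by norm_num) hx h1
      rw [Real.logb_mul (by positivity) (by positivity), Real.logb_pow, Real.logb_self_eq_one (by norm_num),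
        Real.logb_rpow_eq_mul_logb_of_pos (by positivity), Real.logb_div hijR.ne' hl0.ne', ← hτ, ← hlam, ← hy] at h4
      linarith
    have k3 : y ≤ (1 - κ) * L := by
      have h4 := Real.logb_le_logb_of_le (b := 2) (by norm_num) hΔ0 h2
      rwa [Real.logb_rpow (by norm_num) (by norm_num), ← hy] at h4
    have k4 : y ≤ τ + 1 := by
      have h4 := Real.logb_le_logb_of_le (b := 2) (by norm_num) hΔ0 h3
      rw [Real.logb_mul (by norm_num) hijR.ne', Real.logb_self_eq_one (by norm_num), ← hτ, ← hy] at h4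
      linarith
    obtain ⟨q1, q2⟩ := hL1 L (by omega) y τ lam k1 k2 k3 k4
    have hy4 : (4 : ℝ) ≤ y := by
      have : 0 ≤ b * L := by positivity
      linarith
    obtain ⟨m, hm⟩ : ∃ m : ℕ, ⌊y⌋₊ = m + 3 := by
      have : 4 ≤ ⌊y⌋₊ := Nat.le_floor (by exact_mod_cast hy4)
      exact ⟨⌊y⌋₊ - 3, by omega⟩
    have m1 : (m : ℝ) + 3 ≤ y := by
      have h4 := Nat.floor_le (show (0 : ℝ) ≤ y by linarith)
      rw [hm] at h4
      push_cast at h4
      exact h4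
    have m2 : y < m + 4 := by
      have h4 := Nat.lt_floor_add_one y
      rw [hm] at h4
      push_cast at h4
      linarith
    have m3 := q2 m m1 m2
    have m4 : b * L ≤ m := by linarith
    have m5 : m ≤ L := by
      have h4 : (m : ℝ) ≤ L := by
        have : 0 ≤ κ * L := by positivity
        linarith
      exact_mod_cast h4
    have m6 : 2 ^ (m + 3) ≤ |lvl dir (vx oo up t j) - lvl dir (vx oo up t i)| := by
      rw [← hΔ]
      have h4 : ((2 : ℝ) ^ (m + 3)) ≤ Δ := by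
        have h5 : (Δ : ℝ) = (2 : ℝ) ^ y := by
          rw [hy, Real.rpow_logb (by norm_num) (by norm_num) hΔ0]
        rw [h5, ← Real.rpow_natCast]
        refine Real.rpow_le_rpow_of_exponent_le (by norm_num) ?_
        push_cast
        exact m1
      exact_mod_cast h4
    obtain ⟨w1, w2, w3⟩ := inf_ext hSA hij.le hj m6
    refine Set.mem_iUnion₂.2 ⟨m, ?_, ⟨hSA, ?_⟩, i, j - i, ?_⟩
    · rw [hI, Finset.mem_filter, Finset.mem_range]
      exact ⟨by omega, m4⟩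
    · have : (t.length : ℝ) < ((l L + 1 : ℕ) : ℝ) := by
        push_cast
        exact hlen
      have h4 : t.length < l L + 1 := by exact_mod_cast this
      omega
    · rw [hA]
      refine ⟨w1, w2, ?_⟩
      rw [w3, Nat.cast_sub hij.le]
      have h5 : ((j : ℝ) - i) = (2 : ℝ) ^ τ := by
        rw [hτ, Real.rpow_logb (by norm_num) (by norm_num) hijR]
      rw [h5]
      exact Real.rpow_le_rpow_of_exponent_le (by norm_num) m3
  have hone : ∀ m ∈ I, gf {t | t ∈ SAL (l L) ∧ ∃ i k, (t.drop i).take k ∈ A m} ≤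
      ENNReal.ofReal (ε / ((L + 1 : ℕ) : ℝ)) := by
    intro m hm
    rw [hI, Finset.mem_filter, Finset.mem_range] at hm
    obtain ⟨-, hm2⟩ := hm
    have hmM : M0 ≤ m := by
      have h4 : (L3 : ℝ) ≤ L := by exact_mod_cast (by omega : L3 ≤ L)
      have h5 := hL3.trans h4
      rw [div_le_iff₀ hb] at h5
      have h6 : (M0 : ℝ) ≤ m := by linarith
      exact_mod_cast h6
    have h4 : gf (A m) ≤ ENNReal.ofReal (Real.exp (-(2 : ℝ) ^ (c * m))) := by
      rw [hA]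
      exact hE m hmM
    have h5 := hpoly (l L) (hl.one L)
    refine (gf_inf (l L) (A m)).trans ((mul_le_mul' (pow_le_pow_left' h5 2) h4).trans ?_)
    rw [← ENNReal.ofReal_pow (by positivity), ← ENNReal.ofReal_mul (by positivity)]
    apply ENNReal.ofReal_le_ofReal
    have h6 := hL2 L m (by omega) hm2 (l L) (hup L)
    rw [zero_mul, neg_zero, Real.rpow_zero, mul_one] at h6
    rw [le_div_iff₀ (by positivity)]
    have h7 : ((L + 1 : ℕ) : ℝ) ≤ ((2 * L + 1 : ℕ) : ℝ) := by exact_mod_cast (by omega : L + 1 ≤ 2 * L + 1)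
    rw [mul_comm]
    exact (mul_le_mul_of_nonneg_right h7 (by positivity)).trans h6
  refine (gf_mono hsub).trans ((ENNReal.tsum_biUnion_le wE I _).trans ((Finset.sum_le_sum hone).trans ?_))
  rw [Finset.sum_const, nsmul_eq_mul, ← ENNReal.ofReal_natCast, ← ENNReal.ofReal_mul (by positivity)]
  apply ENNReal.ofReal_le_ofReal
  have hcard : (I.card : ℝ) ≤ ((L + 1 : ℕ) : ℝ) := by
    have h1 : I.card ≤ L + 1 := by
      rw [hI]
      refine (Finset.card_filter_le _ _).trans ?_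
      rw [Finset.card_range]
    exact_mod_cast h1
  have hU : 1 ≤ Ub L := SDE.one_le_UU _
  calc (I.card : ℝ) * (ε / ((L + 1 : ℕ) : ℝ)) ≤ ((L + 1 : ℕ) : ℝ) * (ε / ((L + 1 : ℕ) : ℝ)) :=
        mul_le_mul_of_nonneg_right hcard (by positivity)
    _ = ε * 1 := by
        field_simp
    _ ≤ ε * Ub L := mul_le_mul_of_nonneg_left hU hε.le

/-- no displacement `x ≥ 2 ^ (κ L)` in a time at most `x ^ b`, `b < 4 / 3` -/
theorem deep : Deep := by
  intro b κ Q hb hb1 hκ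
  obtain ⟨β, hβ⟩ : ∃ β : ℝ, β = (b + 4 / 3) / 2 := ⟨_, rfl⟩
  obtain ⟨c, M0, hc, hE⟩ := ExpsA.expUp (β := β) (by rw [hβ]; linarith)
  obtain ⟨Cp, hCp, hpoly⟩ := SAL_poly
  obtain ⟨L2, hL2⟩ := weight (g := 2) (Q := Q) (b := κ / 2) one_pos hCp (by positivity) hc (show (0 : ℝ) < 1 from one_pos)
  obtain ⟨L3, hL3⟩ := exists_nat_ge ((M0 : ℝ) / (κ / 2))
  obtain ⟨L4, hL4⟩ := exists_nat_ge (8 / κ)
  obtain ⟨L5, hL5⟩ := exists_nat_ge (4 * b / ((4 / 3 - b) / 2) / (κ / 2))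
  refine ⟨L2 + L3 + L4 + L5, fun L hL => ?_⟩
  have hLR : (0 : ℝ) ≤ L := Nat.cast_nonneg _
  have hL8 : 8 ≤ κ * L := by
    have h4 : (L4 : ℝ) ≤ L := by exact_mod_cast (by omega : L4 ≤ L)
    have h5 := hL4.trans h4
    rw [div_le_iff₀ hκ] at h5
    linarith
  have hLb : 4 * b ≤ (4 / 3 - b) / 2 * (κ / 2 * L) := by
    have h4 : (L5 : ℝ) ≤ L := by exact_mod_cast (by omega : L5 ≤ L)
    have h5 := hL5.trans h4
    rw [div_le_iff₀ (by positivity), div_le_iff₀ (by linarith)] at h5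
    linarith
  obtain ⟨A, hA⟩ : ∃ A : ℕ → Set (List Bool), ∀ m, A m =
    {w | w ∈ SA ∧ T2.Ext m w ∧ (w.length : ℝ) ≤ (2 : ℝ) ^ (β * m)} := ⟨_, fun _ => rfl⟩
  classical
  obtain ⟨I, hI⟩ : ∃ I : Finset ℕ, I = (Finset.range (2 * L + 1)).filter (fun m : ℕ => κ / 2 * (L : ℝ) ≤ m) := ⟨_, rfl⟩
  have hsub : {t | t ∈ BU ∧ t.length ≤ 2 ^ (2 * L) ∧ ∃ (dir : Bool) (i j : ℕ), i < j ∧ j ≤ t.length ∧
      (2 : ℝ) ^ (κ * L) ≤ |((lvl dir (vx oo up t j) - lvl dir (vx oo up t i) : ℤ) : ℝ)| ∧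
      (j : ℝ) - i ≤ |((lvl dir (vx oo up t j) - lvl dir (vx oo up t i) : ℤ) : ℝ)| ^ b} ⊆
      ⋃ m ∈ I, {t | t ∈ SAL (2 ^ (2 * L)) ∧ ∃ i k, (t.drop i).take k ∈ A m} := by
    rintro t ⟨⟨h, hh⟩, hlen, dir, i, j, hij, hj, h1, h2⟩
    have hSA : t ∈ SA := ExpsA.brd_SA hh
    have hijR : (0 : ℝ) < (j : ℝ) - i := by
      have : (i : ℝ) < j := by exact_mod_cast hij
      linarith
    obtain ⟨Δ, hΔ⟩ : ∃ Δ : ℤ, Δ = |lvl dir (vx oo up t j) - lvl dir (vx oo up t i)| := ⟨_, rfl⟩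
    have hΔR : |((lvl dir (vx oo up t j) - lvl dir (vx oo up t i) : ℤ) : ℝ)| = (Δ : ℝ) := by
      rw [hΔ, Int.cast_abs]
    rw [hΔR] at h1 h2
    have hΔ0 : (0 : ℝ) < Δ := lt_of_lt_of_le (by positivity) h1
    have h3 : (Δ : ℝ) ≤ 2 * ((j : ℝ) - i) := by
      have h4 := lip t dir i (j - i)
      rw [Nat.add_sub_cancel' hij.le, ← hΔ] at h4
      have h5 : (Δ : ℝ) ≤ ((2 * ((j - i : ℕ) : ℤ) : ℤ) : ℝ) := by exact_mod_cast h4
      rw [← Nat.cast_sub hij.le]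
      exact_mod_cast h5
    have h6 : (j : ℝ) - i ≤ (2 : ℝ) ^ (2 * L) := by
      have h7 : (j : ℝ) ≤ ((2 ^ (2 * L) : ℕ) : ℝ) := by exact_mod_cast hj.trans hlen
      have h8 : (0 : ℝ) ≤ i := Nat.cast_nonneg _
      push_cast at h7
      linarith
    obtain ⟨y, hy⟩ : ∃ y : ℝ, y = Real.logb 2 Δ := ⟨_, rfl⟩
    have hΔy : (Δ : ℝ) = (2 : ℝ) ^ y := by
      rw [hy, Real.rpow_logb (by norm_num) (by norm_num) hΔ0]
    have k1 : κ * L ≤ y := by
      have h4 := Real.logb_le_logb_of_le (b := 2) (by norm_num) (by positivity) h1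
      rwa [Real.logb_rpow (by norm_num) (by norm_num), ← hy] at h4
    have k2 : y ≤ 2 * L + 1 := by
      have h4 := Real.logb_le_logb_of_le (b := 2) (by norm_num) hΔ0 (h3.trans (mul_le_mul_of_nonneg_left h6 (by norm_num)))
      rw [Real.logb_mul (by norm_num) (by positivity), Real.logb_self_eq_one (by norm_num), Real.logb_pow,
        Real.logb_self_eq_one (by norm_num), ← hy] at h4
      push_cast at h4
      linarith
    obtain ⟨m, hm⟩ : ∃ m : ℕ, ⌊y⌋₊ = m + 3 := by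
      have : 4 ≤ ⌊y⌋₊ := Nat.le_floor (by push_cast; linarith)
      exact ⟨⌊y⌋₊ - 3, by omega⟩
    have m1 : (m : ℝ) + 3 ≤ y := by
      have h4 := Nat.floor_le (show (0 : ℝ) ≤ y by linarith)
      rw [hm] at h4
      push_cast at h4
      exact h4
    have m2 : y < m + 4 := by
      have h4 := Nat.lt_floor_add_one y
      rw [hm] at h4
      push_cast at h4
      linarith
    have m4 : κ / 2 * L ≤ m := by linarith
    have m5 : m ≤ 2 * L := by
      have h4 : (m : ℝ) ≤ ((2 * L : ℕ) : ℝ) := by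
        push_cast
        linarith
      exact_mod_cast h4
    have m6 : 2 ^ (m + 3) ≤ |lvl dir (vx oo up t j) - lvl dir (vx oo up t i)| := by
      rw [← hΔ]
      have h4 : ((2 : ℝ) ^ (m + 3)) ≤ Δ := by
        rw [hΔy, ← Real.rpow_natCast]
        refine Real.rpow_le_rpow_of_exponent_le (by norm_num) ?_
        push_cast
        exact m1
      exact_mod_cast h4
    obtain ⟨w1, w2, w3⟩ := inf_ext hSA hij.le hj m6
    refine Set.mem_iUnion₂.2 ⟨m, ?_, ⟨hSA, hlen⟩, i, j - i, ?_⟩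
    · rw [hI, Finset.mem_filter, Finset.mem_range]
      exact ⟨by omega, m4⟩
    · rw [hA]
      refine ⟨w1, w2, ?_⟩
      rw [w3, Nat.cast_sub hij.le]
      refine h2.trans ?_
      rw [hΔy, ← Real.rpow_mul (by norm_num)]
      refine Real.rpow_le_rpow_of_exponent_le (by norm_num) ?_
      have h5 : y * b ≤ (m + 4) * b := mul_le_mul_of_nonneg_right m2.le hb.le
      have h6 : (4 / 3 - b) / 2 * (κ / 2 * L) ≤ (4 / 3 - b) / 2 * m := mul_le_mul_of_nonneg_left m4 (by linarith)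
      rw [hβ]
      linarith
  have hone : ∀ m ∈ I, gf {t | t ∈ SAL (2 ^ (2 * L)) ∧ ∃ i k, (t.drop i).take k ∈ A m} ≤
      ENNReal.ofReal ((2 : ℝ) ^ (-(Q * L)) / ((2 * L + 1 : ℕ) : ℝ)) := by
    intro m hm
    rw [hI, Finset.mem_filter, Finset.mem_range] at hm
    obtain ⟨-, hm2⟩ := hm
    have hmM : M0 ≤ m := by
      have h4 : (L3 : ℝ) ≤ L := by exact_mod_cast (by omega : L3 ≤ L)
      have h5 := hL3.trans h4
      rw [div_le_iff₀ (by positivity)] at h5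
      have h6 : (M0 : ℝ) ≤ m := by linarith
      exact_mod_cast h6
    have h4 : gf (A m) ≤ ENNReal.ofReal (Real.exp (-(2 : ℝ) ^ (c * m))) := by
      rw [hA]
      exact hE m hmM
    have h5 := hpoly (2 ^ (2 * L)) Nat.one_le_two_pow
    refine (gf_inf (2 ^ (2 * L)) (A m)).trans ((mul_le_mul' (pow_le_pow_left' h5 2) h4).trans ?_)
    rw [← ENNReal.ofReal_pow (by positivity), ← ENNReal.ofReal_mul (by positivity)]
    apply ENNReal.ofReal_le_ofReal
    have h6 := hL2 L m (by omega) hm2 (2 ^ (2 * L)) (by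
      rw [one_mul, show (2 : ℝ) * L = ((2 * L : ℕ) : ℝ) by push_cast; ring, Real.rpow_natCast]
      push_cast
      exact le_rfl)
    rw [one_mul] at h6
    rw [le_div_iff₀ (by positivity), mul_comm]
    exact h6
  refine (gf_mono hsub).trans ((ENNReal.tsum_biUnion_le wE I _).trans ((Finset.sum_le_sum hone).trans ?_))
  rw [Finset.sum_const, nsmul_eq_mul, ← ENNReal.ofReal_natCast, ← ENNReal.ofReal_mul (by positivity)]
  apply ENNReal.ofReal_le_ofReal
  have hcard : (I.card : ℝ) ≤ ((2 * L + 1 : ℕ) : ℝ) := by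
    have h1 : I.card ≤ 2 * L + 1 := by
      rw [hI]
      refine (Finset.card_filter_le _ _).trans ?_
      rw [Finset.card_range]
    exact_mod_cast h1
  calc (I.card : ℝ) * ((2 : ℝ) ^ (-(Q * L)) / ((2 * L + 1 : ℕ) : ℝ)) ≤
      ((2 * L + 1 : ℕ) : ℝ) * ((2 : ℝ) ^ (-(Q * L)) / ((2 * L + 1 : ℕ) : ℝ)) :=
        mul_le_mul_of_nonneg_right hcard (by positivity)
    _ = (2 : ℝ) ^ (-(Q * L)) := by
        field_simp

end NTm

end HexObs
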