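import Pool.Agent.NTQ.Defs
import Pool.Agent.NT.Short
import Pool.Agent.NT.Far

/-!
NTQ, Q5: the short leaves have exponentially small norm.
-/

set_option autoImplicit false

namespace HexObs

namespace NTm

open Finset TS SDN SDN.CN

open scoped ENNReal

/-- the sum over the heights -/
lemma tsum_gf_le (p : List Bool → Prop) : ∑' h : ℕ, gf {Z | Z ∈ Brd h ∧ p Z} ≤ gf {Z | Z ∈ BU ∧ p Z} := by
  classical
  have hone : ∀ A : Set (List Bool), gf A = Rec8.sw A (fun _ => 1) := fun A => (Rec8.sw_one A).symm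
  simp only [hone, Rec8.sw_ind]
  rw [ENNReal.tsum_comm]
  refine ENNReal.tsum_le_tsum fun Z => ?_
  by_cases hZ : Z ∈ {Z | Z ∈ BU ∧ p Z}
  · obtain ⟨⟨n, hn⟩, hp⟩ := id hZ
    rw [if_pos hZ]
    rw [tsum_eq_single n]
    · rw [if_pos (show Z ∈ {Z | Z ∈ Brd n ∧ p Z} from ⟨hn, hp⟩)]
    · intro n' hn'
      rw [if_neg]
      rintro ⟨h1, -⟩
      exact hn' (Brd_height h1 hn)
  · rw [if_neg hZ]
    refine le_of_eq (ENNReal.tsum_eq_zero.2 fun n => ?_)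
    rw [if_neg]
    rintro ⟨h1, h2⟩
    exact hZ ⟨⟨n, h1⟩, h2⟩

lemma At_true {D N : ℕ} {W : Set (List Bool)} :
    {g | g ∈ BrR D N ∧ g ∈ W} = Fl.At D N W (fun _ _ => True) [] := by
  ext g
  constructor
  · rintro ⟨h1, h2⟩
    refine ⟨h1, h2, ?_⟩
    obtain ⟨h, h3, h4, h5⟩ := h1
    refine ⟨g, ⟨h, h5⟩, ?_, trivial⟩
    rw [List.append_nil]
    exact ⟨h, h3, h5⟩
  · rintro ⟨h1, h2, -⟩
    exact ⟨h1, h2⟩

/-- the leaves of W, decomposed at the out-level of the window j1 -/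
theorem free_dec {D N k e j1 : ℕ} (he : j1 + 3 ≤ e) (hek : e ≤ k) (hD : 2 ^ (k + 4) ≤ D) {W : Set (List Bool)}
    {Φ : List Bool → ℝ≥0∞} (hΦ : Hered Φ) {x : ℝ}
    (hW : ∀ P ∈ IU, ∀ Q ∈ BU, hgt P + hgt Q ≤ 2 ^ e →
      gf {Z | Z ∈ BU ∧ Z ++ (P ++ Q) ∈ W ∧ Z ++ (P ++ Q) ∈ BrR D N} ≤ ENNReal.ofReal x) :
    Rec8.sw {g | g ∈ BrR D N ∧ g ∈ W} Φ ≤
      ENNReal.ofReal (UU N) * (∑' r : ℕ, if 2 ^ (e - 1) < r then Rec8.sw (Irr r) (fun P => Rec8.sw (Fl.QQ j1) (fun Q =>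
        Φ (P ++ Q))) else 0) +
      ENNReal.ofReal x * ∑' m : ℕ, ∑' r : ℕ, mu j1 m r * Rec8.sw (Irr r) (fun P => Rec8.sw (Brd m) (fun Q =>
        Φ (P ++ Q))) := by
  classical
  rw [At_true]
  obtain ⟨A, hA⟩ : ∃ A, A = Fl.At D N W (fun _ _ => True) [] := ⟨_, rfl⟩
  obtain ⟨T, hT⟩ : ∃ T, T = ENNReal.ofReal (UU N) * (∑' r : ℕ, if 2 ^ (e - 1) < r then Rec8.sw (Irr r) (fun P =>
    Rec8.sw (Fl.QQ j1) (fun Q => Φ (P ++ Q))) else 0) := ⟨_, rfl⟩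
  rw [← hA, ← hT]
  have hpk : (2 : ℕ) ^ (k + 4) = 16 * 2 ^ k := by ring
  have hpe : (2 : ℕ) ^ e ≤ 2 ^ k := Nat.pow_le_pow_right (by norm_num) hek
  have hpj : (2 : ℕ) ^ (j1 + 1) ≤ 2 ^ k := Nat.pow_le_pow_right (by norm_num) (by omega)
  have hlev : ∀ l2 ∈ Finset.Ico (2 ^ j1) (2 ^ (j1 + 1)), Rec8.sw A Φ ≤ T + ENNReal.ofReal x *
      ∑' y : ℕ × ℕ, TN5b_ind l2 y.1 y.2 * Rec8.sw (Irr y.2) (fun P => Rec8.sw (Brd y.1) (fun Q => Φ (P ++ Q))) := by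
    intro l2 hl2
    rw [Finset.mem_Ico] at hl2
    obtain ⟨Ex, hEx⟩ : ∃ Ex : List Bool → Prop, Ex = fun g' => ∃ m r, (m ≤ l2 ∧ l2 < m + r ∧ 2 ^ e < m + r) ∧
      ∃ Z ∈ BU, ∃ P ∈ Irr r, ∃ Q ∈ Brd m, g' = Z ++ (P ++ Q) := ⟨_, rfl⟩
    have hun : A ⊆ {g' | g' ∈ A ∧ Ex g'} ∪ {g' | g' ∈ A ∧ ¬ Ex g'} := by
      intro g' hg'
      by_cases h : Ex g'
      · exact Or.inl ⟨hg', h⟩
      · exact Or.inr ⟨hg', h⟩
    have h1 : Rec8.sw {g' | g' ∈ A ∧ Ex g'} Φ ≤ T := by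
      have h2 := Fl.out_giant (D := D) (N := N) (e := e) he (W := W) (R := fun _ _ => True) (t := []) hΦ hl2.2
      rw [hEx, hA]
      refine h2.trans ?_
      rw [hT, ← ENNReal.tsum_mul_left]
      refine ENNReal.tsum_le_tsum fun r => ?_
      split_ifs
      · rw [← Rec8.sw_mul_left]
        refine Rec8.sw_mono' fun P hP => ?_
        rw [← Rec8.sw_mul_left]
        refine Rec8.sw_mono' fun Q hQ => mul_le_mul_left ?_ _
        refine (gf_mono ?_).trans (gf_BU_le N)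
        rintro Z ⟨⟨z, hz⟩, ⟨h, h1, h2, h3⟩, -⟩
        obtain ⟨m, -, hQm⟩ := hQ
        have h4 := Brd_height h3 (Brd_append hz (Brd_append hP.1 hQm))
        exact ⟨z, by omega, hz⟩
      · exact zero_le
    have h3 : Rec8.sw {g' | g' ∈ A ∧ ¬ Ex g'} Φ ≤ ENNReal.ofReal x *
        ∑' y : ℕ × ℕ, TN5b_ind l2 y.1 y.2 * Rec8.sw (Irr y.2) (fun P => Rec8.sw (Brd y.1) (fun Q => Φ (P ++ Q))) := by
      refine (Fl.cov' _ (fun y : ℕ × ℕ => (y.1 ≤ l2 ∧ l2 < y.1 + y.2) ∧ y.1 + y.2 ≤ 2 ^ e) (fun y => Irr y.2)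
        (fun y => Brd y.1) (fun y P2 Q => {Z | Z ∈ BU ∧ Z ++ (P2 ++ Q) ∈ A}) _ ?_).trans ?_
      · rintro g ⟨hgA, hno⟩
        obtain ⟨⟨h, h1, h2, h3⟩, -⟩ := id (hA ▸ hgA)
        obtain ⟨n', r', a, p, u, k3, k4, k5, ha, hp, hu, hg⟩ := jump_dec (s := h - l2 - 1) (by omega) h3
        rw [List.append_assoc] at hg
        subst hg
        refine ⟨(h - n' - r', r'), ⟨⟨by simp only; omega, by simp only; omega⟩, ?_⟩, p, hp, u, hu, a,
          ⟨⟨n', ha⟩, hgA⟩, rfl⟩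
        by_contra hcon
        simp only [not_le] at hcon
        refine hno ?_
        rw [hEx]
        exact ⟨h - n' - r', r', ⟨by omega, by omega, hcon⟩, a, ⟨n', ha⟩, p, hp, u, hu, rfl⟩
      · rw [← ENNReal.tsum_mul_left]
        refine ENNReal.tsum_le_tsum fun y => ?_
        by_cases hy : (y.1 ≤ l2 ∧ l2 < y.1 + y.2) ∧ y.1 + y.2 ≤ 2 ^ e
        · rw [if_pos hy, TN5b_ind_one hy.1, one_mul, ← Rec8.sw_mul_left]
          refine Rec8.sw_mono' fun P2 hP2 => ?_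
          rw [← Rec8.sw_mul_left]
          refine Rec8.sw_mono' fun Q hQ => ?_
          have e1 := hW P2 ⟨y.2, hP2⟩ Q ⟨y.1, hQ⟩ (by rw [hgt_eq hP2.1, hgt_eq hQ]; omega)
          calc Rec8.sw {Z | Z ∈ BU ∧ Z ++ (P2 ++ Q) ∈ A} (fun Z => Φ (Z ++ (P2 ++ Q)))
              ≤ Rec8.sw {Z | Z ∈ BU ∧ Z ++ (P2 ++ Q) ∈ A} (fun _ => 1 * Φ (P2 ++ Q)) := by
                refine Rec8.sw_mono' fun Z hZ => ?_
                rw [one_mul]
                exact hΦ Z hZ.1 _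
            _ = gf {Z | Z ∈ BU ∧ Z ++ (P2 ++ Q) ∈ A} * Φ (P2 ++ Q) := by
                rw [Rec8.sw_mul_right, Rec8.sw_one]
            _ ≤ ENNReal.ofReal x * Φ (P2 ++ Q) := by
                refine mul_le_mul_left (le_trans (gf_mono ?_) e1) _
                rintro Z ⟨hZ, hZA⟩
                rw [hA] at hZA
                exact ⟨hZ, hZA.2.1, hZA.1⟩
        · rw [if_neg hy]
          exact zero_le
    exact (TN5b_sw_union hun Φ).trans (add_le_add h1 h3)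
  have h1 : Rec8.sw A Φ - T ≤
      (∑' x : Unit, mu j1 0 0 * (0 : ℝ≥0∞)) + ∑' y : ℕ × ℕ, mu j1 y.1 y.2 * (ENNReal.ofReal x *
        Rec8.sw (Irr y.2) (fun P2 => Rec8.sw (Brd y.1) (fun Q => Φ (P2 ++ Q)))) := by
    refine TN5b_avg j1 _ (fun _ : Unit => 0) (fun _ => 0) (fun _ => 0) (fun y : ℕ × ℕ => y.1) (fun y => y.2) _ ?_
    intro l2 hl2
    rw [tsub_le_iff_left]
    refine (hlev l2 hl2).trans (add_le_add le_rfl (le_trans (le_of_eq ?_) le_add_self))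
    rw [← ENNReal.tsum_mul_left]
    exact tsum_congr fun y => by ring
  rw [tsub_le_iff_left] at h1
  refine h1.trans (add_le_add le_rfl (le_of_eq ?_))
  simp only [mul_zero, tsum_zero, zero_add]
  rw [ENNReal.tsum_prod', ← ENNReal.tsum_mul_left]
  refine tsum_congr fun m => ?_
  rw [← ENNReal.tsum_mul_left]
  exact tsum_congr fun r => by ring

/-- the giants behind an out-level of the window j1 -/
lemma giant_sum {k e j1 D : ℕ} (hj : j1 ≤ k) {y : ℝ} (Φ : List Bool → ℝ≥0∞)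
    (h : ∑ b ∈ range (j1 + 1), ∑' r : ℕ, (if 2 ^ (e - 1) < r then Rec8.sw (Irr r) (fun P => Sw D k b P) else 0) ≤
      ENNReal.ofReal y) :
    (∑' r : ℕ, if 2 ^ (e - 1) < r then Rec8.sw (Irr r) (fun P => Rec8.sw (Fl.QQ j1) (fun Q => Φ (P ++ Q))) else 0) ≤
      ENNReal.ofReal y * xT D k Φ := by
  have h1 : (∑' r : ℕ, if 2 ^ (e - 1) < r then Rec8.sw (Irr r) (fun P => Rec8.sw (Fl.QQ j1) (fun Q => Φ (P ++ Q))) else 0) ≤
      xT D k Φ * ∑ b ∈ range (j1 + 1), ∑' r : ℕ, (if 2 ^ (e - 1) < r then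
        Rec8.sw (Irr r) (fun P => Sw D k b P) else 0) := by
    rw [← Summable.tsum_finsetSum (fun _ _ => ENNReal.summable), ← ENNReal.tsum_mul_left]
    refine ENNReal.tsum_le_tsum fun r => ?_
    by_cases hr : 2 ^ (e - 1) < r
    · simp only [if_pos hr]
      refine (Rec8.sw_mono' fun P hP => Fl.QQ_le (D := D) hj hP Φ).trans (le_of_eq ?_)
      rw [Rec8.sw_sum, Finset.mul_sum]
      exact Finset.sum_congr rfl fun b2 _ => Rec8.sw_mul_left _ _ _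
    · simp only [if_neg hr]
      exact zero_le
  refine h1.trans ?_
  rw [mul_comm]
  exact mul_le_mul_left h _

/-- Q5 -/
theorem sm_short_q : ∃ (d : ℝ) (C : ℕ), 0 < d ∧ 1 ≤ C ∧ ∀ (kc J a q : ℕ) (lam : ℝ), C * (q + 1) ≤ 2 ^ a → C * (q + 1) + a ≤ kc →
    AS lam (d * Ub (kc - a)) → Sm kc (SL kc J lam) (C * 2 ^ J * (1 / 2) ^ q) := by
  classical
  obtain ⟨C0, δ0, hI⟩ := inp_exists
  obtain ⟨K, c, hK, hc, hx⟩ := x_fillE hI
  obtain ⟨K2, c2, hK2, hc2, hg2⟩ := g2o hI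
  obtain ⟨K3, hK3, hg3⟩ := g3 hI
  obtain ⟨d, s, k0, hd, htall⟩ := tallV
  obtain ⟨C1, hC1⟩ : ∃ C1 : ℕ, 3 ≤ C1 ∧ 1 ≤ c * C1 ∧ 1 ≤ c2 * C1 := by
    obtain ⟨n1, hn1⟩ := exists_nat_ge (1 / c)
    obtain ⟨n2, hn2⟩ := exists_nat_ge (1 / c2)
    refine ⟨n1 + n2 + 3, by omega, ?_, ?_⟩
    · rw [div_le_iff₀ hc] at hn1
      push_cast
      nlinarith
    · rw [div_le_iff₀ hc2] at hn2
      push_cast
      nlinarith
  obtain ⟨hC3, hCc, hCc2⟩ := hC1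
  obtain ⟨CK, hCK⟩ := exists_nat_ge (2 * K + K2 + K3)
  refine ⟨d, 2 ^ s * (2 * C1 + 1) + k0 + C1 + CK, hd, by omega, ?_⟩
  intro kc J a q lam h1 h2 hAS
  obtain ⟨C, hC⟩ : ∃ C : ℕ, C = 2 ^ s * (2 * C1 + 1) + k0 + C1 + CK := ⟨_, rfl⟩
  rw [← hC] at h1 h2 ⊢
  obtain ⟨R, hR⟩ : ∃ R : ℕ, R = C1 * (q + 1) := ⟨_, rfl⟩
  have hs1 : 1 ≤ 2 ^ s := Nat.one_le_two_pow
  -- numbers
  have hCq : C ≤ C * (q + 1) := Nat.le_mul_of_pos_right _ (by omega)
  have hRC : R ≤ C * (q + 1) := by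
    rw [hR]
    exact Nat.mul_le_mul_right _ (by omega)
  have hR3 : 3 ≤ R := by
    rw [hR]
    nlinarith
  have hs2 : 2 ^ s ≤ C := by
    have : 2 ^ s * 1 ≤ 2 ^ s * (2 * C1 + 1) := Nat.mul_le_mul_left _ (by omega)
    omega
  have hsa : s ≤ a := by
    by_contra hcon
    have : 2 ^ a < 2 ^ s := Nat.pow_lt_pow_right (by norm_num) (by omega)
    omega
  obtain ⟨H, hH⟩ : ∃ H : ℕ, H = 2 ^ (a - s) := ⟨_, rfl⟩
  have hHa : 2 ^ s * H = 2 ^ a := by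
    rw [hH, ← pow_add]
    congr 1
    omega
  have hHR : 2 * R + q ≤ H := by
    have e1 : 2 ^ s * (2 * R + q) ≤ 2 ^ s * H := by
      rw [hHa]
      refine le_trans ?_ h1
      have e2 : 2 * R + q ≤ (2 * C1 + 1) * (q + 1) := by
        rw [hR]
        have : (2 * C1 + 1) * (q + 1) = 2 * (C1 * (q + 1)) + (q + 1) := by ring
        omega
      calc 2 ^ s * (2 * R + q) ≤ 2 ^ s * ((2 * C1 + 1) * (q + 1)) := Nat.mul_le_mul_left _ e2
        _ = (2 ^ s * (2 * C1 + 1)) * (q + 1) := by ring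
        _ ≤ C * (q + 1) := Nat.mul_le_mul_right _ (by omega)
    exact Nat.le_of_mul_le_mul_left e1 (by positivity)
  have hH1 : 1 ≤ H := by omega
  have hHk : H * 2 ^ (kc - a + s) = 2 ^ kc := by
    rw [hH, ← pow_add]
    congr 1
    omega
  have hU := Ub_pos kc
  have hUa := Ub_pos (kc - a)
  have hUak : Ub (kc - a) ≤ Ub kc := UU_mono (Nat.pow_le_pow_right (by norm_num) (by omega))
  have htb := htall (kc - a) lam (by omega) hAS H hH1
  have h2J : (1 : ℝ) ≤ 2 ^ J := one_le_pow₀ (by norm_num)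
  have hUN : UU (2 ^ (kc + J)) ≤ 2 ^ J * Ub kc := UU_ratio_up kc J
  have hUN0 : 0 < UU (2 ^ (kc + J)) := Num2Aux.UU_pos _
  have hq0 : (0 : ℝ) < (1 / 2) ^ q := by positivity
  have hpow : ∀ c' : ℝ, 1 ≤ c' * C1 → (2 : ℝ) ^ (-(c' * ((kc : ℝ) - ((kc - R : ℕ) : ℝ)))) ≤ (1 / 2) ^ q := by
    intro c' hc'
    have e1 : (kc : ℝ) - ((kc - R : ℕ) : ℝ) = R := by
      rw [Nat.cast_sub (by omega)]
      ring
    rw [e1]
    have e2 : ((1 / 2 : ℝ)) ^ q = (2 : ℝ) ^ (-(q : ℝ)) := by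
      rw [Real.rpow_neg (by norm_num), Real.rpow_natCast, one_div, inv_pow]
    rw [e2]
    refine Real.rpow_le_rpow_of_exponent_le (by norm_num) ?_
    have e3 : (R : ℝ) = C1 * (q + 1) := by
      rw [hR]
      push_cast
      ring
    rw [e3]
    have e4 : c' * (C1 * ((q : ℝ) + 1)) = (c' * C1) * (q + 1) := by ring
    rw [e4]
    have e5 : (0 : ℝ) ≤ q := Nat.cast_nonneg q
    nlinarith
  have hHR' : (4 : ℝ) ^ R * (1 / 2 ^ H) ≤ (1 / 2) ^ q := by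
    rw [mul_one_div, one_div, inv_pow, div_le_iff₀ (by positivity)]
    have e1 : (4 : ℝ) ^ R = 2 ^ (2 * R) := by
      rw [pow_mul]
      norm_num
    rw [e1, inv_mul_eq_div, le_div_iff₀ (by positivity), ← pow_add]
    exact pow_le_pow_right₀ (by norm_num) hHR
  have hHR2 : (2 : ℝ) ^ R * (1 / 2 ^ H) ≤ (1 / 2) ^ q := by
    refine le_trans ?_ hHR'
    have : (2 : ℝ) ^ R ≤ 4 ^ R := pow_le_pow_left₀ (by norm_num) (by norm_num) R
    gcongr
  have hD16 : (2 : ℕ) ^ (kc + 4) = 16 * 2 ^ kc := by ring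
  have hk1 : 1 ≤ 2 ^ kc := Nat.one_le_two_pow
  constructor
  · intro Φ hΦ
    have hEZ : EZ (2 ^ (kc + 4)) (2 ^ (kc + J)) kc (SHO lam) (1 / 2 ^ H * Ub kc) := by
      rintro M ⟨m, hM⟩ P1 hP1 P2 hP2 Q ⟨q', hQ⟩ e1 e2
      obtain ⟨i, hi⟩ := IU_BU hP1
      obtain ⟨j, hj⟩ := IU_BU hP2
      refine (tsum_gf_le _).trans ((gf_mono ?_).trans (htb.trans (ENNReal.ofReal_le_ofReal ?_)))
      · rintro Z ⟨⟨z, hz⟩, hW, h, e3, e4, e5⟩
        have e6 := Brd_height e5 (Brd_append hM (Brd_append hi (Brd_append hz (Brd_append hj hQ))))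
        rw [hgt_eq hM, hgt_eq hi] at e1
        rw [hgt_eq hj, hgt_eq hQ] at e2
        refine ⟨z, ?_, hz, ?_⟩
        · rw [hHk]
          omega
        · have e7 : ((M ++ (P1 ++ (Z ++ (P2 ++ Q)))).length : ℝ) < lam := hW
          simp only [List.length_append, Nat.cast_add] at e7
          have e8 : (0 : ℝ) ≤ M.length := Nat.cast_nonneg _
          have e9 : (0 : ℝ) ≤ P1.length := Nat.cast_nonneg _
          have e10 : (0 : ℝ) ≤ P2.length := Nat.cast_nonneg _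
          have e11 : (0 : ℝ) ≤ Q.length := Nat.cast_nonneg _
          linarith
      · rw [div_mul_eq_mul_div, one_mul]
        exact div_le_div_of_nonneg_right hUak (by positivity)
    have h3 := hx (2 ^ (kc + 4)) (2 ^ (kc + J)) kc kc (kc - R) (SHO lam) LFold (2 ^ J) (1 / 2 ^ H) Φ
      hΦ.her RNb_LFold le_rfl (by omega) le_rfl h2J hUN (by positivity) hEZ
    have h4 : ∀ t, vA (2 ^ (kc + 4)) (SL kc J lam) Φ t ≤ tF (2 ^ (kc + 4)) (2 ^ (kc + J)) (SHO lam) LFold Φ t := by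
      intro t
      unfold vA tF
      exact Rec8.sw_mono (B := {g' | g' ∈ BrR (2 ^ (kc + 4)) (2 ^ (kc + J)) ∧ g' ∈ SHO lam ∧
        RT (2 ^ (kc + 4)) LFold t g'}) (fun g hg => ⟨hg.1.1, hg.1.2, hg.2⟩) fun _ _ => le_rfl
    refine (xT_mono h4).trans (h3.trans (mul_le_mul_left (ENNReal.ofReal_le_ofReal ?_) _))
    have e1 : kc - kc = 0 := Nat.sub_self kc
    have e2 : kc - (kc - R) = R := by omega
    rw [e1, e2, pow_zero, one_mul]
    have e3 := hpow c hCc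
    calc K * 2 ^ J * ((2 : ℝ) ^ (-(c * ((kc : ℝ) - ((kc - R : ℕ) : ℝ)))) + 4 ^ R * (1 / 2 ^ H)) ≤
        K * 2 ^ J * ((1 / 2) ^ q + (1 / 2) ^ q) := by gcongr
      _ = (2 * K) * 2 ^ J * (1 / 2) ^ q := by ring
      _ ≤ C * 2 ^ J * (1 / 2) ^ q := by
          have e4 : 2 * K ≤ C := by
            rw [hC]
            push_cast
            have : (0 : ℝ) ≤ 2 ^ s * (2 * C1 + 1) + k0 + C1 := by positivity
            linarith
          gcongr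
  · intro Φ hΦ
    obtain ⟨x, hxx⟩ : ∃ x, x = xT (2 ^ (kc + 4)) kc Φ := ⟨_, rfl⟩
    have h3 := free_dec (D := 2 ^ (kc + 4)) (N := 2 ^ (kc + J)) (k := kc) (e := kc) (j1 := kc - R) (by omega) le_rfl
      le_rfl (W := SHO lam) hΦ.her (x := Ub (kc - a) / 2 ^ H) ?_
    · refine (le_of_eq ?_).trans (h3.trans ?_)
      · rfl
      have e1 := giant_sum (D := 2 ^ (kc + 4)) (k := kc) (e := kc) (j1 := kc - R) (by omega) Φ
        (hg2 (2 ^ (kc + 4)) kc kc (kc - R) le_rfl (by omega) le_rfl)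
      have e2 := (endsH_gen (D := 2 ^ (kc + 4)) (k := kc) (j := kc - R) (by omega) Φ).trans
        (mul_le_mul_right (hg3 (2 ^ (kc + 4)) kc (kc - R) le_rfl (by omega)) _)
      rw [← hxx] at e1 e2 ⊢
      have e3 : kc - (kc - R) = R := by omega
      rw [e3] at e2
      rw [Nat.sub_self, pow_zero, mul_one] at e1
      refine (add_le_add (mul_le_mul_right e1 _) (mul_le_mul_right e2 _)).trans ?_
      have e4 := hpow c2 hCc2
      calc ENNReal.ofReal (UU (2 ^ (kc + J))) * (ENNReal.ofReal (K2 * (2 : ℝ) ^ (-(c2 * ((kc : ℝ) - ((kc - R : ℕ) : ℝ))))) * x) +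
          ENNReal.ofReal (Ub (kc - a) / 2 ^ H) * (x * ENNReal.ofReal (K3 * 2 ^ R)) =
          (ENNReal.ofReal (UU (2 ^ (kc + J))) * ENNReal.ofReal (K2 * (2 : ℝ) ^ (-(c2 * ((kc : ℝ) - ((kc - R : ℕ) : ℝ))))) +
            ENNReal.ofReal (Ub (kc - a) / 2 ^ H) * ENNReal.ofReal (K3 * 2 ^ R)) * x := by ring
        _ ≤ ENNReal.ofReal (C * 2 ^ J * (1 / 2) ^ q * Ub kc) * x := by
          refine mul_le_mul_left ?_ _
          rw [← ENNReal.ofReal_mul hUN0.le, ← ENNReal.ofReal_mul (by positivity),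
            ← ENNReal.ofReal_add (by positivity) (by positivity)]
          apply ENNReal.ofReal_le_ofReal
          have e5 : UU (2 ^ (kc + J)) * (K2 * (2 : ℝ) ^ (-(c2 * ((kc : ℝ) - ((kc - R : ℕ) : ℝ))))) ≤
              (2 ^ J * Ub kc) * (K2 * (1 / 2) ^ q) := by
            gcongr
          have e6 : Ub (kc - a) / 2 ^ H * (K3 * 2 ^ R) ≤ (2 ^ J * Ub kc) * (K3 * (1 / 2) ^ q) := by
            calc Ub (kc - a) / 2 ^ H * (K3 * 2 ^ R) = Ub (kc - a) * (K3 * (2 ^ R * (1 / 2 ^ H))) := by ring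
              _ ≤ (2 ^ J * Ub kc) * (K3 * (1 / 2) ^ q) := by
                have e7 : Ub (kc - a) ≤ 2 ^ J * Ub kc := by nlinarith
                gcongr
          have e8 : K2 + K3 ≤ C := by
            rw [hC]
            push_cast
            have : (0 : ℝ) ≤ 2 ^ s * (2 * C1 + 1) + k0 + C1 := by positivity
            linarith
          calc UU (2 ^ (kc + J)) * (K2 * (2 : ℝ) ^ (-(c2 * ((kc : ℝ) - ((kc - R : ℕ) : ℝ))))) +
              Ub (kc - a) / 2 ^ H * (K3 * 2 ^ R) ≤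
              (2 ^ J * Ub kc) * (K2 * (1 / 2) ^ q) + (2 ^ J * Ub kc) * (K3 * (1 / 2) ^ q) := add_le_add e5 e6
            _ = (K2 + K3) * 2 ^ J * (1 / 2) ^ q * Ub kc := by ring
            _ ≤ C * 2 ^ J * (1 / 2) ^ q * Ub kc := by gcongr
    · rintro P hP Q ⟨m, hQ⟩ e1
      obtain ⟨i, hi⟩ := IU_BU hP
      refine (gf_mono ?_).trans htb
      rintro Z ⟨⟨z, hz⟩, hW, h, e3, e4, e5⟩
      have e6 := Brd_height e5 (Brd_append hz (Brd_append hi hQ))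
      rw [hgt_eq hi, hgt_eq hQ] at e1
      refine ⟨z, ?_, hz, ?_⟩
      · rw [hHk]
        omega
      · have e7 : ((Z ++ (P ++ Q)).length : ℝ) < lam := hW
        simp only [List.length_append, Nat.cast_add] at e7
        have e8 : (0 : ℝ) ≤ P.length := Nat.cast_nonneg _
        have e9 : (0 : ℝ) ≤ Q.length := Nat.cast_nonneg _
        linarith

end NTm

end HexObs
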