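import Pool.Agent.NTQ.EventQ
import Pool.Agent.NTQ.Short
import Pool.Agent.NT.HDefs

/-!
NTQ, Q6: the quantitative form of disp.
-/

set_option autoImplicit false

namespace HexObs

namespace NTm

open Finset TS SDN SDN.CN

open scoped ENNReal

lemma num_pow {A D F : ℝ} {X q : ℕ} (hA : 1 ≤ A) (hD : 1 ≤ D) (hF : 3 * A * D * 2 ≤ F) (hX : 1 ≤ X) (hq : q ≤ X) :
    A * D ^ X / F ^ X ≤ 1 / 3 * (1 / 2) ^ q := by
  have hF0 : 0 < F := by
    have : 0 < 3 * A * D * 2 := by positivity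
    linarith
  have h1 : (3 * A * D * 2) ^ X ≤ F ^ X := pow_le_pow_left₀ (by positivity) hF X
  have h2 : 3 * A ≤ (3 * A) ^ X := by
    calc 3 * A = (3 * A) ^ 1 := (pow_one _).symm
      _ ≤ (3 * A) ^ X := pow_le_pow_right₀ (by linarith) hX
  have h3 : (2 : ℝ) ^ q ≤ 2 ^ X := pow_le_pow_right₀ (by norm_num) hq
  have h4 : 3 * A * D ^ X * 2 ^ q ≤ F ^ X := by
    calc 3 * A * D ^ X * 2 ^ q ≤ (3 * A) ^ X * D ^ X * 2 ^ X := by gcongr
      _ = (3 * A * D * 2) ^ X := by rw [← mul_pow, ← mul_pow]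
      _ ≤ _ := h1
  rw [div_le_iff₀ (by positivity), one_div_pow]
  have h5 : 1 / 3 * (1 / 2 ^ q) * F ^ X = F ^ X / (3 * 2 ^ q) := by
    field_simp
  rw [h5, le_div_iff₀ (by positivity)]
  linarith

lemma clog_near {Y a : ℕ} (hY : 1 ≤ Y) (ha : Y ≤ 2 ^ a) : ∃ j : ℕ, Y ≤ 2 ^ j ∧ 2 ^ j ≤ 2 * Y ∧ j ≤ a := by
  refine ⟨Nat.clog 2 Y, Nat.le_pow_clog (by norm_num) _, ?_, Nat.clog_le_of_le_pow ha⟩
  rcases Nat.lt_or_ge 1 Y with h | h
  · have h1 : 2 ^ (Nat.clog 2 Y - 1) < Y := Nat.pow_pred_clog_lt_self (by norm_num) h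
    have h2 : 1 ≤ Nat.clog 2 Y := Nat.clog_pos (by norm_num) h
    have h3 : 2 ^ Nat.clog 2 Y = 2 * 2 ^ (Nat.clog 2 Y - 1) := by
      rw [← pow_succ']
      congr 1
      omega
    omega
  · have h0 : Y = 1 := by omega
    rw [h0]
    simp

/-- the covering of the displacement event -/
lemma DF_cover {k j1 J : ℕ} {lam : ℝ} :
    DF (k + j1) J lam ⊆ (EQ (k + j1) J (SL (k + j1) J lam) ∪ EQ k (J + j1) (SL k (J + j1) lam)) ∪
      EQ (k + j1) J (GU k (k + j1) (2 ^ (k + j1 + J))) := by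
  rintro t ⟨⟨⟨T, hT⟩, hw⟩, i, j, hij, hj, hlam, hd⟩
  obtain ⟨m, u, e, h⟩ := lf_exists false (k + j1 + 5) t
  obtain ⟨m1, u1, e1, h1⟩ := lf_exists false (k + 5) t
  have ht : t ∈ BL (k + j1 + J) := ⟨⟨T, hT⟩, hw⟩
  have ht' : t ∈ BL (k + (J + j1)) := by
    rw [show k + (J + j1) = k + j1 + J by omega]
    exact ht
  have hlen : ∀ a b : ℕ, i ≤ a → b ≤ j → ∀ g : List Bool, g.length + a ≤ b → (g.length : ℝ) < lam := by
    intro a b ha hb g hg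
    have : (g.length : ℝ) + i ≤ j := by
      exact_mod_cast (by omega : g.length + i ≤ j)
    linarith
  rcases geo (show k ≤ k + j1 by omega) hT h h1 hij hj hd with ⟨l, l1, l2, l3⟩ | ⟨l, l1, l2, l3⟩ | ⟨l, l1, l2⟩
  · left; left
    refine ⟨ht, m, u, e, h, l, l1, fun g hgl hg => ⟨hg, ?_⟩⟩
    have b1 := hgl.len
    have b2 := (st_ge e m t.length l l1).1
    exact hlen _ _ l2 l3 g (by omega)
  · left; right
    refine ⟨ht', m1, u1, e1, h1, l, l1, fun g hgl hg => ⟨hg, ?_⟩⟩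
    have b1 := hgl.len
    have b2 := (st_ge e1 m1 t.length l l1).1
    exact hlen _ _ l2 l3 g (by omega)
  · right
    refine ⟨ht, m, u, e, h, l, l1, fun g hgl hg => ?_⟩
    obtain ⟨hh, b1, b2, b3⟩ := hg
    obtain ⟨z, z1, z2, z3⟩ := l2 g hgl hh b3
    exact ⟨z, z1, hh, z2, b2, b3, z3⟩

theorem disp_false_q : ∃ (d : ℝ) (C : ℕ), 0 < d ∧ ∀ (kc J a q : ℕ) (lam : ℝ), 6 ≤ J → C * (J + q + 1) ≤ 2 ^ a →
    C * (J + q + 1) + 2 * a ≤ kc → AS lam (d * Ub (kc - 2 * a)) →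
    gf (DF kc J lam) ≤ ENNReal.ofReal ((1 / 2) ^ q * Ub (kc + J)) := by
  obtain ⟨K, s, hK, hs, hG⟩ := norm_GU
  obtain ⟨C1, k1, hC1, hev⟩ := event_q
  obtain ⟨ds, Cs, hds, hCs, hsh⟩ := sm_short_q
  have hCs1 : (1 : ℝ) ≤ Cs := by exact_mod_cast hCs
  -- the number of fine blocks
  obtain ⟨B1, hB1⟩ : ∃ B1 : ℝ, B1 = 3 * K * (8 * C1) * 2 := ⟨_, rfl⟩
  obtain ⟨c1, hc1⟩ : ∃ c1 : ℕ, B1 ≤ (4 : ℝ) ^ c1 := by
    obtain ⟨c1, h⟩ := pow_unbounded_of_one_lt B1 (show (1 : ℝ) < 4 by norm_num)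
    exact ⟨c1, h.le⟩
  obtain ⟨c3, hc3⟩ : ∃ c3, c3 = (c1 + 1) * 2 ^ s := ⟨_, rfl⟩
  -- the exponent of the short leaves
  obtain ⟨B2, hB2⟩ : ∃ B2 : ℝ, B2 = 3 * Cs * (2 * C1) ^ (1 + 2 * c3) * 2 := ⟨_, rfl⟩
  obtain ⟨c5, hc5⟩ : ∃ c5 : ℕ, B2 ≤ (2 : ℝ) ^ c5 := by
    obtain ⟨c5, h⟩ := pow_unbounded_of_one_lt B2 (show (1 : ℝ) < 2 by norm_num)
    exact ⟨c5, h.le⟩
  refine ⟨ds, k1 + Cs * (c5 + 1) + c3, hds, ?_⟩
  intro kc J a q lam hJ ha hkc hAS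
  obtain ⟨X, hX⟩ : ∃ X, X = J + q + 1 := ⟨_, rfl⟩
  rw [← hX] at ha hkc
  have hX1 : 1 ≤ X := by omega
  have hexp : (k1 + Cs * (c5 + 1) + c3) * X = k1 * X + Cs * (c5 + 1) * X + c3 * X := by ring
  rw [hexp] at ha hkc
  have hk1X : k1 ≤ k1 * X := Nat.le_mul_of_pos_right _ hX1
  have hCX : Cs * (c5 * X + 1) ≤ Cs * (c5 + 1) * X := by
    calc Cs * (c5 * X + 1) ≤ Cs * (c5 * X + X) := by gcongr
      _ = Cs * (c5 + 1) * X := by ring
  have hc3p : 1 ≤ c3 := by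
    rw [hc3]
    exact Nat.mul_pos (by omega) (by positivity)
  -- the fine scale
  obtain ⟨j1, hj1, hj2, hj1a⟩ := clog_near (Y := c3 * X) (a := a) (Nat.mul_pos hc3p hX1) (by omega)
  have hj1s : s ≤ j1 := by
    by_contra hcon
    have h1 : 2 ^ j1 < 2 ^ s := Nat.pow_lt_pow_right (by norm_num) (by omega)
    have h2 : 2 ^ s ≤ c3 := by
      rw [hc3]
      exact Nat.le_mul_of_pos_left _ (by omega)
    have h3 : c3 ≤ c3 * X := Nat.le_mul_of_pos_right _ hX1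
    omega
  have hj1X : j1 ≤ 2 * c3 * X := by
    have h1 : j1 < 2 ^ j1 := Nat.lt_two_pow_self
    have h2 : 2 * (c3 * X) = 2 * c3 * X := by ring
    omega
  obtain ⟨k, rfl⟩ : ∃ k, kc = k + j1 := ⟨kc - j1, by omega⟩
  have hn : c1 * X * 2 ^ (k + s) ≤ 2 ^ (k + j1) := by
    calc c1 * X * 2 ^ (k + s) ≤ (c1 + 1) * X * 2 ^ (k + s) := by gcongr; omega
      _ = 2 ^ k * (c3 * X) := by
          rw [hc3, pow_add]
          ring
      _ ≤ 2 ^ k * 2 ^ j1 := by gcongr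
      _ = 2 ^ (k + j1) := by rw [pow_add]
  -- the three classes
  have hUm : ∀ x y : ℕ, x ≤ y → Ub x ≤ Ub y := fun x y h => UU_mono (Nat.pow_le_pow_right (by norm_num) h)
  have hS0 : Sm (k + j1) (SL (k + j1) J lam) (Cs * 2 ^ J * (1 / 2) ^ (c5 * X)) := by
    refine hsh (k + j1) J a (c5 * X) lam (by omega) (by omega) fun N => (hAS N).trans (ENNReal.ofReal_le_ofReal ?_)
    have := hUm (k + j1 - 2 * a) (k + j1 - a) (by omega)
    gcongr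
  have hS1 : Sm k (SL k (J + j1) lam) (Cs * 2 ^ (J + j1) * (1 / 2) ^ (c5 * X)) := by
    refine hsh k (J + j1) a (c5 * X) lam (by omega) (by omega) fun N => (hAS N).trans (ENNReal.ofReal_le_ofReal ?_)
    have := hUm (k + j1 - 2 * a) (k - a) (by omega)
    gcongr
  have hSG : Sm (k + j1) (GU k (k + j1) (2 ^ (k + j1 + J))) (K * 8 ^ J / 4 ^ (c1 * X)) :=
    ⟨fun Φ hΦ => (hG (k + j1) J (c1 * X) k Φ hΦ (by omega) hn (by omega) (by omega)).1,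
      fun Φ hΦ => (hG (k + j1) J (c1 * X) k Φ hΦ (by omega) hn (by omega) (by omega)).2⟩
  have e0 := hev (k + j1) J _ _ (by omega) hJ (by positivity) hS0
  have e1 := hev k (J + j1) _ _ (by omega) (by omega) (by positivity) hS1
  have e2 := hev (k + j1) J _ _ (by omega) hJ (by positivity) hSG
  rw [show k + (J + j1) = k + j1 + J by omega] at e1
  refine (gf_mono DF_cover).trans ((gf_union_le _ _).trans ((add_le_add ((gf_union_le _ _).trans (add_le_add e0 e1)) e2).trans ?_))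
  have hUL := Ub_pos (k + j1 + J)
  rw [← ENNReal.ofReal_add (by positivity) (by positivity), ← ENNReal.ofReal_add (by positivity) (by positivity)]
  apply ENNReal.ofReal_le_ofReal
  -- numbers
  have hp1 : (1 : ℝ) ≤ (2 * C1) ^ (1 + 2 * c3) := one_le_pow₀ (by linarith)
  have g1 : C1 ^ (J + j1) * (Cs * 2 ^ (J + j1) * (1 / 2) ^ (c5 * X)) ≤ 1 / 3 * (1 / 2) ^ q := by
    refine le_trans ?_ (num_pow (A := Cs) (D := (2 * C1) ^ (1 + 2 * c3)) (F := 2 ^ c5) (X := X) (q := q) hCs1 hp1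
      (by rw [hB2] at hc5; exact hc5) hX1 (by omega))
    have h1 : (2 * C1) ^ (J + j1) ≤ ((2 * C1) ^ (1 + 2 * c3)) ^ X := by
      rw [← pow_mul]
      apply pow_le_pow_right₀ (by linarith)
      have : (1 + 2 * c3) * X = X + 2 * c3 * X := by ring
      omega
    have h2 : (1 / 2 : ℝ) ^ (c5 * X) = 1 / ((2 : ℝ) ^ c5) ^ X := by rw [← pow_mul, one_div_pow]
    rw [h2]
    calc C1 ^ (J + j1) * (Cs * 2 ^ (J + j1) * (1 / ((2 : ℝ) ^ c5) ^ X)) =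
          Cs * (2 * C1) ^ (J + j1) / ((2 : ℝ) ^ c5) ^ X := by
          rw [mul_pow]
          ring
      _ ≤ Cs * ((2 * C1) ^ (1 + 2 * c3)) ^ X / ((2 : ℝ) ^ c5) ^ X := by gcongr
  have g0 : C1 ^ J * (Cs * 2 ^ J * (1 / 2) ^ (c5 * X)) ≤ 1 / 3 * (1 / 2) ^ q := by
    refine le_trans ?_ g1
    have h1 : C1 ^ J ≤ C1 ^ (J + j1) := pow_le_pow_right₀ hC1 (by omega)
    have h2 : (2 : ℝ) ^ J ≤ 2 ^ (J + j1) := pow_le_pow_right₀ (by norm_num) (by omega)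
    gcongr
  have g2 : C1 ^ J * (K * 8 ^ J / 4 ^ (c1 * X)) ≤ 1 / 3 * (1 / 2) ^ q := by
    refine le_trans ?_ (num_pow (A := K) (D := 8 * C1) (F := 4 ^ c1) (X := X) (q := q) hK (by linarith)
      (by rw [hB1] at hc1; exact hc1) hX1 (by omega))
    rw [← pow_mul]
    have h1 : (8 * C1) ^ J ≤ (8 * C1) ^ X := pow_le_pow_right₀ (by linarith) (by omega)
    calc C1 ^ J * (K * 8 ^ J / 4 ^ (c1 * X)) = K * (8 * C1) ^ J / 4 ^ (c1 * X) := by
          rw [mul_pow]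
          ring
      _ ≤ _ := by gcongr
  calc C1 ^ J * (Cs * 2 ^ J * (1 / 2) ^ (c5 * X)) * Ub (k + j1 + J) +
      C1 ^ (J + j1) * (Cs * 2 ^ (J + j1) * (1 / 2) ^ (c5 * X)) * Ub (k + j1 + J) +
      C1 ^ J * (K * 8 ^ J / 4 ^ (c1 * X)) * Ub (k + j1 + J) ≤ 1 / 3 * (1 / 2) ^ q * Ub (k + j1 + J) +
        1 / 3 * (1 / 2) ^ q * Ub (k + j1 + J) + 1 / 3 * (1 / 2) ^ q * Ub (k + j1 + J) := by gcongr
    _ = _ := by ring

/-- Q6: no large displacements in a short time, quantitative form -/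
theorem disp_q : DispQ := by
  obtain ⟨C0, Ct, hC0, hCt, htube⟩ := tube_emb
  obtain ⟨d, C, hd, hdf⟩ := disp_false_q
  obtain ⟨E, hE⟩ : ∃ E : ℝ, E = Real.exp (Ct * (2 : ℝ) ^ (1 : ℝ)) := ⟨_, rfl⟩
  have hE0 : 0 < E := by rw [hE]; positivity
  obtain ⟨c6, hc6⟩ : ∃ c6 : ℕ, 2 * (E * 2 ^ C0) ≤ (2 : ℝ) ^ c6 := by
    obtain ⟨c6, h⟩ := pow_unbounded_of_one_lt (2 * (E * 2 ^ C0)) (show (1 : ℝ) < 2 by norm_num)
    exact ⟨c6, h.le⟩
  refine ⟨d, C * (C0 + c6 + 2) + C0, hd, ?_⟩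
  intro kc J a q lam hJ ha hkc hAS
  obtain ⟨X, hX⟩ : ∃ X, X = J + q + 1 := ⟨_, rfl⟩
  rw [← hX] at ha hkc
  have hX1 : 1 ≤ X := by omega
  have hexp : (C * (C0 + c6 + 2) + C0) * X = C * ((C0 + c6 + 2) * X) + C0 * X := by ring
  rw [hexp] at ha hkc
  have hC0X : C0 ≤ C0 * X := Nat.le_mul_of_pos_right _ hX1
  have hC6X : C0 + c6 ≤ (C0 + c6) * X := Nat.le_mul_of_pos_right _ hX1
  have hsp : (C0 + c6 + 2) * X = (C0 + c6) * X + 2 * X := by ring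
  have h1 : C * (J + (q + 1) + 1) ≤ C * ((C0 + c6 + 2) * X) := Nat.mul_le_mul_left _ (by omega)
  have h2 : C * (J + C0 + (q + c6) + 1) ≤ C * ((C0 + c6 + 2) * X) := Nat.mul_le_mul_left _ (by omega)
  have e0 := hdf kc J a (q + 1) lam hJ (by omega) (by omega) hAS
  have e1 := hdf kc (J + C0) a (q + c6) lam (by omega) (by omega) (by omega) hAS
  have hUL := Ub_pos (kc + J)
  obtain ⟨G, hG⟩ : ∃ G : Set (List Bool), G = {t | t ∈ BL (kc + J) ∧ ∃ i j : ℕ, i ≤ j ∧ j ≤ t.length ∧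
      ((j : ℝ) - i < lam) ∧ 824 * (2 : ℤ) ^ kc ≤ |lvl true (vx oo up t j) - lvl true (vx oo up t i)|} := ⟨_, rfl⟩
  obtain ⟨G', hG1, hG2⟩ := htube (kc + J) (kc + J + 2) G (by omega) le_rfl (fun t ht => by
    rw [hG] at ht
    exact ht.1)
  have hsubG : G' ⊆ DF kc (J + C0) lam := by
    intro w hw
    obtain ⟨hwB, t, ht, a, hemb, -⟩ := hG2 w hw
    rw [hG] at ht
    obtain ⟨htB, i, j, hij, hj, hl, hd⟩ := ht
    obtain ⟨c, hc⟩ := hemb.rel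
    refine ⟨by rw [← add_assoc]; exact hwB, a + i, a + j, by omega, by have := hemb.le; omega, ?_, ?_⟩
    · push_cast
      linarith
    · rw [← lvl_false, ← lvl_false, hc i (by omega), hc j hj]
      have e : c - lvl true (vx oo up t j) - (c - lvl true (vx oo up t i)) =
          -(lvl true (vx oo up t j) - lvl true (vx oo up t i)) := by ring
      rw [e, abs_neg]
      exact hd
  have hGle : gf G ≤ ENNReal.ofReal (1 / 2 * (1 / 2) ^ q * Ub (kc + J)) := by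
    refine hG1.trans ((mul_le_mul_right ((gf_mono hsubG).trans e1) _).trans ?_)
    rw [← ENNReal.ofReal_mul (by positivity)]
    apply ENNReal.ofReal_le_ofReal
    have e2 : ((kc + J : ℕ) : ℝ) + 3 - ((kc + J + 2 : ℕ) : ℝ) = 1 := by
      push_cast
      ring
    rw [e2, ← hE]
    have e3 : Ub (kc + (J + C0)) ≤ 2 ^ C0 * Ub (kc + J) := by
      have := UU_ratio_up (kc + J) C0
      rw [add_assoc] at this
      exact this
    have e4 : E * 2 ^ C0 * (1 / 2) ^ c6 ≤ 1 / 2 := by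
      rw [one_div_pow, mul_one_div, div_le_iff₀ (by positivity)]
      linarith
    calc E * ((1 / 2) ^ (q + c6) * Ub (kc + (J + C0))) ≤ E * ((1 / 2) ^ (q + c6) * (2 ^ C0 * Ub (kc + J))) := by
          gcongr
      _ = (E * 2 ^ C0 * (1 / 2) ^ c6) * (1 / 2) ^ q * Ub (kc + J) := by
          rw [pow_add]
          ring
      _ ≤ 1 / 2 * (1 / 2) ^ q * Ub (kc + J) := by gcongr
  have hsub : DT kc J lam ⊆ DF kc J lam ∪ G := by
    rintro t ⟨ht, dir, i, j, hij, hj, hl, hd⟩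
    cases dir with
    | false => exact Or.inl ⟨ht, i, j, hij, hj, hl, hd⟩
    | true =>
      right
      rw [hG]
      exact ⟨ht, i, j, hij, hj, hl, hd⟩
  refine (gf_mono hsub).trans ((gf_union_le _ _).trans ((add_le_add e0 hGle).trans ?_))
  rw [← ENNReal.ofReal_add (by positivity) (by positivity)]
  apply ENNReal.ofReal_le_ofReal
  rw [pow_succ]
  linarith

end NTm

end HexObs
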