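import Pool.Agent.NT.Disp

/-!
NTQ (natural time, quantitative form): definitions. Text: proof/QDISP_h94.
-/

set_option autoImplicit false

namespace HexObs

namespace NTm

open Finset TS SDN SDN.CN

open scoped ENNReal

/-- bridges of the box with a leaf of the scale kc + 5 in S -/
def EQ (kc J : ℕ) (S : Set (List Bool)) : Set (List Bool) :=
  {t | t ∈ BL (kc + J) ∧ ∃ (m u : ℕ) (e : ℕ → ℕ), Lf false (kc + 5) t m u e ∧ ∃ l, l < m ∧ ∀ g, IsLf t m e l g →
    g ∈ BrR (2 ^ (kc + 4)) (2 ^ (kc + J)) → g ∈ S}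

/-- the right continuations with at most M pieces, windows number ≥ i in increasing order; W i = window number i (heights
of the block kp i), n windows -/
noncomputable def FR (W : ℕ → Set (List Bool)) (kp : ℕ → ℕ) (n : ℕ) : ℕ → ℕ → List Bool → ℝ≥0∞
  | 0, _ => fun _ => 1
  | M + 1, i => fun t => 1 + ∑ i' ∈ Ico i n, vA (2 ^ (kp i + 4)) (W i') (FR W kp n M i') t

/-- the continuations with at most M pieces in front of the functional G, windows number ≤ i in decreasing order -/
noncomputable def FL (W : ℕ → Set (List Bool)) (kp : ℕ → ℕ) (G : List Bool → ℝ≥0∞) : ℕ → ℕ → List Bool → ℝ≥0∞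
  | 0, _ => G
  | M + 1, i => fun t => G t + ∑ i' ∈ range (i + 1), vA (2 ^ (kp i' + 4)) (W i') (FL W kp G M i') t

/-- a family of n windows: the window number i consists of bridges of the block kp i -/
structure Wnd (kc J n : ℕ) (W : ℕ → Set (List Bool)) (kp : ℕ → ℕ) : Prop where
  zero : kp 0 = kc
  mono : ∀ i j, i ≤ j → kp i ≤ kp j
  top : ∀ i, i < n → kp i ≤ kc + J
  sub : ∀ i, i < n → W i ⊆ BrR (2 ^ (kp i + 4)) (2 ^ (kp i + 5))
  norm : ∀ i, i < n → ∀ Φ : List Bool → ℝ≥0∞, Hered Φ → xT (2 ^ (kp i + 4)) (kp i) (vA (2 ^ (kp i + 4)) (W i) Φ) ≤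
    ENNReal.ofReal (1 / 4) * xT (2 ^ (kp i + 4)) (kp i) Φ

/-- right parts: windows number ≥ i in increasing order -/
def IncR (W : ℕ → Set (List Bool)) (n : ℕ) : ℕ → List (List Bool) → Prop
  | _, [] => True
  | i, g :: gs => ∃ i', i ≤ i' ∧ i' < n ∧ g ∈ W i' ∧ IncR W n i' gs

/-- monotone chains: windows number < i in decreasing order (not strictly), a leaf in S, a right part with at most M pieces -/
def DecL (W : ℕ → Set (List Bool)) (n M : ℕ) (S : Set (List Bool)) : ℕ → List (List Bool) → Prop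
  | _, [] => False
  | i, g :: gs => (g ∈ S ∧ gs.length ≤ M ∧ IncR W n 0 gs) ∨ ∃ i', i' < i ∧ g ∈ W i' ∧ DecL W n M S (i' + 1) gs

end NTm

end HexObs
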