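import Pool.Agent.NTQ.Defs
import Pool.Agent.SDN.CleanFin
import Pool.Agent.SDN.NormX

/-!
NTQ, Q2: the norms of the functionals of the monotone chains.
-/

set_option autoImplicit false

namespace HexObs

namespace NTm

open Finset TS SDN SDN.CN

open scoped ENNReal

namespace FB

variable {kc J n : ℕ} {W : ℕ → Set (List Bool)} {kp : ℕ → ℕ}

lemma geoR {Q : ℝ} (n m : ℕ) (hQ : 1 ≤ Q) (hm : m ≤ n) : (Q - 1) * ∑ i ∈ Ico (n - m) n, Q ^ (n - i) ≤ Q ^ (m + 1) := by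
  induction m with
  | zero =>
    rw [Nat.sub_zero, Ico_self, sum_empty, mul_zero]
    positivity
  | succ m ih =>
    have h1 := ih (by omega)
    rw [Finset.sum_eq_sum_Ico_succ_bot (by omega), show n - (m + 1) + 1 = n - m by omega,
      show n - (n - (m + 1)) = m + 1 by omega, mul_add]
    calc (Q - 1) * Q ^ (m + 1) + (Q - 1) * ∑ i ∈ Ico (n - m) n, Q ^ (n - i) ≤ (Q - 1) * Q ^ (m + 1) + Q ^ (m + 1) := by
          linarith
      _ = Q ^ (m + 1 + 1) := by ring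

lemma geoL {Q : ℝ} (m : ℕ) : (Q - 1) * ∑ i ∈ range m, Q ^ (i + 1) = Q ^ (m + 1) - Q := by
  induction m with
  | zero => simp
  | succ m ih =>
    rw [sum_range_succ, mul_add, ih]
    ring

lemma hered_FR (M i : ℕ) : Hered (FR W kp n M i) := by
  cases M with
  | zero => exact fun _ _ _ => le_rfl
  | succ M =>
    intro s hs t
    exact add_le_add le_rfl (Finset.sum_le_sum fun i' _ => hered_vA _ _ _ s hs t)

lemma herD_FR (M i : ℕ) : HerD (2 ^ (kp i + 4)) (FR W kp n M i) := by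
  cases M with
  | zero => exact ⟨fun _ _ _ => le_rfl, fun _ _ _ _ => le_rfl⟩
  | succ M =>
    exact ⟨hered_FR _ _, fun s t h1 h2 => add_le_add le_rfl (Finset.sum_le_sum fun i' _ =>
      (herD_vA Nat.one_le_two_pow (W i') (FR W kp n M i')).suf s t h1 h2)⟩

lemma hered_FL {G : List Bool → ℝ≥0∞} (hG : Hered G) (M i : ℕ) : Hered (FL W kp G M i) := by
  cases M with
  | zero => exact hG
  | succ M =>
    intro s hs t
    exact add_le_add (hG s hs t) (Finset.sum_le_sum fun i' _ => hered_vA _ _ _ s hs t)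

lemma vA_mono {D : ℕ} {A B : Set (List Bool)} (h : A ⊆ B) (Φ : List Bool → ℝ≥0∞) (t : List Bool) :
    vA D A Φ t ≤ vA D B Φ t := Rec8.sw_mono (fun _ hg => ⟨h hg.1, hg.2⟩) fun _ _ => le_rfl

/-- one more piece of the window i', seen from a piece of the block kp i -/
lemma step {K : ℝ} (hK1 : 1 ≤ K) (hK : ∀ (D0 k0 D1 k1 E N : ℕ) (Φ : List Bool → ℝ≥0∞), Hered Φ → 2 ^ (k0 + 4) ≤ D0 →
      2 ^ (k1 + 4) ≤ D1 → D0 ≤ E → D1 ≤ E → E ≤ N →
      xT D0 k0 (vA D0 (BrR E N) Φ) ≤ ENNReal.ofReal (K * (UU N / Ub k0)) * xT D1 k1 Φ) (hW : Wnd kc J n W kp) {i' k0 k1 : ℕ}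
    (hi' : i' < n) (h0 : k0 ≤ kp i') (h1 : k1 ≤ kp i') {Φ : List Bool → ℝ≥0∞} (hΦ : Hered Φ) :
    xT (2 ^ (k0 + 4)) k0 (vA (2 ^ (k0 + 4)) (W i') Φ) ≤
      ENNReal.ofReal (32 * K * (Ub (kp i') / Ub k0)) * xT (2 ^ (k1 + 4)) k1 Φ := by
  have hU := Ub_pos k0
  have e0 : 2 ^ (k0 + 4) ≤ 2 ^ (kp i' + 4) := Nat.pow_le_pow_right (by norm_num) (by omega)
  have e1 : 2 ^ (k1 + 4) ≤ 2 ^ (kp i' + 4) := Nat.pow_le_pow_right (by norm_num) (by omega)
  have e2 : 2 ^ (kp i' + 4) ≤ 2 ^ (kp i' + 5) := Nat.pow_le_pow_right (by norm_num) (by omega)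
  refine (xT_mono fun t => vA_mono (hW.sub i' hi') Φ t).trans
    ((hK (2 ^ (k0 + 4)) k0 (2 ^ (k1 + 4)) k1 _ _ Φ hΦ le_rfl le_rfl e0 e1 e2).trans ?_)
  refine mul_le_mul_left (ENNReal.ofReal_le_ofReal ?_) _
  have h3 : UU (2 ^ (kp i' + 5)) ≤ 2 ^ 5 * Ub (kp i') := UU_ratio_up (kp i') 5
  calc K * (UU (2 ^ (kp i' + 5)) / Ub k0) ≤ K * (2 ^ 5 * Ub (kp i') / Ub k0) := by gcongr
    _ = 32 * K * (Ub (kp i') / Ub k0) := by ring

/-- the right functional -/
lemma right {K Q : ℝ} (hK1 : 1 ≤ K) (hQ : 128 * K + 1 ≤ Q)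
    (hK : ∀ (D0 k0 D1 k1 E N : ℕ) (Φ : List Bool → ℝ≥0∞), Hered Φ → 2 ^ (k0 + 4) ≤ D0 →
      2 ^ (k1 + 4) ≤ D1 → D0 ≤ E → D1 ≤ E → E ≤ N →
      xT D0 k0 (vA D0 (BrR E N) Φ) ≤ ENNReal.ofReal (K * (UU N / Ub k0)) * xT D1 k1 Φ) (hW : Wnd kc J n W kp) (M : ℕ) :
    ∀ i : ℕ, kp i ≤ kc + J → xT (2 ^ (kp i + 4)) (kp i) (FR W kp n M i) ≤
      ENNReal.ofReal (4 * (Ub (kc + J) / Ub (kp i)) * Q ^ (n - i)) := by
  have hQ1 : 1 ≤ Q := by linarith
  have hr : ∀ i, kp i ≤ kc + J → 1 ≤ Ub (kc + J) / Ub (kp i) := fun i hi => by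
    rw [le_div_iff₀ (Ub_pos _), one_mul]
    exact Ub_mono hi
  have hone : ∀ i, kp i ≤ kc + J → xT (2 ^ (kp i + 4)) (kp i) (fun _ => 1) ≤ ENNReal.ofReal 2 := fun i _ => by
    refine (xT_one _ _).trans (le_of_eq ?_)
    rw [ENNReal.ofReal_ofNat]
  induction M with
  | zero =>
    intro i hi
    refine (hone i hi).trans (ENNReal.ofReal_le_ofReal ?_)
    have h1 := hr i hi
    have h2 : 1 ≤ Q ^ (n - i) := one_le_pow₀ hQ1
    nlinarith
  | succ M ih =>
    intro i hi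
    have h1 := hr i hi
    obtain ⟨r, hrr⟩ : ∃ r, r = Ub (kc + J) / Ub (kp i) := ⟨_, rfl⟩
    rw [← hrr] at h1 ⊢
    have hr0 : 0 ≤ r := by linarith
    have hUi := Ub_pos (kp i)
    have hUL := Ub_pos (kc + J)
    -- the sum
    have h2 : ∀ i' ∈ Ico i n, xT (2 ^ (kp i + 4)) (kp i) (vA (2 ^ (kp i + 4)) (W i') (FR W kp n M i')) ≤
        ENNReal.ofReal ((if i' = i then r * Q ^ (n - i) else 0) + 128 * K * r * (if i + 1 ≤ i' then Q ^ (n - i') else 0)) := by
      intro i' hi'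
      rw [Finset.mem_Ico] at hi'
      rcases hi'.1.eq_or_lt with h3 | h3
      · subst h3
        rw [if_pos rfl, if_neg (by omega), mul_zero, add_zero]
        refine (hW.norm i hi'.2 _ (hered_FR _ _)).trans ((mul_le_mul_right (ih i hi) _).trans ?_)
        rw [← ENNReal.ofReal_mul (by norm_num), ← hrr]
        apply ENNReal.ofReal_le_ofReal
        linarith
      · rw [if_neg (by omega), if_pos (by omega), zero_add]
        have hUi' := Ub_pos (kp i')
        refine (step hK1 hK hW hi'.2 (hW.mono i i' h3.le) le_rfl (hered_FR _ _)).trans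
          ((mul_le_mul_right (ih i' (hW.top i' hi'.2)) _).trans ?_)
        rw [← ENNReal.ofReal_mul (by positivity)]
        apply ENNReal.ofReal_le_ofReal
        apply le_of_eq
        rw [hrr]
        field_simp
        ring
    have h3 : xT (2 ^ (kp i + 4)) (kp i) (FR W kp n (M + 1) i) ≤
        xT (2 ^ (kp i + 4)) (kp i) (fun _ => 1) +
          ∑ i' ∈ Ico i n, xT (2 ^ (kp i + 4)) (kp i) (vA (2 ^ (kp i + 4)) (W i') (FR W kp n M i')) := by
      refine (Ch.xT_add _ _ _ _).trans (add_le_add le_rfl ?_)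
      exact xT_sum _ _ _ (fun i' => vA (2 ^ (kp i + 4)) (W i') (FR W kp n M i'))
    refine h3.trans ((add_le_add (hone i hi) (Finset.sum_le_sum h2)).trans ?_)
    rw [← ENNReal.ofReal_sum_of_nonneg (fun i' _ => by positivity), ← ENNReal.ofReal_add (by norm_num) (by positivity)]
    apply ENNReal.ofReal_le_ofReal
    rw [Finset.sum_add_distrib, ← Finset.mul_sum]
    have h4 : ∑ i' ∈ Ico i n, (if i' = i then r * Q ^ (n - i) else 0) ≤ r * Q ^ (n - i) := by
      rw [Finset.sum_ite_eq']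
      split_ifs
      · exact le_rfl
      · positivity
    have h5 : (Q - 1) * ∑ i' ∈ Ico i n, (if i + 1 ≤ i' then Q ^ (n - i') else 0) ≤ Q ^ (n - i) := by
      rcases Nat.lt_or_ge i n with h6 | h6
      · have h7 := geoR (Q := Q) n (n - (i + 1)) hQ1 (by omega)
        rw [show n - (n - (i + 1)) = i + 1 by omega, show n - (i + 1) + 1 = n - i by omega] at h7
        refine le_trans (le_of_eq ?_) h7
        congr 1
        rw [Finset.sum_eq_sum_Ico_succ_bot h6, if_neg (by omega), zero_add]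
        refine Finset.sum_congr rfl fun i' hi' => ?_
        rw [Finset.mem_Ico] at hi'
        rw [if_pos hi'.1]
      · rw [Finset.Ico_eq_empty (by omega), Finset.sum_empty, mul_zero]
        positivity
    obtain ⟨s, hs⟩ : ∃ s, s = ∑ i' ∈ Ico i n, (if i + 1 ≤ i' then Q ^ (n - i') else 0) := ⟨_, rfl⟩
    rw [← hs] at h5 ⊢
    have hs0 : 0 ≤ s := by
      rw [hs]
      exact Finset.sum_nonneg fun i' _ => by positivity
    have h6 : 128 * K * s ≤ Q ^ (n - i) := le_trans (mul_le_mul_of_nonneg_right (by linarith) hs0) h5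
    have h7 : 1 ≤ Q ^ (n - i) := one_le_pow₀ hQ1
    have h8 : 128 * K * r * s ≤ r * Q ^ (n - i) := by
      calc 128 * K * r * s = r * (128 * K * s) := by ring
        _ ≤ _ := mul_le_mul_of_nonneg_left h6 hr0
    have h9 : 1 ≤ r * Q ^ (n - i) := by nlinarith
    linarith

/-- the left functional -/
lemma left {K Q g : ℝ} (hK1 : 1 ≤ K) (hQ : 128 * K + 1 ≤ Q) (hg : 0 ≤ g)
    (hK : ∀ (D0 k0 D1 k1 E N : ℕ) (Φ : List Bool → ℝ≥0∞), Hered Φ → 2 ^ (k0 + 4) ≤ D0 →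
      2 ^ (k1 + 4) ≤ D1 → D0 ≤ E → D1 ≤ E → E ≤ N →
      xT D0 k0 (vA D0 (BrR E N) Φ) ≤ ENNReal.ofReal (K * (UU N / Ub k0)) * xT D1 k1 Φ) (hW : Wnd kc J n W kp)
    {G : List Bool → ℝ≥0∞} (hG : Hered G) (hGx : xT (2 ^ (kc + 4)) kc G ≤ ENNReal.ofReal g) (M : ℕ) :
    ∀ i : ℕ, i < n → xT (2 ^ (kp i + 4)) (kp i) (vA (2 ^ (kp i + 4)) (W i) (FL W kp G M i)) ≤
      ENNReal.ofReal (Q ^ (i + 1) * g) := by
  have hQ1 : 1 ≤ Q := by linarith
  have hQ0 : 0 ≤ Q := by linarith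
  have hfirst : ∀ i, i < n → xT (2 ^ (kp i + 4)) (kp i) (vA (2 ^ (kp i + 4)) (W i) G) ≤ ENNReal.ofReal (32 * K * g) := by
    intro i hi
    have hUi := Ub_pos (kp i)
    have h0 : kc ≤ kp i := by
      rw [← hW.zero]
      exact hW.mono 0 i (Nat.zero_le i)
    refine (step hK1 hK hW hi le_rfl h0 hG).trans ((mul_le_mul_right hGx _).trans ?_)
    rw [← ENNReal.ofReal_mul (by positivity), div_self hUi.ne', mul_one]
  have h32 : ∀ i, 32 * K * g ≤ Q ^ (i + 1) * g / 4 := by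
    intro i
    have h1 : Q ≤ Q ^ (i + 1) := by
      calc Q = Q ^ 1 := (pow_one Q).symm
        _ ≤ Q ^ (i + 1) := pow_le_pow_right₀ hQ1 (by omega)
    have h2 : 32 * K ≤ Q ^ (i + 1) / 4 := by linarith
    calc 32 * K * g ≤ Q ^ (i + 1) / 4 * g := mul_le_mul_of_nonneg_right h2 hg
      _ = _ := by ring
  induction M with
  | zero =>
    intro i hi
    refine (hfirst i hi).trans (ENNReal.ofReal_le_ofReal ?_)
    have h1 := h32 i
    have h2 : 0 ≤ Q ^ (i + 1) * g := by positivity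
    linarith
  | succ M ih =>
    intro i hi
    -- the sum
    have h1 : ∀ i' ∈ range (i + 1), xT (2 ^ (kp i + 4)) (kp i)
        (vA (2 ^ (kp i + 4)) (W i) (vA (2 ^ (kp i' + 4)) (W i') (FL W kp G M i'))) ≤
        ENNReal.ofReal ((if i' = i then Q ^ (i + 1) * g / 4 else 0) + 32 * K * g * (if i' < i then Q ^ (i' + 1) else 0)) := by
      intro i' hi'
      rw [Finset.mem_range] at hi'
      rcases (Nat.lt_succ_iff.1 hi').eq_or_lt with h3 | h3
      · subst h3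
        rw [if_pos rfl, if_neg (lt_irrefl _), mul_zero, add_zero]
        refine (hW.norm i' hi _ (hered_vA _ _ _)).trans ((mul_le_mul_right (ih i' hi) _).trans ?_)
        rw [← ENNReal.ofReal_mul (by norm_num)]
        apply ENNReal.ofReal_le_ofReal
        linarith
      · rw [if_neg (by omega), if_pos h3, zero_add]
        have hUi := Ub_pos (kp i)
        refine (step hK1 hK hW hi le_rfl (hW.mono i' i h3.le) (hered_vA _ _ _)).trans
          ((mul_le_mul_right (ih i' (by omega)) _).trans ?_)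
        rw [← ENNReal.ofReal_mul (by positivity), div_self hUi.ne']
        apply ENNReal.ofReal_le_ofReal
        apply le_of_eq
        ring
    have h2 : xT (2 ^ (kp i + 4)) (kp i) (vA (2 ^ (kp i + 4)) (W i) (FL W kp G (M + 1) i)) ≤
        xT (2 ^ (kp i + 4)) (kp i) (vA (2 ^ (kp i + 4)) (W i) G) +
          ∑ i' ∈ range (i + 1), xT (2 ^ (kp i + 4)) (kp i)
            (vA (2 ^ (kp i + 4)) (W i) (vA (2 ^ (kp i' + 4)) (W i') (FL W kp G M i'))) := by
      have e : ∀ t, vA (2 ^ (kp i + 4)) (W i) (FL W kp G (M + 1) i) t = vA (2 ^ (kp i + 4)) (W i) G t +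
          ∑ i' ∈ range (i + 1), vA (2 ^ (kp i + 4)) (W i) (vA (2 ^ (kp i' + 4)) (W i') (FL W kp G M i')) t := by
        intro t
        unfold vA
        rw [← Rec8.sw_sum, ← Rec8.sw_add]
        rfl
      refine (xT_mono fun t => (e t).le).trans ((Ch.xT_add _ _ _ _).trans (add_le_add le_rfl ?_))
      exact xT_sum _ _ _ (fun i' => vA (2 ^ (kp i + 4)) (W i) (vA (2 ^ (kp i' + 4)) (W i') (FL W kp G M i')))
    refine h2.trans ((add_le_add (hfirst i hi) (Finset.sum_le_sum h1)).trans ?_)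
    rw [← ENNReal.ofReal_sum_of_nonneg (fun i' _ => by positivity), ← ENNReal.ofReal_add (by positivity) (by positivity)]
    apply ENNReal.ofReal_le_ofReal
    rw [Finset.sum_add_distrib, ← Finset.mul_sum]
    have h4 : ∑ i' ∈ range (i + 1), (if i' = i then Q ^ (i + 1) * g / 4 else 0) ≤ Q ^ (i + 1) * g / 4 := by
      rw [Finset.sum_ite_eq']
      split_ifs
      · exact le_rfl
      · positivity
    have h5 : (Q - 1) * ∑ i' ∈ range (i + 1), (if i' < i then Q ^ (i' + 1) else 0) ≤ Q ^ (i + 1) := by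
      rw [Finset.sum_range_succ, if_neg (lt_irrefl _), add_zero]
      have h6 : ∑ i' ∈ range i, (if i' < i then Q ^ (i' + 1) else 0) = ∑ i' ∈ range i, Q ^ (i' + 1) := by
        refine Finset.sum_congr rfl fun i' hi' => ?_
        rw [if_pos (Finset.mem_range.1 hi')]
      rw [h6, geoL]
      linarith
    obtain ⟨s, hs⟩ : ∃ s, s = ∑ i' ∈ range (i + 1), (if i' < i then Q ^ (i' + 1) else 0) := ⟨_, rfl⟩
    rw [← hs] at h5 ⊢
    have hs0 : 0 ≤ s := by
      rw [hs]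
      exact Finset.sum_nonneg fun i' _ => by positivity
    have h6 : 128 * K * s ≤ Q ^ (i + 1) := le_trans (mul_le_mul_of_nonneg_right (by linarith) hs0) h5
    have h8 : 32 * K * g * s ≤ Q ^ (i + 1) * g / 4 := by
      calc 32 * K * g * s = (128 * K * s) * g / 4 := by ring
        _ ≤ _ := by
          have := mul_le_mul_of_nonneg_right h6 hg
          linarith
    have h9 := h32 i
    have h10 : 0 ≤ Q ^ (i + 1) * g := by positivity
    linarith

end FB

open FB in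
/-- Q2 (proof: proof/QDISP_h94, section 2; two_scale, totH, Wnd.norm; FR M i has norm ≤ 4 (Ub (kc + J) / Ub (kp i)) Q ^ (n - i),
x_i (vA (W i) (FL M i)) ≤ Q ^ (i + 1) x (G)) -/
theorem fun_bound : ∃ Q : ℝ, 1 ≤ Q ∧ ∀ (kc J n : ℕ) (W : ℕ → Set (List Bool)) (kp : ℕ → ℕ) (S : Set (List Bool)) (δ : ℝ),
    Wnd kc J n W kp → 0 ≤ δ → Sm kc S δ → ∀ M : ℕ,
    Rec8.sw S (FR W kp n M 0) + ∑ i ∈ range n, Rec8.sw (W i) (FL W kp (vA (2 ^ (kc + 4)) S (FR W kp n M 0)) M i) ≤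
      ENNReal.ofReal (Q ^ (n + J + 1) * δ * Ub (kc + J)) := by
  obtain ⟨K, hK1, hK⟩ := two_scale
  obtain ⟨C, δ0, hInp⟩ := inp_exists
  obtain ⟨K0, hK0, htot⟩ := totH hInp
  obtain ⟨q, hq⟩ : ∃ q : ℝ, q = 128 * K + 1 := ⟨_, rfl⟩
  have hq1 : 1 ≤ q := by linarith
  have hq2 : 2 ≤ q := by linarith
  have hq0 : 0 ≤ q := by linarith
  refine ⟨132 * K0 * q ^ 3, ?_, ?_⟩
  · have : 1 ≤ q ^ 3 := one_le_pow₀ hq1
    nlinarith
  intro kc J n W kp S δ hW hδ hS M
  have hU := Ub_pos kc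
  have hUL := Ub_pos (kc + J)
  have hUJ : Ub (kc + J) ≤ 2 ^ J * Ub kc := UU_ratio_up kc J
  obtain ⟨r, hr⟩ : ∃ r, r = Ub (kc + J) / Ub kc := ⟨_, rfl⟩
  have hr1 : 1 ≤ r := by
    rw [hr, le_div_iff₀ hU, one_mul]
    exact Ub_mono (by omega)
  have hrJ : r ≤ 2 ^ J := by
    rw [hr, div_le_iff₀ hU]
    exact hUJ
  have hrU : r * Ub kc = Ub (kc + J) := by
    rw [hr]
    field_simp
  -- the right functional
  have hF : xT (2 ^ (kc + 4)) kc (FR W kp n M 0) ≤ ENNReal.ofReal (4 * r * q ^ n) := by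
    have h1 := right (Q := q) hK1 (by linarith) hK hW M 0 (by rw [hW.zero]; omega)
    rw [hW.zero, Nat.sub_zero, ← hr] at h1
    exact h1
  have hFh : HerD (2 ^ (kc + 4)) (FR W kp n M 0) := by
    have := herD_FR (W := W) (kp := kp) (n := n) M 0
    rwa [hW.zero] at this
  -- the special leaf
  obtain ⟨g, hg⟩ : ∃ g : ℝ, g = δ * (4 * r * q ^ n) := ⟨_, rfl⟩
  have hg0 : 0 ≤ g := by
    rw [hg]
    positivity
  have hG : xT (2 ^ (kc + 4)) kc (vA (2 ^ (kc + 4)) S (FR W kp n M 0)) ≤ ENNReal.ofReal g := by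
    refine (hS.near _ hFh).trans ((mul_le_mul_right hF _).trans ?_)
    rw [← ENNReal.ofReal_mul hδ, hg]
  have h1 : Rec8.sw S (FR W kp n M 0) ≤ ENNReal.ofReal (g * Ub kc) := by
    refine (hS.free _ hFh).trans ((mul_le_mul_right hF _).trans ?_)
    rw [← ENNReal.ofReal_mul (by positivity), hg]
    apply ENNReal.ofReal_le_ofReal
    apply le_of_eq
    ring
  -- the left functional
  have hL := left (Q := q) hK1 (by linarith) hg0 hK hW (hered_vA (2 ^ (kc + 4)) S (FR W kp n M 0)) hG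
  have htot2 : ∀ i, i < n → ∀ k1, k1 ≤ kp i → ∀ Φ : List Bool → ℝ≥0∞, Hered Φ →
      Rec8.sw (W i) Φ ≤ ENNReal.ofReal (32 * K0 * Ub (kc + J)) * xT (2 ^ (k1 + 4)) k1 Φ := by
    intro i hi k1 hk1 Φ hΦ
    have h2 : W i ⊆ BrR (2 ^ (k1 + 4)) (2 ^ (kp i + 5)) := by
      intro x hx
      obtain ⟨h, a1, a2, a3⟩ := hW.sub i hi hx
      refine ⟨h, le_trans ?_ a1, a2, a3⟩
      exact Nat.pow_le_pow_right (by norm_num) (by omega)
    refine (Rec8.sw_mono h2 fun _ _ => le_rfl).trans ((htot _ _ k1 Φ hΦ le_rfl).trans ?_)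
    refine mul_le_mul_left (ENNReal.ofReal_le_ofReal ?_) _
    have h3 : UU (2 ^ (kp i + 5)) ≤ 2 ^ 5 * Ub (kp i) := UU_ratio_up (kp i) 5
    have h4 : Ub (kp i) ≤ Ub (kc + J) := Ub_mono (hW.top i hi)
    calc K0 * UU (2 ^ (kp i + 5)) ≤ K0 * (2 ^ 5 * Ub (kc + J)) := by
          apply mul_le_mul_of_nonneg_left _ (by linarith)
          linarith
      _ = _ := by ring
  have h2 : ∀ i ∈ range n, Rec8.sw (W i) (FL W kp (vA (2 ^ (kc + 4)) S (FR W kp n M 0)) M i) ≤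
      ENNReal.ofReal (32 * K0 * Ub (kc + J) * (g * q ^ (i + 2))) := by
    intro i hi
    rw [Finset.mem_range] at hi
    have h0 : kc ≤ kp i := by
      rw [← hW.zero]
      exact hW.mono 0 i (Nat.zero_le i)
    have ha := (htot2 i hi kc h0 _ (hered_vA (2 ^ (kc + 4)) S (FR W kp n M 0))).trans (mul_le_mul_right hG _)
    cases M with
    | zero =>
      refine ha.trans ?_
      rw [← ENNReal.ofReal_mul (by positivity)]
      apply ENNReal.ofReal_le_ofReal
      apply mul_le_mul_of_nonneg_left _ (by positivity)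
      have : 1 ≤ q ^ (i + 2) := one_le_pow₀ hq1
      nlinarith
    | succ M =>
      have e : Rec8.sw (W i) (FL W kp (vA (2 ^ (kc + 4)) S (FR W kp n (M + 1) 0)) (M + 1) i) =
          Rec8.sw (W i) (vA (2 ^ (kc + 4)) S (FR W kp n (M + 1) 0)) +
          ∑ i' ∈ range (i + 1), Rec8.sw (W i) (vA (2 ^ (kp i' + 4)) (W i')
            (FL W kp (vA (2 ^ (kc + 4)) S (FR W kp n (M + 1) 0)) M i')) := by
        rw [← Rec8.sw_sum, ← Rec8.sw_add]
        rfl
      rw [e]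
      have hL' := left (Q := q) hK1 (by linarith) hg0 hK hW (hered_vA (2 ^ (kc + 4)) S (FR W kp n (M + 1) 0)) hG M
      have hb : ∀ i' ∈ range (i + 1), Rec8.sw (W i) (vA (2 ^ (kp i' + 4)) (W i')
            (FL W kp (vA (2 ^ (kc + 4)) S (FR W kp n (M + 1) 0)) M i')) ≤
          ENNReal.ofReal (32 * K0 * Ub (kc + J) * (q ^ (i' + 1) * g)) := by
        intro i' hi'
        rw [Finset.mem_range] at hi'
        refine (htot2 i hi (kp i') (hW.mono i' i (by omega)) _ (hered_vA _ _ _)).trans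
          ((mul_le_mul_right (hL' i' (by omega)) _).trans ?_)
        rw [← ENNReal.ofReal_mul (by positivity)]
      refine (add_le_add ha (Finset.sum_le_sum hb)).trans ?_
      rw [← ENNReal.ofReal_mul (by positivity), ← ENNReal.ofReal_sum_of_nonneg (fun i' _ => by positivity),
        ← ENNReal.ofReal_add (by positivity) (by positivity)]
      apply ENNReal.ofReal_le_ofReal
      rw [← Finset.mul_sum, ← mul_add]
      apply mul_le_mul_of_nonneg_left _ (by positivity)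
      rw [← Finset.sum_mul]
      have h3 := geoL (Q := q) (i + 1)
      have h4 : ∑ i' ∈ range (i + 1), q ^ (i' + 1) ≤ q ^ (i + 1 + 1) - q := by
        have h5 : 0 ≤ ∑ i' ∈ range (i + 1), q ^ (i' + 1) := Finset.sum_nonneg fun _ _ => by positivity
        nlinarith
      have h5 : 1 + ∑ i' ∈ range (i + 1), q ^ (i' + 1) ≤ q ^ (i + 2) := by linarith
      calc g + (∑ i' ∈ range (i + 1), q ^ (i' + 1)) * g = g * (1 + ∑ i' ∈ range (i + 1), q ^ (i' + 1)) := by ring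
        _ ≤ g * q ^ (i + 2) := mul_le_mul_of_nonneg_left h5 hg0
  refine (add_le_add h1 (Finset.sum_le_sum h2)).trans ?_
  rw [← ENNReal.ofReal_sum_of_nonneg (fun i' _ => by positivity), ← ENNReal.ofReal_add (by positivity) (by positivity)]
  apply ENNReal.ofReal_le_ofReal
  rw [← Finset.mul_sum, ← Finset.mul_sum]
  have h3 : ∑ i ∈ range n, q ^ (i + 2) ≤ q ^ (n + 2) := by
    have h4 := geoL (Q := q) n
    have h5 : ∑ i ∈ range n, q ^ (i + 2) = q * ∑ i ∈ range n, q ^ (i + 1) := by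
      rw [Finset.mul_sum]
      exact Finset.sum_congr rfl fun i _ => by ring
    have h6 : 0 ≤ ∑ i ∈ range n, q ^ (i + 1) := Finset.sum_nonneg fun _ _ => by positivity
    have h7 : ∑ i ∈ range n, q ^ (i + 1) ≤ q ^ (n + 1) := by nlinarith
    rw [h5]
    calc q * ∑ i ∈ range n, q ^ (i + 1) ≤ q * q ^ (n + 1) := mul_le_mul_of_nonneg_left h7 hq0
      _ = q ^ (n + 2) := by ring
  have h4 : g * Ub kc ≤ 4 * (δ * Ub (kc + J)) * q ^ (n + 2) := by
    have h5 : g * Ub kc = 4 * (δ * (r * Ub kc)) * q ^ n := by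
      rw [hg]
      ring
    rw [h5, hrU]
    apply mul_le_mul_of_nonneg_left _ (by positivity)
    exact pow_le_pow_right₀ hq1 (by omega)
  have h5 : 32 * K0 * Ub (kc + J) * (g * ∑ i ∈ range n, q ^ (i + 2)) ≤
      128 * K0 * (δ * Ub (kc + J)) * (2 ^ J * (q ^ n * q ^ (n + 2))) := by
    calc 32 * K0 * Ub (kc + J) * (g * ∑ i ∈ range n, q ^ (i + 2)) ≤ 32 * K0 * Ub (kc + J) * (g * q ^ (n + 2)) := by
          gcongr
      _ = 128 * K0 * (δ * Ub (kc + J)) * (r * (q ^ n * q ^ (n + 2))) := by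
          rw [hg]
          ring
      _ ≤ _ := by gcongr
  have h6 : q ^ (n + 2) ≤ 2 ^ J * (q ^ n * q ^ (n + 2)) := by
    have a1 : (1 : ℝ) ≤ 2 ^ J := one_le_pow₀ (by norm_num)
    have a2 : 1 ≤ q ^ n := one_le_pow₀ hq1
    have a3 : 1 ≤ 2 ^ J * q ^ n := by nlinarith
    calc q ^ (n + 2) = 1 * q ^ (n + 2) := (one_mul _).symm
      _ ≤ (2 ^ J * q ^ n) * q ^ (n + 2) := mul_le_mul_of_nonneg_right a3 (by positivity)
      _ = _ := by ring
  have h7 : 2 ^ J * (q ^ n * q ^ (n + 2)) ≤ (q ^ 3) ^ (n + J + 1) := by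
    have a1 : (2 : ℝ) ^ J ≤ q ^ J := pow_le_pow_left₀ (by norm_num) hq2 J
    calc 2 ^ J * (q ^ n * q ^ (n + 2)) ≤ q ^ J * (q ^ n * q ^ (n + 2)) :=
          mul_le_mul_of_nonneg_right a1 (by positivity)
      _ = q ^ (J + (n + (n + 2))) := by ring
      _ ≤ q ^ (3 * (n + J + 1)) := pow_le_pow_right₀ hq1 (by omega)
      _ = _ := by rw [pow_mul]
  have h8 : 132 * K0 ≤ (132 * K0) ^ (n + J + 1) := by
    calc 132 * K0 = (132 * K0) ^ 1 := (pow_one _).symm
      _ ≤ _ := pow_le_pow_right₀ (by linarith) (by omega)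
  calc g * Ub kc + 32 * K0 * Ub (kc + J) * (g * ∑ i ∈ range n, q ^ (i + 2)) ≤
        4 * (δ * Ub (kc + J)) * q ^ (n + 2) + 128 * K0 * (δ * Ub (kc + J)) * (2 ^ J * (q ^ n * q ^ (n + 2))) :=
        add_le_add h4 h5
    _ ≤ 4 * K0 * (δ * Ub (kc + J)) * (2 ^ J * (q ^ n * q ^ (n + 2))) +
        128 * K0 * (δ * Ub (kc + J)) * (2 ^ J * (q ^ n * q ^ (n + 2))) := by
        refine add_le_add ?_ le_rfl
        have a1 : 4 * (δ * Ub (kc + J)) ≤ 4 * K0 * (δ * Ub (kc + J)) := by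
          have : 0 ≤ δ * Ub (kc + J) := by positivity
          nlinarith
        exact mul_le_mul a1 h6 (by positivity) (by positivity)
    _ = 132 * K0 * (2 ^ J * (q ^ n * q ^ (n + 2))) * (δ * Ub (kc + J)) := by ring
    _ ≤ (132 * K0) ^ (n + J + 1) * (q ^ 3) ^ (n + J + 1) * (δ * Ub (kc + J)) := by gcongr
    _ = (132 * K0 * q ^ 3) ^ (n + J + 1) * δ * Ub (kc + J) := by
        rw [← mul_pow]
        ring

end NTm

end HexObs
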