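import Pool.Agent.NTQ.RepG

/-!
NTQ, Q4: monotone sequences of extrema around a leaf (the abstract part).
-/

set_option autoImplicit false

namespace HexObs

namespace NTm

open Finset TS SDN SDN.ZZ

/-- consecutive values alternate: the step number j goes up for even j -/
def Alt (y : ℕ → ℤ) (m : ℕ) : Prop := ∀ j, j < m → Tight.sg (j + 1) (y j) < Tight.sg (j + 1) (y (j + 1))

/-- the values between a and b are between y a and y b; a is the last one at this extreme -/
structure Seg (y : ℕ → ℤ) (a b : ℕ) : Prop where
  lt : a < b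
  lo : ∀ j, a < j → j ≤ b → Tight.sg (a + 1) (y a) < Tight.sg (a + 1) (y j)
  hi : ∀ j, a ≤ j → j ≤ b → Tight.sg (a + 1) (y j) ≤ Tight.sg (a + 1) (y b)
  par : Even b ↔ ¬ Even a

/-- the range of the segment from a to b -/
def rg (y : ℕ → ℤ) (a b : ℕ) : ℤ := Tight.sg (a + 1) (y b) - Tight.sg (a + 1) (y a)

/-- a sequence of segments from a to b -/
structure Hw (y : ℕ → ℤ) (a b p : ℕ) (i : ℕ → ℕ) : Prop where
  zero : i 0 = a
  last : i p = b
  seg : ∀ q, q < p → Seg y (i q) (i (q + 1))

variable {y : ℕ → ℤ} {m : ℕ}

lemma alt_mono {m' : ℕ} (h : Alt y m) (hm : m' ≤ m) : Alt y m' := fun j hj => h j (by omega)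

/-- the last maximum of sg (a + 1) y on [a, l], a < l -/
lemma last_ext (hA : Alt y m) {a l : ℕ} (hal : a < l) (hl : l ≤ m) : ∃ b, a < b ∧ b ≤ l ∧
    (∀ j, a ≤ j → j ≤ l → Tight.sg (a + 1) (y j) ≤ Tight.sg (a + 1) (y b)) ∧
    (∀ j, b < j → j ≤ l → Tight.sg (a + 1) (y j) < Tight.sg (a + 1) (y b)) ∧ (Even b ↔ ¬ Even a) := by
  obtain ⟨b, b1, b2, b3, b4⟩ := exists_last_max (fun j => Tight.sg (a + 1) (y j)) (a := a) (n := l) (by omega)
  have h1 := hA a (by omega)
  have b5 : a < b := by
    rcases Nat.lt_or_ge a b with h | h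
    · exact h
    · exfalso
      have hb : b = a := by omega
      have := b3 (a + 1) (by omega) (by omega)
      rw [hb] at this
      omega
  refine ⟨b, b5, b2, b3, b4, ?_⟩
  by_contra hc
  have hab : Even b ↔ Even a := by tauto
  obtain ⟨c, rfl⟩ : ∃ c, b = c + 1 := ⟨b - 1, by omega⟩
  have h2 := hA c (by omega)
  have h3 := b3 c (by omega) (by omega)
  rw [sg_par (k := c + 1) (k' := a) hab, sg_par (k := c + 1) (k' := a) hab] at h2
  rw [Tight.sg_succ, Tight.sg_succ] at h3
  omega

/-- THE LEFT PART: from a to l, decreasing ranges -/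
lemma hw_left (hA : Alt y m) {l : ℕ} (hl : l ≤ m) : ∀ d a, a + d = l →
    (∀ j, a < j → j ≤ l → Tight.sg (a + 1) (y a) < Tight.sg (a + 1) (y j)) →
    ∃ (p : ℕ) (i : ℕ → ℕ), Hw y a l p i ∧ (∀ q, q + 1 < p → rg y (i (q + 1)) (i (q + 2)) ≤ rg y (i q) (i (q + 1))) ∧
      ∀ q, q ≤ p → i q ≤ l := by
  intro d
  induction d using Nat.strong_induction_on with
  | _ d ih =>
    intro a had hlo
    rcases Nat.eq_zero_or_pos d with h0 | h0
    · exact ⟨0, fun _ => a, ⟨rfl, by omega, fun q hq => absurd hq (by omega)⟩, fun q hq => absurd hq (by omega),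
        fun q _ => show a ≤ l by omega⟩
    · obtain ⟨b, b1, b2, b3, b4, b5⟩ := last_ext hA (a := a) (l := l) (by omega) hl
      have hpar : Even b ↔ Even (a + 1) := by rw [Nat.even_add_one]; exact b5
      have hs : ∀ x, Tight.sg (b + 1) x = -Tight.sg (a + 1) x := by
        intro x
        rw [Tight.sg_succ, sg_par hpar]
      obtain ⟨p, i, hi, hm, hr⟩ := ih (l - b) (by omega) b (by omega) (by
        intro j j1 j2
        rw [hs, hs]
        have := b4 j j1 j2
        omega)
      refine ⟨p + 1, fun q => if q = 0 then a else i (q - 1), ⟨?_, ?_, ?_⟩, ?_, ?_⟩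
      · simp only [if_true]
      · simp only [if_neg (Nat.succ_ne_zero p), Nat.add_sub_cancel]
        exact hi.last
      · intro q hq
        rcases Nat.eq_zero_or_pos q with hq0 | hq0
        · subst hq0
          simp only [if_true, zero_add, if_neg (one_ne_zero), Nat.sub_self, hi.zero]
          exact ⟨b1, fun j j1 j2 => hlo j j1 (by omega), fun j j1 j2 => b3 j j1 (by omega), b5⟩
        · simp only [if_neg (show q ≠ 0 by omega), if_neg (show q + 1 ≠ 0 by omega), Nat.add_sub_cancel]
          have := hi.seg (q - 1) (by omega)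
          rw [show q - 1 + 1 = q by omega] at this
          exact this
      · intro q hq
        rcases Nat.eq_zero_or_pos q with hq0 | hq0
        · subst hq0
          simp only [if_true, zero_add, if_neg (one_ne_zero), Nat.sub_self, hi.zero, if_neg (show (2 : ℕ) ≠ 0 by omega),
            show 2 - 1 = 1 from rfl]
          have h1 := hi.seg 0 (by omega)
          rw [hi.zero, zero_add] at h1
          have h2 := hr 1 (by omega)
          have h3 := hlo (i 1) (by have := h1.lt; omega) h2
          unfold rg
          rw [hs, hs]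
          omega
        · simp only [if_neg (show q ≠ 0 by omega), if_neg (show q + 1 ≠ 0 by omega), if_neg (show q + 2 ≠ 0 by omega),
            Nat.add_sub_cancel, show q + 2 - 1 = q + 1 by omega]
          have := hm (q - 1) (by omega)
          rw [show q - 1 + 1 = q by omega, show q - 1 + 2 = q + 1 by omega] at this
          exact this
      · intro q hq
        rcases Nat.eq_zero_or_pos q with hq0 | hq0
        · subst hq0
          simp only [if_true]
          omega
        · simp only [if_neg (show q ≠ 0 by omega)]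
          exact hr (q - 1) (by omega)

/-- THE RIGHT PART: from a to b, increasing ranges -/
lemma hw_right (hA : Alt y m) {a : ℕ} : ∀ d b, a + d = b → b ≤ m →
    (∀ j, a ≤ j → j ≤ b → Tight.sg b (y j) ≤ Tight.sg b (y b)) →
    ∃ (p : ℕ) (i : ℕ → ℕ), Hw y a b p i ∧ (∀ q, q + 1 < p → rg y (i q) (i (q + 1)) ≤ rg y (i (q + 1)) (i (q + 2))) ∧
      ∀ q, q ≤ p → a ≤ i q := by
  intro d
  induction d using Nat.strong_induction_on with
  | _ d ih =>
    intro b had hbm hhi
    rcases Nat.eq_zero_or_pos d with h0 | h0
    · exact ⟨0, fun _ => a, ⟨rfl, by omega, fun q hq => absurd hq (by omega)⟩, fun q hq => absurd hq (by omega),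
        fun q _ => le_rfl⟩
    · -- c = the last maximum of - sg b y on [a, b]
      obtain ⟨c, c1, c2, c3, c4⟩ := exists_last_max (fun j => Tight.sg (b + 1) (y j)) (a := a) (n := b) (by omega)
      have hb1 : ∀ x, Tight.sg (b + 1) x = -Tight.sg b x := fun x => Tight.sg_succ _ _
      obtain ⟨b', hb'⟩ : ∃ b', b = b' + 1 := ⟨b - 1, by omega⟩
      have hlast := hA b' (by omega)
      rw [← hb'] at hlast
      have c5 : c < b := by
        rcases Nat.lt_or_ge c b with h | h
        · exact h
        · exfalso
          have hcb : c = b := by omega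
          have := c3 b' (by omega) (by omega)
          rw [hcb, hb1, hb1] at this
          omega
      have c6 : Even c ↔ ¬ Even b := by
        by_contra hc
        have hcb : Even c ↔ Even b := by tauto
        have h2 := hA c (by omega)
        have h3 := c3 (c + 1) (by omega) (by omega)
        have hcb1 : Even (c + 1) ↔ Even (b + 1) := by
          rw [Nat.even_add_one, Nat.even_add_one]
          tauto
        rw [sg_par hcb1, sg_par hcb1] at h2
        omega
      have hs : ∀ x, Tight.sg c x = -Tight.sg b x := by
        intro x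
        rw [← hb1]
        exact sg_par (by rw [Nat.even_add_one]; exact c6) x
      have hs1 : ∀ x, Tight.sg (c + 1) x = Tight.sg b x := by
        intro x
        rw [Tight.sg_succ, hs, neg_neg]
      obtain ⟨p, i, hi, hm, hr⟩ := ih (c - a) (by omega) c (by omega) (by omega) (by
        intro j j1 j2
        have := c3 j j1 (by omega)
        rw [hb1, hb1] at this
        rw [hs, hs]
        exact this)
      have hsegc : Seg y c b := by
        refine ⟨c5, ?_, ?_, by tauto⟩
        · intro j j1 j2
          have := c4 j j1 j2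
          rw [hb1, hb1] at this
          rw [hs1, hs1]
          omega
        · intro j j1 j2
          rw [hs1, hs1]
          exact hhi j (by omega) j2
      refine ⟨p + 1, fun q => if q ≤ p then i q else b, ⟨?_, ?_, ?_⟩, ?_, ?_⟩
      · simp only [if_pos (Nat.zero_le p)]
        exact hi.zero
      · simp only [if_neg (show ¬ p + 1 ≤ p by omega)]
      · intro q hq
        rcases Nat.lt_or_ge q p with hqp | hqp
        · simp only [if_pos (show q ≤ p by omega), if_pos (show q + 1 ≤ p by omega)]
          exact hi.seg q hqp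
        · have : q = p := by omega
          subst this
          simp only [if_pos le_rfl, if_neg (show ¬ q + 1 ≤ q by omega), hi.last]
          exact hsegc
      · intro q hq
        rcases Nat.lt_or_ge (q + 1) p with hqp | hqp
        · simp only [if_pos (show q ≤ p by omega), if_pos (show q + 1 ≤ p by omega), if_pos (show q + 2 ≤ p by omega)]
          exact hm q hqp
        · have hqp' : q + 1 = p := by omega
          simp only [if_pos (show q ≤ p by omega), if_pos (show q + 1 ≤ p by omega), if_neg (show ¬ q + 2 ≤ p by omega)]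
          have hsg := hi.seg q (by omega)
          rw [hqp', hi.last] at hsg ⊢
          have hpar := hsg.par
          have hq1 : ∀ x, Tight.sg (i q + 1) x = -Tight.sg b x := by
            intro x
            rw [← hs]
            exact sg_par (by rw [Nat.even_add_one]; exact hpar.symm) x
          unfold rg
          rw [hq1, hq1, hs1, hs1]
          have h5 := hhi (i q) (hr q (by omega)) (by have := hsg.lt; omega)
          omega
      · intro q hq
        rcases Nat.lt_or_ge p q with hqp | hqp
        · simp only [if_neg (show ¬ q ≤ p by omega)]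
          omega
        · simp only [if_pos hqp]
          exact hr q hqp

/-- parity along a sequence of segments -/
lemma hw_par {a b p : ℕ} {i : ℕ → ℕ} (h : Hw y a b p i) : ∀ q, q ≤ p → (Even (i q) ↔ Even (a + q)) := by
  intro q
  induction q with
  | zero =>
    intro _
    rw [h.zero, add_zero]
  | succ q ih =>
    intro hq
    rw [(h.seg q (by omega)).par, ih (by omega), ← add_assoc, Nat.even_add_one]

lemma hw_mono {a b p : ℕ} {i : ℕ → ℕ} (h : Hw y a b p i) {q q' : ℕ} (hq : q ≤ q') (hq' : q' ≤ p) : i q ≤ i q' := by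
  obtain ⟨d, rfl⟩ := Nat.exists_eq_add_of_le hq
  have : ∀ d', d' ≤ d → i q ≤ i (q + d') := by
    intro d'
    induction d' with
    | zero => intro _; exact le_rfl
    | succ d' ih =>
      intro hd'
      have a1 := ih (by omega)
      have a2 := (h.seg (q + d') (by omega)).lt
      rw [← add_assoc]
      omega
  exact this d le_rfl

/-- THE WHOLE SEQUENCE around the step l -/
theorem hw_all (hA : Alt y m) {l : ℕ} (hl : l < m) (hlo : ∀ j, 0 < j → j ≤ m → y 0 < y j)
    (hhi : ∀ j, j ≤ m → Tight.sg m (y j) ≤ Tight.sg m (y m)) :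
    ∃ (p r : ℕ) (i : ℕ → ℕ), p < r ∧ Hw y 0 m r i ∧ i p = l ∧ i (p + 1) = l + 1 ∧
      (∀ q, q + 1 < p → rg y (i (q + 1)) (i (q + 2)) ≤ rg y (i q) (i (q + 1))) ∧
      (∀ q, p < q → q + 1 < r → rg y (i q) (i (q + 1)) ≤ rg y (i (q + 1)) (i (q + 2))) := by
  obtain ⟨p, i1, h1, m1, r1⟩ := hw_left hA (l := l) (by omega) l 0 (by omega) (by
    intro j j1 j2
    rw [zero_add, Tight.sg_one, Tight.sg_one]
    exact hlo j j1 (by omega))
  obtain ⟨s, i2, h2, m2, r2⟩ := hw_right hA (a := l + 1) (m - (l + 1)) m (by omega) le_rfl (fun j _ j2 => hhi j j2)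
  refine ⟨p, p + 1 + s, fun q => if q ≤ p then i1 q else i2 (q - (p + 1)), by omega, ⟨?_, ?_, ?_⟩, ?_, ?_, ?_, ?_⟩
  · simp only [if_pos (Nat.zero_le p)]
    exact h1.zero
  · simp only [if_neg (show ¬ p + 1 + s ≤ p by omega), show p + 1 + s - (p + 1) = s by omega]
    exact h2.last
  · intro q hq
    rcases Nat.lt_trichotomy q p with hqp | hqp | hqp
    · simp only [if_pos (show q ≤ p by omega), if_pos (show q + 1 ≤ p by omega)]
      exact h1.seg q hqp
    · subst hqp
      simp only [if_pos le_rfl, if_neg (show ¬ q + 1 ≤ q by omega), Nat.sub_self, h1.last, h2.zero]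
      refine ⟨by omega, ?_, ?_, Nat.even_add_one⟩
      · intro j j1 j2
        have : j = l + 1 := by omega
        subst this
        exact hA l hl
      · intro j j1 j2
        rcases Nat.lt_or_ge l j with h | h
        · have : j = l + 1 := by omega
          subst this
          exact le_rfl
        · have : j = l := by omega
          subst this
          exact (hA j hl).le
    · simp only [if_neg (show ¬ q ≤ p by omega), if_neg (show ¬ q + 1 ≤ p by omega)]
      have := h2.seg (q - (p + 1)) (by omega)
      rw [show q - (p + 1) + 1 = q + 1 - (p + 1) by omega] at this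
      exact this
  · simp only [if_pos le_rfl]
    exact h1.last
  · simp only [if_neg (show ¬ p + 1 ≤ p by omega), Nat.sub_self]
    exact h2.zero
  · intro q hq
    simp only [if_pos (show q ≤ p by omega), if_pos (show q + 1 ≤ p by omega), if_pos (show q + 2 ≤ p by omega)]
    exact m1 q hq
  · intro q q1 q2
    simp only [if_neg (show ¬ q ≤ p by omega), if_neg (show ¬ q + 1 ≤ p by omega), if_neg (show ¬ q + 2 ≤ p by omega)]
    have := m2 (q - (p + 1)) (by omega)
    rw [show q - (p + 1) + 1 = q + 1 - (p + 1) by omega, show q - (p + 1) + 2 = q + 2 - (p + 1) by omega] at this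
    exact this

/-- consecutive monotone ⟹ monotone -/
lemma seq_anti {f : ℕ → ℤ} {a b : ℕ} (h : ∀ q, a ≤ q → q + 1 < b → f (q + 1) ≤ f q) {q q' : ℕ} (h1 : a ≤ q) (h2 : q ≤ q')
    (h3 : q' < b) : f q' ≤ f q := by
  obtain ⟨d, rfl⟩ := Nat.exists_eq_add_of_le h2
  have : ∀ d', d' ≤ d → f (q + d') ≤ f q := by
    intro d'
    induction d' with
    | zero => intro _; exact le_rfl
    | succ d' ih =>
      intro hd'
      exact (h (q + d') (by omega) (by omega)).trans (ih (by omega))
  exact this d le_rfl

end NTm

end HexObs
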