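import Pool.Agent.NTQ.Defs
import Pool.Agent.NTQ.GeoA

/-!
NTQ, Q4: the monotone chain through a leaf.
-/

set_option autoImplicit false

namespace HexObs

namespace NTm

open Finset TS SDN SDN.CN SDN.ZZ

open scoped ENNReal

/-- the height of a piece -/
lemma h_hgt {m k : ℕ} {t g : List Bool} {e : ℕ → ℕ} (h : HH t m e) {q : ℕ} (hq : q < m) (hg : g ∈ Brd k)
    (hI : IsH t e q g) : 3 * (k : ℤ) ≤ Tight.sg (q + 1) (lev t (e (q + 1))) - Tight.sg (q + 1) (lev t (e q)) ∧
      Tight.sg (q + 1) (lev t (e (q + 1))) - Tight.sg (q + 1) (lev t (e q)) ≤ 3 * (k : ℤ) + 2 := by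
  have h1 := hI.lv g.length le_rfl
  rw [hI.len, (mem_Brd.1 hg).2.2.2, sg_sub] at h1
  rcases Nat.eq_zero_or_pos q with h0 | h0
  · subst h0
    have e1 : st e 0 = e 0 := by
      rw [h.zero]
      exact if_pos rfl
    rw [e1] at h1
    constructor <;> omega
  · have e1 : st e q = e q + 1 := if_neg (by omega)
    rw [e1] at h1
    have h2 := h.lt q hq
    have h3 := h.lo q hq (e q + 1) (by omega) (by omega)
    have h4 := sg_step (q + 1) t (e q)
    constructor <;> omega

/-- a time between two folds lies in a leaf -/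
lemma find_leaf {E : ℕ → ℕ} {x a : ℕ} : ∀ d, E a < x → x ≤ E (a + d) → ∃ j, a ≤ j ∧ j < a + d ∧ E j < x ∧ x ≤ E (j + 1) := by
  intro d
  induction d with
  | zero =>
    intro h1 h2
    rw [add_zero] at h2
    omega
  | succ d ih =>
    intro h1 h2
    rcases Nat.lt_or_ge (E (a + d)) x with h3 | h3
    · exact ⟨a + d, by omega, by omega, h3, by rw [add_assoc]; exact h2⟩
    · obtain ⟨j, j1, j2, j3, j4⟩ := ih h1 h3
      exact ⟨j, j1, by omega, j3, j4⟩

lemma mono_E {E : ℕ → ℕ} {m : ℕ} (h : ∀ j, j < m → E j < E (j + 1)) {a b : ℕ} (hab : a ≤ b) (hb : b ≤ m) : E a ≤ E b := by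
  obtain ⟨d, rfl⟩ := Nat.exists_eq_add_of_le hab
  have : ∀ d', d' ≤ d → E a ≤ E (a + d') := by
    intro d'
    induction d' with
    | zero => intro _; exact le_rfl
    | succ d' ih =>
      intro hd'
      have a1 := ih (by omega)
      have a2 := h (a + d') (by omega)
      rw [← add_assoc]
      omega
  exact this d le_rfl

/-- levels at the times of a segment -/
lemma seg_times {b m u : ℕ} {t : List Bool} {E : ℕ → ℕ} (h' : Lf false b t m u E) (hu : ¬ Even u) {a c : ℕ}
    (hs : Seg (fun j => lev t (E j)) a c) (hc : c ≤ m) :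
    (∀ x, E a < x → x ≤ E c → Tight.sg (a + 1) (lev t (E a)) < Tight.sg (a + 1) (lev t x)) ∧
    (∀ x, E a ≤ x → x ≤ E c → Tight.sg (a + 1) (lev t x) ≤ Tight.sg (a + 1) (lev t (E c))) ∧
    RR b ≤ Tight.sg (a + 1) (lev t (E c)) - Tight.sg (a + 1) (lev t (E a)) := by
  have hac := hs.lt
  have hpar : ∀ j, Even (u + j) ↔ Even (j + 1) := by
    intro j
    rw [Nat.even_add, Nat.even_add_one]
    tauto
  have lo : ∀ j, j < m → ∀ i, E j < i → i ≤ E (j + 1) → Tight.sg (j + 1) (lev t (E j)) < Tight.sg (j + 1) (lev t i) := by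
    intro j hj i i1 i2
    have := h'.lo j hj i i1 i2
    simp only [lvl_false] at this
    rw [sg_par (hpar j), sg_par (hpar j)] at this
    exact this
  have hi : ∀ j, j < m → ∀ i, E j ≤ i → i ≤ E (j + 1) → Tight.sg (j + 1) (lev t i) ≤ Tight.sg (j + 1) (lev t (E (j + 1))) := by
    intro j hj i i1 i2
    have := h'.hi j hj i i1 i2
    simp only [lvl_false] at this
    rw [sg_par (hpar j), sg_par (hpar j)] at this
    exact this
  have key : ∀ x, E a < x → x ≤ E c → Tight.sg (a + 1) (lev t (E a)) < Tight.sg (a + 1) (lev t x) ∧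
      Tight.sg (a + 1) (lev t x) ≤ Tight.sg (a + 1) (lev t (E c)) := by
    intro x x1 x2
    obtain ⟨j, j1, j2, j3, j4⟩ := find_leaf (c - a) x1 (by rw [show a + (c - a) = c by omega]; exact x2)
    have l1 := lo j (by omega) x j3 j4
    have l2 := hi j (by omega) x j3.le j4
    have s1 := hs.hi j j1 (by omega)
    have s2 := hs.hi (j + 1) (by omega) (by omega)
    have s3 := hs.lo (j + 1) (by omega) (by omega)
    have s4 : Tight.sg (a + 1) (lev t (E a)) ≤ Tight.sg (a + 1) (lev t (E j)) := by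
      rcases Nat.eq_or_lt_of_le j1 with h | h
      · rw [h]
      · exact (hs.lo j h (by omega)).le
    by_cases hp : Even (j + 1) ↔ Even (a + 1)
    · rw [sg_par hp, sg_par hp] at l1 l2
      constructor <;> omega
    · have hneg : ∀ z, Tight.sg (j + 1) z = -Tight.sg (a + 1) z := by
        intro z
        rw [← Tight.sg_succ]
        exact sg_par (by rw [Nat.even_add_one (n := a + 1)]; tauto) z
      rw [hneg, hneg] at l1 l2
      constructor <;> omega
  refine ⟨fun x x1 x2 => (key x x1 x2).1, ?_, ?_⟩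
  · intro x x1 x2
    rcases Nat.eq_or_lt_of_le x1 with h | h
    · rw [← h]
      exact hs.hi a le_rfl (by omega)
    · exact (key x h x2).2
  · have b1 := h'.big a (by omega)
    rw [sg_par (hpar a), sg_par (hpar a)] at b1
    simp only [lvl_false] at b1
    have b2 := hs.hi (a + 1) (by omega) (by omega)
    omega

/-- Q4 -/
theorem geo_mono {kc J : ℕ} {t : List Bool} {m u : ℕ} {e : ℕ → ℕ} (ht : t ∈ BL (kc + J)) (h : Lf false (kc + 5) t m u e)
    {l : ℕ} (hl : l < m) : ∃ (ls rs : List (List Bool)) (g : List Bool), unf (ls ++ g :: rs) = t ∧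
      (ls ++ g :: rs).IsChain LFold ∧ (∀ x ∈ ls ++ g :: rs, x ∈ BrR (2 ^ (kc + 4)) (2 ^ (kc + J))) ∧ IsLf t m e l g ∧
      (ls.map hgt).Pairwise (· ≥ ·) ∧ (rs.map hgt).Pairwise (· ≤ ·) := by
  obtain ⟨hBU, hWL⟩ := ht
  obtain ⟨T, hT⟩ : ∃ T, t ∈ Brd T := by
    simpa [BU] using hBU
  obtain ⟨hu, hm2, h'⟩ := bridge_lf hT (by omega) h (by omega)
  obtain ⟨E, hE⟩ : ∃ E, E = ee m t.length e := ⟨_, rfl⟩
  rw [← hE] at h'
  have hR := RR_ge (b := kc + 5) (by omega)
  have hpow : (2 : ℤ) ^ (kc + 5) = 2 * 2 ^ (kc + 4) := by ring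
  have hpow1 : (1 : ℤ) ≤ 2 ^ (kc + 4) := by
    have : (1 : ℕ) ≤ 2 ^ (kc + 4) := Nat.one_le_two_pow
    exact_mod_cast this
  have E0 : E 0 = 0 := by
    rw [hE]
    exact if_pos rfl
  have Em : E m = t.length := by
    rw [hE]
    unfold ee
    rw [if_neg (by omega), if_pos rfl]
  have hlt : ∀ j, j < m → E j < E (j + 1) := h'.lt
  have hEle : ∀ j, j ≤ m → E j ≤ t.length := fun j hj => by
    rw [← Em]
    exact mono_E hlt hj le_rfl
  have hpar : ∀ j, Even (u + j) ↔ Even (j + 1) := by
    intro j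
    rw [Nat.even_add, Nat.even_add_one]
    tauto
  obtain ⟨y, hy⟩ : ∃ y : ℕ → ℤ, y = fun j => lev t (E j) := ⟨_, rfl⟩
  have hy' : ∀ j, y j = lev t (E j) := fun j => by rw [hy]
  have hA : Alt y m := by
    intro j hj
    have := h'.big j hj
    rw [sg_par (hpar j), sg_par (hpar j)] at this
    simp only [lvl_false] at this
    rw [hy', hy']
    have : (0 : ℤ) < RR (kc + 5) := by
      unfold RR
      omega
    omega
  have hpos : ∀ j, 0 < j → j ≤ m → y 0 < y j := by
    intro j j1 j2
    rw [hy', hy', E0, lev_zero]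
    have h1 : E 0 < E j := by
      have h2 := hlt 0 (by omega)
      have h3 := mono_E hlt (a := 0 + 1) (b := j) (by omega) j2
      omega
    rw [E0] at h1
    exact (lev_range hT (hEle j j2)).2.2 (by omega)
  have htop : ∀ j, j ≤ m → Tight.sg m (y j) ≤ Tight.sg m (y m) := by
    intro j j1
    rw [Tight.sg_odd hm2, Tight.sg_odd hm2, hy', hy', Em, (mem_Brd.1 hT).2.2.2]
    exact (lev_range hT (hEle j j1)).2.1
  obtain ⟨p, r, i, hpr, hw, ip, ip1, mL, mR⟩ := hw_all hA hl hpos htop
  have hipar : ∀ q, q ≤ r → (Even (i q) ↔ Even q) := by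
    intro q hq
    have := hw_par hw q hq
    rw [zero_add] at this
    exact this
  have hir : ∀ q, q ≤ r → i q ≤ m := by
    intro q hq
    rw [← hw.last]
    exact hw_mono hw hq le_rfl
  have hsg : ∀ q, q ≤ r → ∀ x, Tight.sg (i q + 1) x = Tight.sg (q + 1) x := by
    intro q hq x
    exact sg_par (by rw [Nat.even_add_one, Nat.even_add_one, hipar q hq]) x
  -- the segments
  have hseg : ∀ q, q < r → (∀ x, E (i q) < x → x ≤ E (i (q + 1)) →
      Tight.sg (q + 1) (lev t (E (i q))) < Tight.sg (q + 1) (lev t x)) ∧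
      (∀ x, E (i q) ≤ x → x ≤ E (i (q + 1)) → Tight.sg (q + 1) (lev t x) ≤ Tight.sg (q + 1) (lev t (E (i (q + 1))))) ∧
      RR (kc + 5) ≤ Tight.sg (q + 1) (lev t (E (i (q + 1)))) - Tight.sg (q + 1) (lev t (E (i q))) := by
    intro q hq
    have h1 := hw.seg q hq
    rw [hy] at h1
    have h2 := seg_times h' hu h1 (hir (q + 1) (by omega))
    simp only [hsg q (by omega)] at h2
    exact h2
  have hHH : HH t r (fun q => E (i q)) := by
    refine ⟨?_, ?_, ?_, ?_, ?_, ?_⟩
    · show E (i 0) = 0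
      rw [hw.zero, E0]
    · show E (i r) = t.length
      rw [hw.last, Em]
    · intro q hq
      have h1 := (hw.seg q hq).lt
      have h2 := hlt (i q) (by have := hir (q + 1) (by omega); omega)
      have h3 := mono_E hlt (a := i q + 1) (b := i (q + 1)) (by omega) (hir (q + 1) (by omega))
      show E (i q) < E (i (q + 1))
      omega
    · intro q hq x x1 x2
      exact (hseg q hq).1 x x1 x2
    · intro q hq x x1 x2
      exact (hseg q hq).2.1 x x1 x2
    · intro q hq
      have h1 := (hseg q hq).2.2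
      unfold RR at h1
      show 4 ≤ Tight.sg (q + 1) (lev t (E (i (q + 1)))) - Tight.sg (q + 1) (lev t (E (i q)))
      have : (2 : ℤ) ^ (kc + 4) ≥ 1 := hpow1
      omega
  obtain ⟨gs, g1, g2, g3, g4, g5⟩ := rep_gen hT hHH (by omega)
  -- the heights
  have hh : ∀ (q : ℕ) (hq : q < gs.length), ∃ k : ℕ, gs[q] ∈ Brd k ∧ hgt gs[q] = k ∧
      3 * (k : ℤ) ≤ Tight.sg (q + 1) (lev t (E (i (q + 1)))) - Tight.sg (q + 1) (lev t (E (i q))) ∧
      Tight.sg (q + 1) (lev t (E (i (q + 1)))) - Tight.sg (q + 1) (lev t (E (i q))) ≤ 3 * (k : ℤ) + 2 := by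
    intro q hq
    obtain ⟨k, -, hk⟩ := g4 gs[q] (List.getElem_mem hq)
    exact ⟨k, hk, hgt_eq hk, h_hgt hHH (by omega) hk (g5 q hq)⟩
  have hrg : ∀ q, q < r → rg y (i q) (i (q + 1)) =
      Tight.sg (q + 1) (lev t (E (i (q + 1)))) - Tight.sg (q + 1) (lev t (E (i q))) := by
    intro q hq
    unfold rg
    rw [hsg q (by omega), hsg q (by omega), hy', hy']
  have hpg : p < gs.length := by omega
  have hsplit : gs = gs.take p ++ gs[p] :: gs.drop (p + 1) := by
    rw [← List.drop_eq_getElem_cons hpg, List.take_append_drop]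
  refine ⟨gs.take p, gs.drop (p + 1), gs[p], ?_, ?_, ?_, ?_, ?_, ?_⟩
  · rw [← hsplit]
    exact g2
  · rw [← hsplit]
    exact g3
  · intro x hx
    rw [← hsplit] at hx
    obtain ⟨q, hq, rfl⟩ := List.getElem_of_mem hx
    obtain ⟨k, k1, k2, k3, k4⟩ := hh q hq
    have h1 := (hseg q (by omega)).2.2
    have h2 := row_top hT hWL
    have h3 := (lev_range hT (hEle (i q) (hir q (by omega))))
    have h4 := (lev_range hT (hEle (i (q + 1)) (hir (q + 1) (by omega))))
    have h5 : Tight.sg (q + 1) (lev t (E (i (q + 1)))) - Tight.sg (q + 1) (lev t (E (i q))) ≤ 3 * (T : ℤ) := by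
      unfold Tight.sg
      split_ifs <;> omega
    refine ⟨k, ?_, by omega, k1⟩
    have h6 : ((2 ^ (kc + 4) : ℕ) : ℤ) ≤ (k : ℤ) := by
      push_cast
      unfold RR at h1
      omega
    exact_mod_cast h6
  · -- the leaf
    have hI := g5 p hpg
    have e1 : st (fun q => E (i q)) p = st e l := by
      unfold st
      rcases Nat.eq_zero_or_pos p with hp0 | hp0
      · have hl0 : l = 0 := by rw [← ip, hp0, hw.zero]
        rw [if_pos hp0, if_pos hl0]
      · have hl0 : 0 < l := by
          have h1 := (hw.seg 0 (by omega)).lt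
          have h2 := hw_mono hw (q := 0 + 1) (q' := p) (by omega) (by omega)
          omega
        rw [if_neg (by omega), if_neg (by omega)]
        show E (i p) + 1 = e l + 1
        rw [ip, hE]
        unfold ee
        rw [if_neg (by omega), if_neg (by omega)]
    refine ⟨?_, ?_⟩
    · have h1 := hI.len
      rw [e1] at h1
      rw [h1]
      show E (i (p + 1)) = _
      rw [ip1, hE]
    · intro x hx
      have h1 := hI.lv x hx
      rw [e1] at h1
      rw [h1]
      exact sg_par (by rw [Nat.even_add_one, Nat.even_add_one, ← ip, hipar p (by omega)]) _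
  · rw [List.pairwise_map, List.pairwise_iff_getElem]
    intro q q' hq hq' hqq
    rw [List.length_take] at hq hq'
    rw [List.getElem_take, List.getElem_take]
    obtain ⟨k, k1, k2, k3, k4⟩ := hh q (by omega)
    obtain ⟨k', k1', k2', k3', k4'⟩ := hh q' (by omega)
    rw [k2, k2']
    have h1 := seq_anti (f := fun q => rg y (i q) (i (q + 1))) (a := 0) (b := p) (fun q _ hq => mL q hq) (Nat.zero_le q)
      hqq.le (by omega)
    rw [hrg q (by omega), hrg q' (by omega)] at h1
    show k' ≤ k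
    omega
  · rw [List.pairwise_map, List.pairwise_iff_getElem]
    intro q q' hq hq' hqq
    rw [List.length_drop] at hq hq'
    rw [List.getElem_drop, List.getElem_drop]
    obtain ⟨k, k1, k2, k3, k4⟩ := hh (p + 1 + q) (by omega)
    obtain ⟨k', k1', k2', k3', k4'⟩ := hh (p + 1 + q') (by omega)
    rw [k2, k2']
    have h1 := seq_anti (f := fun q => -rg y (i q) (i (q + 1))) (a := p + 1) (b := r) (fun q h1 h2 => by
      exact neg_le_neg (mR q (by omega) h2)) (q := p + 1 + q) (q' := p + 1 + q') (by omega) (by omega) (by omega)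
    rw [hrg _ (by omega), hrg _ (by omega)] at h1
    show k ≤ k'
    omega

end NTm

end HexObs
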