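import Pool.Agent.NTQ.Defs
import Pool.Agent.SDN.CleanChain

/-!
NTQ, Q3: the mass of the words of the monotone chains.
-/

set_option autoImplicit false

namespace HexObs

namespace NTm

open Finset TS SDN SDN.CN

open scoped ENNReal

lemma tsum_list1 (f : List (List Bool) → ℝ≥0∞) :
    ∑' gs : List (List Bool), f gs ≤ f [] + ∑' g : List Bool, ∑' gs : List (List Bool), f (g :: gs) := by
  classical
  have h1 : ∀ gs : List (List Bool), f gs = (if gs = [] then f [] else 0) + (if gs = [] then 0 else f gs) := by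
    intro gs
    split_ifs with h
    · rw [h, add_zero]
    · rw [zero_add]
  rw [tsum_congr h1, ENNReal.tsum_add]
  refine add_le_add (le_of_eq (tsum_ite_eq [] (fun _ => f []))) ?_
  refine (CCh.tsum_list _ (if_pos rfl)).trans (le_of_eq (tsum_congr fun g => tsum_congr fun gs => if_neg ?_))
  simp

/-- sums over the chains by the first piece -/
lemma sum_cons (s : Finset ℕ) (A : ℕ → Set (List Bool)) (F : ℕ → List Bool → ℝ≥0∞) (c : List (List Bool) → Prop)
    (c' : ℕ → List Bool → List (List Bool) → Prop) [∀ gs, Decidable (c gs)] [∀ i g gs, Decidable (c' i g gs)] (h : ∀ g gs, c (g :: gs) → ∃ i ∈ s, g ∈ A i ∧ c' i g gs)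
    (hF : ∀ i ∈ s, ∀ g ∈ A i, (∑' gs : List (List Bool), if c' i g gs then SDN.wl gs else 0) ≤ F i g) :
    ∑' g : List Bool, ∑' gs : List (List Bool), (if c (g :: gs) then SDN.wl (g :: gs) else 0) ≤
      ∑ i ∈ s, Rec8.sw (A i) (F i) := by
  classical
  have h1 : ∑ i ∈ s, Rec8.sw (A i) (F i) = ∑' g : List Bool, ∑ i ∈ s, (if g ∈ A i then wE g * F i g else 0) := by
    rw [Summable.tsum_finsetSum (fun _ _ => ENNReal.summable)]
    exact Finset.sum_congr rfl fun i _ => Rec8.sw_ind _ _
  rw [h1]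
  refine ENNReal.tsum_le_tsum fun g => ?_
  have h2 : ∑' gs : List (List Bool), (if c (g :: gs) then SDN.wl (g :: gs) else 0) ≤
      ∑' gs : List (List Bool), ∑ i ∈ s, (if g ∈ A i then wE g * (if c' i g gs then SDN.wl gs else 0) else 0) := by
    refine ENNReal.tsum_le_tsum fun gs => ?_
    by_cases hc : c (g :: gs)
    · rw [if_pos hc]
      obtain ⟨i, hi, hg, hc'⟩ := h g gs hc
      refine le_trans ?_ (Finset.single_le_sum (f := fun i => (if g ∈ A i then wE g * (if c' i g gs then SDN.wl gs else 0)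
        else 0)) (fun _ _ => zero_le) hi)
      simp only [if_pos hg, if_pos hc', wl_cons, le_refl]
    · rw [if_neg hc]
      exact zero_le
  refine h2.trans ?_
  rw [Summable.tsum_finsetSum (fun _ _ => ENNReal.summable)]
  refine Finset.sum_le_sum fun i hi => ?_
  by_cases hg : g ∈ A i
  · simp only [if_pos hg]
    rw [ENNReal.tsum_mul_left]
    exact mul_le_mul_right (hF i hi g hg) _
  · simp only [if_neg hg, tsum_zero, le_refl]

lemma one_le_FR (W : ℕ → Set (List Bool)) (kp : ℕ → ℕ) (n M i : ℕ) (t : List Bool) : 1 ≤ FR W kp n M i t := by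
  cases M with
  | zero => exact le_rfl
  | succ M => exact le_self_add

open Classical in
/-- right chains behind the leaf g -/
lemma TR_le {kc J n : ℕ} {W : ℕ → Set (List Bool)} {kp : ℕ → ℕ} (hW : Wnd kc J n W kp) (M : ℕ) :
    ∀ (i : ℕ) (g : List Bool), g ∈ HB (2 ^ (kp i + 4)) →
    (∑' gs : List (List Bool), if gs.length ≤ M ∧ (g :: gs).IsChain LFold ∧ IncR W n i gs then SDN.wl gs else 0) ≤
      FR W kp n M i g := by
  induction M with
  | zero =>
    intro i g _
    rw [tsum_eq_single []]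
    · split_ifs
      · rw [wl_nil]
        exact le_rfl
      · exact zero_le
    · intro gs hgs
      rw [if_neg]
      rintro ⟨h, -⟩
      exact hgs (List.length_eq_zero_iff.1 (by omega))
  | succ M ih =>
    intro i g hg
    refine (tsum_list1 _).trans (add_le_add ?_ ?_)
    · split_ifs
      · rw [wl_nil]
      · exact zero_le
    · refine sum_cons (Ico i n) (fun i' => {g' | g' ∈ W i' ∧ RT (2 ^ (kp i + 4)) LFold g g'}) (fun i' => FR W kp n M i')
        (fun gs => gs.length ≤ M + 1 ∧ (g :: gs).IsChain LFold ∧ IncR W n i gs)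
        (fun i' g' gs => gs.length ≤ M ∧ (g' :: gs).IsChain LFold ∧ IncR W n i' gs) ?_ ?_
      · rintro g' gs ⟨h1, h2, i', h3, h4, h5, h6⟩
        rw [List.isChain_cons_cons] at h2
        rw [List.length_cons] at h1
        exact ⟨i', Finset.mem_Ico.2 ⟨h3, h4⟩, ⟨h5, RT_of hg h2.1⟩, by omega, h2.2, h6⟩
      · rintro i' hi' g' ⟨h5, -⟩
        obtain ⟨h, a1, a2, a3⟩ := hW.sub i' (Finset.mem_Ico.1 hi').2 h5
        exact ih i' g' ⟨h, a1, a3⟩

open Classical in
/-- left chains, the leaf in S and right chains behind the leaf g -/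
lemma TL_le {kc J n : ℕ} {W : ℕ → Set (List Bool)} {kp : ℕ → ℕ} (hW : Wnd kc J n W kp) {S : Set (List Bool)}
    (hS : S ⊆ HB (2 ^ (kc + 4))) (M M' : ℕ) :
    ∀ (i : ℕ) (g : List Bool), i < n → g ∈ HB (2 ^ (kp i + 4)) →
    (∑' gs : List (List Bool), if gs.length ≤ M' + 1 ∧ (g :: gs).IsChain LFold ∧ DecL W n M S (i + 1) gs then SDN.wl gs else 0) ≤
      FL W kp (vA (2 ^ (kc + 4)) S (FR W kp n M 0)) M' i g := by
  have hmono : ∀ (i i' : ℕ) (g : List Bool), i' ≤ i → g ∈ HB (2 ^ (kp i + 4)) → g ∈ HB (2 ^ (kp i' + 4)) := by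
    rintro i i' g hi ⟨h, a1, a2⟩
    exact ⟨h, (Nat.pow_le_pow_right (by norm_num) (Nat.add_le_add_right (hW.mono i' i hi) 4)).trans a1, a2⟩
  have hR : ∀ g ∈ S, (∑' gs : List (List Bool), if gs.length ≤ M ∧ (g :: gs).IsChain LFold ∧ IncR W n 0 gs then SDN.wl gs
      else 0) ≤ FR W kp n M 0 g := by
    intro g hg
    apply TR_le hW M 0 g
    rw [hW.zero]
    exact hS hg
  induction M' with
  | zero =>
    intro i g hi hg
    have hg0 : g ∈ HB (2 ^ (kc + 4)) := by
      have := hmono i 0 g (Nat.zero_le i) hg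
      rwa [hW.zero] at this
    refine (CCh.tsum_list _ ?_).trans ?_
    · rw [if_neg]
      rintro ⟨-, -, h⟩
      exact h
    · refine (sum_cons (range 1) (fun _ => {g' | g' ∈ S ∧ RT (2 ^ (kc + 4)) LFold g g'}) (fun _ => FR W kp n M 0)
        (fun gs => gs.length ≤ 0 + 1 ∧ (g :: gs).IsChain LFold ∧ DecL W n M S (i + 1) gs)
        (fun _ g' gs => gs.length ≤ M ∧ (g' :: gs).IsChain LFold ∧ IncR W n 0 gs) ?_ ?_).trans ?_
      · rintro g' gs ⟨h1, h2, h3⟩
        rw [List.isChain_cons_cons] at h2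
        rw [List.length_cons] at h1
        have h0 : gs = [] := List.length_eq_zero_iff.1 (by omega)
        rcases h3 with ⟨h4, h5, h6⟩ | ⟨i', h4, h5, h6⟩
        · exact ⟨0, Finset.mem_range.2 (by omega), ⟨h4, RT_of hg0 h2.1⟩, h5, h2.2, h6⟩
        · rw [h0] at h6
          exact h6.elim
      · rintro _ _ g' ⟨h5, -⟩
        exact hR g' h5
      · rw [Finset.sum_range_one]
        exact le_rfl
  | succ M' ih =>
    intro i g hi hg
    have hg0 : g ∈ HB (2 ^ (kc + 4)) := by
      have := hmono i 0 g (Nat.zero_le i) hg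
      rwa [hW.zero] at this
    refine (CCh.tsum_list _ ?_).trans ?_
    · rw [if_neg]
      rintro ⟨-, -, h⟩
      exact h
    · refine (sum_cons (range (i + 1 + 1)) (fun j => if j = 0 then {g' | g' ∈ S ∧ RT (2 ^ (kc + 4)) LFold g g'} else
          {g' | g' ∈ W (j - 1) ∧ RT (2 ^ (kp (j - 1) + 4)) LFold g g'})
        (fun j => if j = 0 then FR W kp n M 0 else FL W kp (vA (2 ^ (kc + 4)) S (FR W kp n M 0)) M' (j - 1))
        (fun gs => gs.length ≤ M' + 1 + 1 ∧ (g :: gs).IsChain LFold ∧ DecL W n M S (i + 1) gs)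
        (fun j g' gs => if j = 0 then gs.length ≤ M ∧ (g' :: gs).IsChain LFold ∧ IncR W n 0 gs else
          gs.length ≤ M' + 1 ∧ (g' :: gs).IsChain LFold ∧ DecL W n M S (j - 1 + 1) gs) ?_ ?_).trans ?_
      · rintro g' gs ⟨h1, h2, h3⟩
        rw [List.isChain_cons_cons] at h2
        rw [List.length_cons] at h1
        rcases h3 with ⟨h4, h5, h6⟩ | ⟨i', h4, h5, h6⟩
        · refine ⟨0, Finset.mem_range.2 (by omega), ?_, ?_⟩
          · rw [if_pos rfl]
            exact ⟨h4, RT_of hg0 h2.1⟩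
          · rw [if_pos rfl]
            exact ⟨h5, h2.2, h6⟩
        · refine ⟨i' + 1, Finset.mem_range.2 (by omega), ?_, ?_⟩
          · rw [if_neg (by omega), Nat.add_sub_cancel]
            exact ⟨h5, RT_of (hmono i i' g (by omega) hg) h2.1⟩
          · rw [if_neg (by omega), Nat.add_sub_cancel]
            exact ⟨by omega, h2.2, h6⟩
      · rintro j hj g' h5
        rcases Nat.eq_zero_or_pos j with h0 | h0
        · rw [if_pos h0] at h5 ⊢
          simp only [if_pos h0]
          exact hR g' h5.1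
        · rw [if_neg (by omega)] at h5 ⊢
          simp only [if_neg (show j ≠ 0 by omega)]
          have hjn : j - 1 < n := by
            have := Finset.mem_range.1 hj
            omega
          obtain ⟨h, a1, a2, a3⟩ := hW.sub (j - 1) hjn h5.1
          exact ih (j - 1) g' hjn ⟨h, a1, a3⟩
      · rw [Finset.sum_range_succ', if_pos rfl, if_pos rfl, add_comm]
        refine add_le_add le_rfl (le_of_eq (Finset.sum_congr rfl fun j _ => ?_))
        rw [if_neg (Nat.succ_ne_zero j), if_neg (Nat.succ_ne_zero j), Nat.add_sub_cancel]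
        rfl

lemma incR_mem {W : ℕ → Set (List Bool)} {n : ℕ} : ∀ (gs : List (List Bool)) (i : ℕ), IncR W n i gs →
    ∀ g ∈ gs, ∃ i', i' < n ∧ g ∈ W i' := by
  intro gs
  induction gs with
  | nil => intro i _ g hg; simp at hg
  | cons a gs ih =>
    rintro i ⟨i', h1, h2, h3, h4⟩ g hg
    rw [List.mem_cons] at hg
    rcases hg with rfl | hg
    · exact ⟨i', h2, h3⟩
    · exact ih i' h4 g hg

lemma decL_mem {W : ℕ → Set (List Bool)} {n M : ℕ} {S : Set (List Bool)} : ∀ (gs : List (List Bool)) (i : ℕ), i ≤ n →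
    DecL W n M S i gs → ∀ g ∈ gs, g ∈ S ∨ ∃ i', i' < n ∧ g ∈ W i' := by
  intro gs
  induction gs with
  | nil => intro i _ _ g hg; simp at hg
  | cons a gs ih =>
    rintro i hi (⟨h1, h2, h3⟩ | ⟨i', h1, h2, h3⟩) g hg
    · rw [List.mem_cons] at hg
      rcases hg with rfl | hg
      · exact Or.inl h1
      · exact Or.inr (incR_mem gs 0 h3 g hg)
    · rw [List.mem_cons] at hg
      rcases hg with rfl | hg
      · exact Or.inr ⟨i', by omega, h2⟩
      · exact ih (i' + 1) (by omega) h3 g hg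

/-- Q3 -/
theorem chain_mass {kc J n : ℕ} {W : ℕ → Set (List Bool)} {kp : ℕ → ℕ} (hW : Wnd kc J n W kp) {S : Set (List Bool)}
    (hS : S ⊆ HB (2 ^ (kc + 4))) (M : ℕ) :
    gf {t | ∃ us : List (List Bool), us.length ≤ M ∧ unf us = t ∧ us.IsChain LFold ∧ DecL W n M S n us} ≤
      Rec8.sw S (FR W kp n M 0) + ∑ i ∈ range n, Rec8.sw (W i) (FL W kp (vA (2 ^ (kc + 4)) S (FR W kp n M 0)) M i) := by
  classical
  have h1 : gf {t | ∃ us : List (List Bool), us.length ≤ M ∧ unf us = t ∧ us.IsChain LFold ∧ DecL W n M S n us} ≤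
      ∑' gs : List (List Bool), (if gs.length ≤ M ∧ gs.IsChain LFold ∧ DecL W n M S n gs then SDN.wl gs else 0) := by
    rw [← Rec8.sw_one]
    refine Rec8.sw_cover _ _ _ (fun gs : List (List Bool) => unf gs) ?_
    rintro t ⟨gs, a1, a2, a3, a4⟩
    refine ⟨gs, a2, ?_⟩
    rw [if_pos ⟨a1, a3, a4⟩, mul_one, ← a2]
    refine wE_unf (fun g hg => ?_) ?_
    · rcases decL_mem gs n le_rfl a4 g hg with h | ⟨i', h2, h3⟩
      · obtain ⟨h, b1, b2⟩ := hS h
        exact Brd_ne_nil b2 (by have := Nat.one_le_two_pow (n := kc + 4); omega)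
      · obtain ⟨h, b1, b2, b3⟩ := hW.sub i' h2 h3
        exact Brd_ne_nil b3 (by have := Nat.one_le_two_pow (n := kp i' + 4); omega)
    · rintro rfl
      exact a4
  refine h1.trans ((CCh.tsum_list _ ?_).trans ?_)
  · rw [if_neg]
    rintro ⟨-, -, h⟩
    exact h
  · refine (sum_cons (range (n + 1)) (fun j => if j = 0 then S else W (j - 1))
      (fun j => if j = 0 then FR W kp n M 0 else FL W kp (vA (2 ^ (kc + 4)) S (FR W kp n M 0)) M (j - 1))
      (fun gs => gs.length ≤ M ∧ gs.IsChain LFold ∧ DecL W n M S n gs)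
      (fun j g' gs => if j = 0 then gs.length ≤ M ∧ (g' :: gs).IsChain LFold ∧ IncR W n 0 gs else
        gs.length ≤ M + 1 ∧ (g' :: gs).IsChain LFold ∧ DecL W n M S (j - 1 + 1) gs) ?_ ?_).trans ?_
    · rintro g' gs ⟨h1, h2, h3⟩
      rw [List.length_cons] at h1
      rcases h3 with ⟨h4, h5, h6⟩ | ⟨i', h4, h5, h6⟩
      · refine ⟨0, Finset.mem_range.2 (by omega), ?_, ?_⟩
        · rw [if_pos rfl]
          exact h4
        · rw [if_pos rfl]
          exact ⟨h5, h2, h6⟩
      · refine ⟨i' + 1, Finset.mem_range.2 (by omega), ?_, ?_⟩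
        · rw [if_neg (by omega), Nat.add_sub_cancel]
          exact h5
        · rw [if_neg (by omega), Nat.add_sub_cancel]
          exact ⟨by omega, h2, h6⟩
    · rintro j hj g' h5
      rcases Nat.eq_zero_or_pos j with h0 | h0
      · rw [if_pos h0] at h5 ⊢
        simp only [if_pos h0]
        apply TR_le hW M 0 g'
        rw [hW.zero]
        exact hS h5
      · rw [if_neg (by omega)] at h5 ⊢
        simp only [if_neg (show j ≠ 0 by omega)]
        have hjn : j - 1 < n := by
          have := Finset.mem_range.1 hj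
          omega
        obtain ⟨h, a1, a2, a3⟩ := hW.sub (j - 1) hjn h5
        exact TL_le hW hS M M (j - 1) g' hjn ⟨h, a1, a3⟩
    · rw [Finset.sum_range_succ', if_pos rfl, if_pos rfl, add_comm]
      refine add_le_add le_rfl (le_of_eq (Finset.sum_congr rfl fun j _ => ?_))
      rw [if_neg (Nat.succ_ne_zero j), if_neg (Nat.succ_ne_zero j), Nat.add_sub_cancel]

end NTm

end HexObs
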