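import Pool.Agent.NTQ.WinF
import Pool.Agent.NTQ.Sum
import Pool.Agent.NTQ.Fun
import Pool.Agent.NTQ.Geo

/-!
NTQ: the mass of the bridges of the box with a leaf in a class of small norm, exponential constant.
-/

set_option autoImplicit false

namespace HexObs

namespace NTm

open Finset TS SDN SDN.CN

open scoped ENNReal

section

variable {kc J n M : ℕ} {W : ℕ → Set (List Bool)} {idx : ℕ → ℕ} {S : Set (List Bool)}

lemma inc_of (hidx : ∀ h h' : ℕ, h ≤ h' → idx h ≤ idx h')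
    (hmem : ∀ (g : List Bool) (h : ℕ), g ∈ Brd h → 2 ^ (kc + 4) ≤ h → h ≤ 2 ^ (kc + J) → idx h < n ∧ g ∈ W (idx h)) :
    ∀ (rs : List (List Bool)) (i : ℕ), (∀ x ∈ rs, x ∈ BrR (2 ^ (kc + 4)) (2 ^ (kc + J))) → (rs.map hgt).Pairwise (· ≤ ·) →
      (∀ x ∈ rs, i ≤ idx (hgt x)) → IncR W n i rs := by
  intro rs
  induction rs with
  | nil => intro i _ _ _; trivial
  | cons x rs ih =>
    intro i h1 h2 h3
    rw [List.map_cons, List.pairwise_cons] at h2
    obtain ⟨h, a1, a2, a3⟩ := h1 x List.mem_cons_self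
    obtain ⟨b1, b2⟩ := hmem x h a3 a1 a2
    rw [← hgt_eq a3] at b1 b2
    refine ⟨idx (hgt x), h3 x List.mem_cons_self, b1, b2, ih _ (fun y hy => h1 y (List.mem_cons_of_mem _ hy)) h2.2 ?_⟩
    intro y hy
    exact hidx _ _ (h2.1 (hgt y) (List.mem_map_of_mem hy))

lemma dec_of (hidx : ∀ h h' : ℕ, h ≤ h' → idx h ≤ idx h')
    (hmem : ∀ (g : List Bool) (h : ℕ), g ∈ Brd h → 2 ^ (kc + 4) ≤ h → h ≤ 2 ^ (kc + J) → idx h < n ∧ g ∈ W (idx h))
    {g : List Bool} {rs : List (List Bool)} (hg : g ∈ S) (hM : rs.length ≤ M) (hrs : IncR W n 0 rs) :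
    ∀ (ls : List (List Bool)) (i : ℕ), (∀ x ∈ ls, x ∈ BrR (2 ^ (kc + 4)) (2 ^ (kc + J))) → (ls.map hgt).Pairwise (· ≥ ·) →
      (∀ x ∈ ls, idx (hgt x) < i) → DecL W n M S i (ls ++ g :: rs) := by
  intro ls
  induction ls with
  | nil =>
    intro i _ _ _
    exact Or.inl ⟨hg, hM, hrs⟩
  | cons x ls ih =>
    intro i h1 h2 h3
    rw [List.map_cons, List.pairwise_cons] at h2
    obtain ⟨h, a1, a2, a3⟩ := h1 x List.mem_cons_self
    obtain ⟨b1, b2⟩ := hmem x h a3 a1 a2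
    rw [← hgt_eq a3] at b1 b2
    right
    refine ⟨idx (hgt x), h3 x List.mem_cons_self, b2, ih _ (fun y hy => h1 y (List.mem_cons_of_mem _ hy)) h2.2 ?_⟩
    intro y hy
    exact Nat.lt_succ_of_le (hidx _ _ (h2.1 (hgt y) (List.mem_map_of_mem hy)))

end

lemma len_unf {us : List (List Bool)} (hne : ∀ g ∈ us, g ≠ []) (hus : us ≠ []) : us.length ≤ (unf us).length := by
  have h1 := unf_length hne hus
  have h2 : us.length ≤ (us.map List.length).sum := by
    clear h1 hus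
    induction us with
    | nil => simp
    | cons g us ih =>
      rw [List.map_cons, List.sum_cons, List.length_cons]
      have := ih fun x hx => hne x (List.mem_cons_of_mem _ hx)
      have := List.length_pos_iff.2 (hne g List.mem_cons_self)
      omega
  have h3 : 1 ≤ us.length := List.length_pos_iff.2 hus
  omega

theorem event_q : ∃ (C : ℝ) (k0 : ℕ), 1 ≤ C ∧ ∀ (kc J : ℕ) (S : Set (List Bool)) (δ : ℝ), k0 ≤ kc → 6 ≤ J → 0 ≤ δ →
    Sm kc S δ → gf (EQ kc J S) ≤ ENNReal.ofReal (C ^ J * δ * Ub (kc + J)) := by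
  obtain ⟨V, k0, hV, hwin⟩ := win_family
  obtain ⟨Q, hQ, hfun⟩ := fun_bound
  refine ⟨Q ^ (V + 2), k0, one_le_pow₀ hQ, ?_⟩
  intro kc J S δ hkc hJ hδ hS
  obtain ⟨W, kp, idx, hW, hidx, hmem⟩ := hwin kc J hkc hJ
  obtain ⟨S', hS'⟩ : ∃ S', S' = S ∩ HB (2 ^ (kc + 4)) := ⟨_, rfl⟩
  obtain ⟨M, hM⟩ : ∃ M, M = 100 * 4 ^ (kc + J) := ⟨_, rfl⟩
  have hsub : EQ kc J S ⊆ {t | ∃ us : List (List Bool), us.length ≤ M ∧ unf us = t ∧ us.IsChain LFold ∧
      DecL W (V * J) M S' (V * J) us} := by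
    rintro t ⟨ht, m, u, e, h, l, hl, hS1⟩
    obtain ⟨ls, rs, g, g1, g2, g3, g4, g5, g6⟩ := geo_mono ht h hl
    have hlen : (ls ++ g :: rs).length ≤ M := by
      have h1 : (ls ++ g :: rs).length ≤ (unf (ls ++ g :: rs)).length := by
        apply len_unf
        · intro x hx
          obtain ⟨k, a1, a2, a3⟩ := g3 x hx
          exact Brd_ne_nil a3 (by have := Nat.one_le_two_pow (n := kc + 4); omega)
        · simp
      rw [g1] at h1
      rw [hM]
      exact h1.trans (WL_length ht.2)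
    refine ⟨ls ++ g :: rs, hlen, g1, g2, ?_⟩
    have hls : ∀ x ∈ ls, x ∈ BrR (2 ^ (kc + 4)) (2 ^ (kc + J)) := fun x hx => g3 x (List.mem_append_left _ hx)
    have hrs : ∀ x ∈ rs, x ∈ BrR (2 ^ (kc + 4)) (2 ^ (kc + J)) := fun x hx =>
      g3 x (List.mem_append_right _ (List.mem_cons_of_mem _ hx))
    have hg := g3 g (List.mem_append_right _ List.mem_cons_self)
    have hgS : g ∈ S' := by
      rw [hS']
      refine ⟨hS1 g g4 hg, ?_⟩
      obtain ⟨k, a1, a2, a3⟩ := hg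
      exact ⟨k, a1, a3⟩
    refine dec_of hidx hmem hgS ?_ (inc_of hidx hmem rs 0 hrs g6 fun _ _ => Nat.zero_le _) ls (V * J) hls g5 ?_
    · rw [List.length_append, List.length_cons] at hlen
      omega
    · intro x hx
      obtain ⟨k, a1, a2, a3⟩ := hls x hx
      have := (hmem x k a3 a1 a2).1
      rw [hgt_eq a3]
      exact this
  refine (gf_mono hsub).trans ((chain_mass hW (by rw [hS']; exact Set.inter_subset_right) M).trans ?_)
  refine (hfun kc J (V * J) W kp S' δ hW hδ (Sm_mono (by rw [hS']; exact Set.inter_subset_left) hS) M).trans ?_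
  apply ENNReal.ofReal_le_ofReal
  have hU := Ub_pos (kc + J)
  have h1 : Q ^ (V * J + J + 1) ≤ (Q ^ (V + 2)) ^ J := by
    rw [← pow_mul]
    apply pow_le_pow_right₀ hQ
    have : (V + 2) * J = V * J + 2 * J := by ring
    omega
  gcongr

end NTm

end HexObs
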