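import Pool.Agent.NT.Rep
import Pool.Agent.SDN.ZigZag

/-!
NTQ, Q4: the chain of the pieces of a bridge between successive extremal times (no bound for the backtracks).
-/

set_option autoImplicit false

namespace HexObs

namespace NTm

open Finset TS SDN SDN.ZZ

/-- the bridge t is divided at the times e 0 = 0 < e 1 < ... < e m = |t|; the piece number j goes up for even j -/
structure HH (t : List Bool) (m : ℕ) (e : ℕ → ℕ) : Prop where
  zero : e 0 = 0
  last : e m = t.length
  lt : ∀ j, j < m → e j < e (j + 1)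
  lo : ∀ j, j < m → ∀ i, e j < i → i ≤ e (j + 1) → Tight.sg (j + 1) (lev t (e j)) < Tight.sg (j + 1) (lev t i)
  hi : ∀ j, j < m → ∀ i, e j ≤ i → i ≤ e (j + 1) → Tight.sg (j + 1) (lev t i) ≤ Tight.sg (j + 1) (lev t (e (j + 1)))
  big : ∀ j, j < m → 4 ≤ Tight.sg (j + 1) (lev t (e (j + 1))) - Tight.sg (j + 1) (lev t (e j))

/-- g is the word of the piece number l of t -/
structure IsH (t : List Bool) (e : ℕ → ℕ) (l : ℕ) (g : List Bool) : Prop where
  len : st e l + g.length = e (l + 1)
  lv : ∀ i, i ≤ g.length → lev g i = Tight.sg (l + 1) (lev t (st e l + i) - lev t (st e l))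

variable {m T : ℕ} {t : List Bool} {e : ℕ → ℕ}

lemma hh_le (h : HH t m e) {j k : ℕ} (hjk : j ≤ k) (hk : k ≤ m) : e j ≤ e k := by
  obtain ⟨d, rfl⟩ := Nat.exists_eq_add_of_le hjk
  have : ∀ d', d' ≤ d → e j ≤ e (j + d') := by
    intro d'
    induction d' with
    | zero => intro _; exact le_rfl
    | succ d' ih =>
      intro hd'
      have a1 := ih (by omega)
      have a2 := h.lt (j + d') (by omega)
      rw [← add_assoc]
      omega
  exact this d le_rfl

lemma hh_len (h : HH t m e) {k : ℕ} (hk : k ≤ m) : e k ≤ t.length := by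
  rw [← h.last]
  exact hh_le h hk le_rfl

lemma sg_step (k : ℕ) (t : List Bool) (i : ℕ) : Tight.sg k (lev t (i + 1)) ≤ Tight.sg k (lev t i) + 2 := by
  have h := xD_step_le (dD_mem false k) t i
  rw [xD_dD, xD_dD] at h
  exact h

/-- a piece has at least two steps -/
lemma hh_two (h : HH t m e) {j : ℕ} (hj : j < m) : e j + 2 ≤ e (j + 1) := by
  have h1 := h.lt j hj
  by_contra hc
  have h2 : e (j + 1) = e j + 1 := by omega
  have h3 := h.big j hj
  have h4 := sg_step (j + 1) t (e j)
  rw [h2] at h3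
  omega

/-- everything about one interior piece -/
lemma piece_mid (ht : t ∈ Brd T) (h : HH t m e) {j : ℕ} (h1 : 1 ≤ j) (h2 : j + 1 < m) :
    (∃ M : ℕ, 1 ≤ M ∧ lw t (e j) (e (j + 1)) ∈ Brd M) ∧ IsH t e j (lw t (e j) (e (j + 1))) ∧
      (∀ i, i ≤ (lw t (e j) (e (j + 1))).length →
        vx oo up (lw t (e j) (e (j + 1))) i = vx oo up (t.drop (e j + 1)) i) ∧
      t = t.take (e j + 1) ++ ((lw t (e j) (e (j + 1))).dropLast ++ (!lst (lw t (e j) (e (j + 1)))) ::
        (!lst (lw t (e j) (e (j + 1)))) :: t.drop (e (j + 1) + 1)) ∧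
      ∀ r : List Bool, (∀ k, k ≤ r.length → e (j + 1) + 1 + k ≤ t.length ∧
        vx oo up r k = vx oo up (t.drop (e (j + 1) + 1)) k) → LFold (lw t (e j) (e (j + 1))) r := by
  obtain ⟨t1, t2, t3, t4⟩ := mem_Brd.1 ht
  have htSA : t ∈ SA := ⟨fun _ _ _ => Set.mem_univ _, t2⟩
  obtain ⟨i, rfl⟩ : ∃ i, j = i + 1 := ⟨j - 1, by omega⟩
  have m1 := h.lt i (by omega)
  have m2 := hh_two h (j := i + 1) (by omega)
  have m3 := hh_two h (j := i + 1 + 1) (by omega)
  have m4 := hh_len h (k := i + 1 + 1 + 1) (by omega)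
  obtain ⟨a, ha⟩ : ∃ a, e (i + 1) = a + 1 := ⟨e (i + 1) - 1, by omega⟩
  obtain ⟨D, hDdef⟩ : ∃ D, D = dD false (i + 1 + 1) := ⟨_, rfl⟩
  have hD : D ∈ dirs := by
    rw [hDdef]
    exact dD_mem _ _
  have hx : ∀ l, xD D t l = Tight.sg (i + 1 + 1) (lev t l) := fun l => by
    rw [hDdef]
    exact xD_dD _ _ _ _
  have hx1 : ∀ l, xD D t l = -Tight.sg (i + 1) (lev t l) := by
    intro l
    rw [hx, Tight.sg_succ]
  have hx2 : ∀ l, Tight.sg (i + 1 + 1 + 1) (lev t l) = -xD D t l := by
    intro l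
    rw [hx, Tight.sg_succ]
  have k0 : xD D t (a + 1) ≤ xD D t a := by
    have := h.hi i (by omega) a (by omega) (by omega)
    rw [hx1, hx1, ← ha]
    omega
  have k1 : ∀ l, a + 1 < l → l ≤ e (i + 1 + 1) → xD D t (a + 1) < xD D t l ∧ xD D t l ≤ xD D t (e (i + 1 + 1)) := by
    intro l l1 l2
    rw [hx, hx, hx, ← ha]
    exact ⟨h.lo (i + 1) (by omega) l (by omega) l2, h.hi (i + 1) (by omega) l (by omega) l2⟩
  have k2 : xD D t (a + 1) + 4 ≤ xD D t (e (i + 1 + 1)) := by
    have := h.big (i + 1) (by omega)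
    rw [hx, hx, ← ha]
    omega
  have k3 : ∀ l, e (i + 1 + 1) < l → l ≤ e (i + 1 + 1 + 1) → xD D t l < xD D t (e (i + 1 + 1)) := by
    intro l l1 l2
    have := h.lo (i + 1 + 1) (by omega) l l1 l2
    simp only [hx2] at this
    omega
  obtain ⟨c, M, r1, r2, r3, r4, r5, r6, r7, r8, r9, r10, r11, r12⟩ := leaf_core hD htSA (e := a)
    (e' := e (i + 1 + 1)) (by omega) (by omega) k0 k1 k2 (k3 _ (by omega) (by omega)) (k3 _ (by omega) (by omega))
  rw [ha]
  refine ⟨⟨M, r3, r6⟩, ⟨?_, ?_⟩, r9, r10, r12⟩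
  · show (if i + 1 = 0 then 0 else e (i + 1) + 1) + _ = _
    rw [if_neg (by omega), r7, ha]
    omega
  · intro l hl
    have e1 : st e (i + 1) = a + 2 := by
      unfold st
      rw [if_neg (by omega), ha]
    rw [e1]
    have h3 := r8 l
    rw [← r9 l hl] at h3
    have hc : nrm c = 1 := mem_dirs.1 r1
    have h4 : lev (lw t (a + 1) (e (i + 1 + 1))) l = ip (mulE c (vx oo up (lw t (a + 1) (e (i + 1 + 1))) l)) (mulE c up) := by
      rw [ip_mulE, hc, one_mul]
      rfl
    have h5 : mulE c (vx oo up (lw t (a + 1) (e (i + 1 + 1))) l) = vx oo up t (a + 2 + l) - vx oo up t (a + 2) := by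
      rw [h3]
      abel
    rw [h4, h5, r2, ip_sub_left]
    have h6 := hx (a + 2 + l)
    have h7 := hx (a + 2)
    unfold xD at h6 h7
    rw [h6, h7, sg_sub]

/-- the last piece goes up -/
lemma hh_odd (ht : t ∈ Brd T) (h : HH t m e) (hm : 1 ≤ m) : ¬ Even m := by
  intro hev
  obtain ⟨j, rfl⟩ : ∃ j, m = j + 1 := ⟨m - 1, by omega⟩
  have h1 := h.big j (by omega)
  rw [Tight.sg_even hev, Tight.sg_even hev, h.last, (mem_Brd.1 ht).2.2.2] at h1
  have h2 := (lev_range ht (hh_len h (k := j) (by omega))).2.1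
  omega

/-- THE CHAIN OF THE PIECES -/
theorem rep_gen (ht : t ∈ Brd T) (h : HH t m e) (hm : 1 ≤ m) :
    ∃ gs : List (List Bool), gs.length = m ∧ unf gs = t ∧ gs.IsChain LFold ∧
      (∀ g ∈ gs, ∃ k : ℕ, 1 ≤ k ∧ g ∈ Brd k) ∧ ∀ (l : ℕ) (hl : l < gs.length), IsH t e l gs[l] := by
  obtain ⟨t1, t2, t3, t4⟩ := mem_Brd.1 ht
  have htSA : t ∈ SA := ⟨fun _ _ _ => Set.mem_univ _, t2⟩
  have hodd := hh_odd ht h hm
  rcases Nat.lt_or_ge 1 m with h1 | h1
  swap
  · have : m = 1 := by omega
    subst this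
    have h0 : IsH t e 0 t := by
      refine ⟨?_, ?_⟩
      · show 0 + t.length = e 1
        rw [h.last, zero_add]
      · intro i hi
        show lev t i = Tight.sg 1 (lev t (0 + i) - lev t 0)
        rw [Tight.sg_one, zero_add, lev_zero, sub_zero]
    refine ⟨[t], rfl, rfl, List.isChain_singleton _, ?_, fun l hl => by
      have hl0 : l = 0 := by
        rw [List.length_singleton] at hl
        omega
      subst hl0
      exact h0⟩
    intro g hg
    rw [List.mem_singleton] at hg
    subst hg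
    refine ⟨T, ?_, ht⟩
    have h3 := h.big 0 (by omega)
    rw [zero_add, Tight.sg_one, Tight.sg_one, h.last, h.zero, lev_zero, t4] at h3
    omega
  obtain ⟨n, rfl⟩ : ∃ n, m = n + 3 := by
    refine ⟨m - 3, ?_⟩
    have : m ≠ 2 := by
      rintro rfl
      exact hodd (by decide)
    omega
  -- the last piece
  have l1 := hh_two h (j := n + 2) (by omega)
  have l2 := h.lt (n + 1) (by omega)
  have l3 : e (n + 2 + 1) = t.length := h.last
  rw [l3] at l1
  obtain ⟨a, ha⟩ : ∃ a, e (n + 2) = a + 1 := ⟨e (n + 2) - 1, by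
    rw [show n + 1 + 1 = n + 2 from rfl] at l2
    omega⟩
  have hev : Even (n + 1 + 1) := by
    rw [show n + 3 = n + 1 + 1 + 1 from rfl, Nat.even_add_one, not_not] at hodd
    exact hodd
  obtain ⟨gl, hgl⟩ : ∃ gl, gl = t.drop (e (n + 2) + 1) := ⟨_, rfl⟩
  obtain ⟨kl, kl1, kl2, kl3, kl4⟩ := last_leaf' ht (a := a) (by omega) (by
      have := h.hi (n + 1) (by omega) a (by rw [show n + 1 + 1 = n + 2 from rfl] at l2; omega) (by
        rw [show n + 1 + 1 = n + 2 from rfl]
        omega)
      rw [Tight.sg_even hev, Tight.sg_even hev, show n + 1 + 1 = n + 2 from rfl, ha] at this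
      omega) (fun i i1 i2 => by
      have := h.lo (n + 2) (by omega) i (by omega) (by rw [l3]; exact i2)
      rw [Tight.sg_odd hodd, Tight.sg_odd hodd, ha] at this
      exact this)
  have hbigl := h.big (n + 2) (by omega)
  rw [Tight.sg_odd hodd, Tight.sg_odd hodd, l3, t4, ha] at hbigl
  have hkl1 : 1 ≤ kl := by omega
  have hlastH : IsH t e (n + 2) gl := by
    refine ⟨?_, ?_⟩
    · show (if n + 2 = 0 then 0 else e (n + 2) + 1) + gl.length = _
      rw [if_neg (by omega), hgl, List.length_drop, l3, ha]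
      omega
    · intro i hi
      have e1 : st e (n + 2) = a + 2 := by
        unfold st
        rw [if_neg (by omega), ha]
      rw [e1, Tight.sg_odd hodd, hgl, ha]
      exact kl4 i
  -- the tail
  have tail : ∀ d j, 1 ≤ j → j + d = n + 2 → ∃ gs : List (List Bool), gs.length = d + 1 ∧ unf gs = t.drop (e j + 1) ∧
      gs.IsChain LFold ∧ (∀ g ∈ gs, ∃ k : ℕ, 1 ≤ k ∧ g ∈ Brd k) ∧ (∀ (i : ℕ) (hi : i < gs.length), IsH t e (j + i) gs[i]) ∧
      ∃ g0 gs0, gs = g0 :: gs0 ∧ (∀ k, k ≤ g0.length → e j + 1 + k ≤ t.length ∧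
        vx oo up g0 k = vx oo up (t.drop (e j + 1)) k) := by
    intro d
    induction d with
    | zero =>
      intro j j1 j2
      have hj : j = n + 2 := by omega
      subst hj
      refine ⟨[gl], rfl, hgl, List.isChain_singleton _, ?_, ?_, gl, [], rfl, ?_⟩
      · intro g hg
        rw [List.mem_singleton.1 hg, hgl, ha]
        exact ⟨kl, hkl1, kl1⟩
      · intro i hi
        have hi0 : i = 0 := by
          rw [List.length_singleton] at hi
          omega
        subst hi0
        exact hlastH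
      · intro k hk
        rw [hgl, List.length_drop] at hk
        exact ⟨by omega, by rw [hgl]⟩
    | succ d ih =>
      intro j j1 j2
      obtain ⟨gs, i0, i1, i2, i3, i6, g0, gs0, i4, i5⟩ := ih (j + 1) (by omega) (by omega)
      obtain ⟨⟨M, r3, r6⟩, rH, r9, r10, r12⟩ := piece_mid ht h j1 (by omega)
      have hej : e j + 1 ≤ t.length := by
        have := hh_len h (k := j + 1) (by omega)
        have := h.lt j (by omega)
        omega
      have hsp : t.drop (e j + 1) = (lw t (e j) (e (j + 1))).dropLast ++ (!lst (lw t (e j) (e (j + 1)))) ::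
          (!lst (lw t (e j) (e (j + 1)))) :: t.drop (e (j + 1) + 1) := by
        have hl : (t.take (e j + 1)).length = e j + 1 := by
          rw [List.length_take]
          omega
        conv_lhs => rw [r10]
        rw [List.drop_append_of_le_length (by omega), List.drop_of_length_le (by omega), List.nil_append]
      refine ⟨lw t (e j) (e (j + 1)) :: gs, by rw [List.length_cons, i0], ?_, ?_, ?_, ?_, _, _, rfl, ?_⟩
      · rw [i4]
        show (lw t (e j) (e (j + 1))).dropLast ++ (!lst (lw t (e j) (e (j + 1)))) ::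
          (!lst (lw t (e j) (e (j + 1)))) :: unf (g0 :: gs0) = _
        rw [← i4, i1, hsp]
      · rw [i4, List.isChain_cons_cons]
        refine ⟨r12 g0 i5, ?_⟩
        rw [← i4]
        exact i2
      · intro g hg
        rw [List.mem_cons] at hg
        rcases hg with rfl | hg
        · exact ⟨M, r3, r6⟩
        · exact i3 g hg
      · intro i hi
        rcases Nat.eq_zero_or_pos i with h0 | h0
        · subst h0
          exact rH
        · obtain ⟨i', rfl⟩ : ∃ i', i = i' + 1 := ⟨i - 1, by omega⟩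
          rw [List.getElem_cons_succ, show j + (i' + 1) = j + 1 + i' by ring]
          exact i6 i' _
      · intro k hk
        have hlen := rH.len
        unfold st at hlen
        rw [if_neg (by omega)] at hlen
        have := hh_len h (k := j + 1) (by omega)
        exact ⟨by omega, r9 k hk⟩
  obtain ⟨gs, i0, i1, i2, i3, i6, g0, gs0, i4, i5⟩ := tail (n + 1) 1 le_rfl (by omega)
  -- the first piece
  have a1 := h.lt 0 (by omega)
  have a2 := h.hi 0 (by omega)
  have a3 := h.big 0 (by omega)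
  have a4 := h.lo 1 (by omega)
  have a6 := hh_two h (j := 1) (by omega)
  rw [zero_add, h.zero] at a1 a2 a3
  have hev2 : Even (1 + 1) := by decide
  simp only [Tight.sg_one, lev_zero] at a2 a3
  simp only [Tight.sg_even hev2] at a4
  have a7 := hh_len h (k := 1 + 1) (by omega)
  obtain ⟨c, M, hM1, hM, hsplit, hB, hlen, hvx, hvq, -, -, hH⟩ := fold_step (q := t) (e := e 1) (by omega) (by omega)
    t2 (fun j j1 j2 => ⟨(lev_range ht (by omega)).2.2 j1, a2 j (by omega) j2⟩)
    (by have := a4 (e 1 + 1) (by omega) (by omega); omega) (by have := a4 (e 1 + 2) (by omega) (by omega); omega)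
  have hlG : lst (t.take (e 1 - 1) ++ [!c]) = !c := lst_append _ _
  refine ⟨(t.take (e 1 - 1) ++ [!c]) :: gs, by rw [List.length_cons, i0], ?_, ?_, ?_, ?_⟩
  · rw [i4]
    show (t.take (e 1 - 1) ++ [!c]).dropLast ++ (!lst (t.take (e 1 - 1) ++ [!c])) ::
      (!lst (t.take (e 1 - 1) ++ [!c])) :: unf (g0 :: gs0) = t
    rw [hlG, Bool.not_not, List.dropLast_concat, ← i4, i1, ← hsplit]
  · rw [i4, List.isChain_cons_cons]
    refine ⟨?_, by rw [← i4]; exact i2⟩
    show Hang _ (lst _) g0
    rw [hlG]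
    apply hH
    intro k hk
    obtain ⟨j1, j2⟩ := i5 k hk
    refine ⟨j1, ?_⟩
    rw [j2, ← hvq]
  · intro g hg
    rw [List.mem_cons] at hg
    rcases hg with rfl | hg
    · exact ⟨M, hM1, hB⟩
    · exact i3 g hg
  · intro l hl
    rcases Nat.eq_zero_or_pos l with h0' | h0'
    · subst h0'
      refine ⟨?_, ?_⟩
      · show 0 + (t.take (e 1 - 1) ++ [!c]).length = e 1
        rw [zero_add, hlen]
      · intro i hi
        show lev (t.take (e 1 - 1) ++ [!c]) i = Tight.sg 1 (lev t (0 + i) - lev t 0)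
        have hi' : i ≤ (t.take (e 1 - 1) ++ [!c]).length := hi
        rw [Tight.sg_one, zero_add, lev_zero, sub_zero]
        unfold lev
        rw [hvx i (by rw [hlen] at hi'; exact hi')]
    · obtain ⟨l', rfl⟩ : ∃ l', l = l' + 1 := ⟨l - 1, by omega⟩
      rw [List.getElem_cons_succ, show l' + 1 = 1 + l' by ring]
      exact i6 l' _

end NTm

end HexObs
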