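import Pool.Agent.NT.Chain
import Pool.Agent.T2.ANormT

/-!
NTQ (natural time, quantitative form), module Q1: the bridges with a height in a narrow window have small norm.
Text: doc proof/QDISP_h94, section 2 (W).
-/

set_option autoImplicit false

namespace HexObs

namespace NTm

open Finset TS SDN SDN.CN

open scoped ENNReal

/-- bridges with a height in the window [x, x + w) -/
def WB (x w : ℕ) : Set (List Bool) := {g | ∃ h, x ≤ h ∧ h < x + w ∧ g ∈ Brd h}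

lemma WB_sub {x w D N : ℕ} (h1 : D ≤ x) (h2 : x + w ≤ N) : WB x w ⊆ BrR D N := by
  rintro g ⟨h, h3, h4, h5⟩
  exact ⟨h, by omega, by omega, h5⟩

lemma UU_downW {k m : ℕ} (h : m ≤ k) : UU (2 ^ (k - m)) * ((2 : ℝ) ^ m) ^ (1 / (6 + CW)) ≤ 2 * UU (2 ^ k) := by
  have h1 := UU_growth (s := 2 ^ (k - m)) (T := 2 ^ k) Nat.one_le_two_pow
    (Nat.pow_le_pow_right (by norm_num) (by omega))
  have e : (((2 ^ k : ℕ) : ℝ)) / ((2 ^ (k - m) : ℕ) : ℝ) = (2 : ℝ) ^ m := by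
    push_cast
    rw [div_eq_iff (by positivity), ← pow_add]
    congr 1
    omega
  rwa [e] at h1

lemma window_mass (a x w : ℕ) :
    ∑' n : ℕ, (if x ≤ n + a ∧ n + a < x + w then gf (Brd n) else 0) ≤ ENNReal.ofReal (UU w) := by
  have h1 : ∀ n : ℕ, (if x ≤ n + a ∧ n + a < x + w then gf (Brd n) else 0) ≤
      if n ∈ Finset.Ico (x - a) (x - a + w) then gf (Brd n) else 0 := by
    intro n
    split_ifs with h2 h3 h3
    · exact le_rfl
    · exact absurd (Finset.mem_Ico.2 (by omega)) h3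
    · exact zero_le
    · exact le_rfl
  refine (ENNReal.tsum_le_tsum h1).trans ?_
  rw [tsum_eq_sum (s := Finset.Ico (x - a) (x - a + w)) (fun n hn => if_neg hn)]
  rw [Finset.sum_congr rfl (fun n hn => if_pos hn), Finset.sum_Ico_eq_sum_range, Nat.add_sub_cancel_left]
  have h2 : ∀ n : ℕ, gf (Brd n) = ENNReal.ofReal (uu n) := fun n => by rw [gf_Brd, BT_eq_uu]
  calc ∑ i ∈ Finset.range w, gf (Brd (x - a + i)) ≤ ∑ i ∈ Finset.range w, ENNReal.ofReal (uu i) := by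
        refine Finset.sum_le_sum fun i _ => ?_
        rw [h2]
        exact ENNReal.ofReal_le_ofReal (Num2Aux.anti (by omega))
    _ ≤ ∑ i ∈ Finset.range (w + 1), ENNReal.ofReal (uu i) :=
        Finset.sum_le_sum_of_subset (Finset.range_mono (Nat.le_succ _))
    _ = ENNReal.ofReal (UU w) := by
        unfold UU
        rw [ENNReal.ofReal_sum_of_nonneg (fun t _ => show 0 ≤ uu t from ENNReal.toReal_nonneg)]

/-- the middle bridges of a bridge with a height in a window of width w have the mass UU w at most -/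
theorem EZ_win (D N e x w : ℕ) : EZ D N e (WB x w) (UU w) := by
  classical
  rintro M ⟨i, hi⟩ P1 hP1 P2 hP2 Q ⟨q, hq⟩ - -
  obtain ⟨j, hj⟩ := IU_BU hP1
  obtain ⟨p, hp⟩ := IU_BU hP2
  refine (ENNReal.tsum_le_tsum fun n => ?_).trans (window_mass (i + j + p + q) x w)
  split_ifs with h1
  · exact gf_mono fun Z hZ => hZ.1
  · refine le_of_eq ?_
    have h0 : {Z | Z ∈ Brd n ∧ M ++ (P1 ++ (Z ++ (P2 ++ Q))) ∈ WB x w ∧
        M ++ (P1 ++ (Z ++ (P2 ++ Q))) ∈ BrR D N} = ∅ := by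
      rw [Set.eq_empty_iff_forall_notMem]
      rintro Z ⟨hZ, ⟨m, m1, m2, m3⟩, -⟩
      have h5 := Brd_height m3 (Brd_append hi (Brd_append hj (Brd_append hZ (Brd_append hp hq))))
      exact h1 (by omega)
    rw [h0]
    unfold gf
    exact tsum_empty

/-- **(W)** the sum over the bridges with a height in a narrow window has a norm at most 1 / 4 -/
theorem win_norm : ∃ a0 k0 : ℕ, ∀ (D k x w : ℕ) (Φ : List Bool → ℝ≥0∞), Hered Φ → k0 ≤ k → 2 ^ (k + 4) ≤ D → D ≤ x →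
    x + w ≤ 2 ^ (k + 6) → w * 2 ^ a0 ≤ 2 ^ k →
    xT D k (vA D (WB x w) Φ) ≤ ENNReal.ofReal (1 / 4) * xT D k Φ := by
  obtain ⟨C0, δ0, hI⟩ := inp_exists
  obtain ⟨K, c, hK, hc, hx⟩ := x_fillE hI
  have hK0 : 0 < K := by linarith
  -- the scale of the ends
  obtain ⟨r, hr3, hr⟩ : ∃ r : ℕ, 3 ≤ r ∧ K * 64 * (2 : ℝ) ^ (-(c * (r : ℝ))) ≤ 1 / 8 := by
    have hx1 : (2 : ℝ) ^ (-c) < 1 := Real.rpow_lt_one_of_one_lt_of_neg (by norm_num) (by linarith)
    obtain ⟨n, hn⟩ := exists_pow_lt_of_lt_one (show 0 < 1 / (8 * (K * 64)) by positivity) hx1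
    refine ⟨max n 3, le_max_right _ _, ?_⟩
    have h1 : (2 : ℝ) ^ (-(c * ((max n 3 : ℕ) : ℝ))) = ((2 : ℝ) ^ (-c)) ^ (max n 3) := by
      rw [← Real.rpow_natCast, ← Real.rpow_mul (by norm_num)]
      congr 1
      ring
    have h2 : ((2 : ℝ) ^ (-c)) ^ (max n 3) ≤ ((2 : ℝ) ^ (-c)) ^ n :=
      pow_le_pow_of_le_one (by positivity) hx1.le (le_max_left _ _)
    rw [h1]
    calc K * 64 * ((2 : ℝ) ^ (-c)) ^ (max n 3) ≤ K * 64 * (1 / (8 * (K * 64))) := by
          have := h2.trans hn.le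
          gcongr
      _ = 1 / 8 := by
          field_simp
  -- the mass of the window
  obtain ⟨ε, hε⟩ : ∃ ε : ℝ, ε = 1 / (8 * (K * 64 * 4 ^ r)) := ⟨_, rfl⟩
  have hε0 : 0 < ε := by rw [hε]; positivity
  have hCW := Num2Aux.CW_pos
  obtain ⟨θ, hθ⟩ : ∃ θ : ℝ, θ = 1 / (6 + CW) := ⟨_, rfl⟩
  have hθ0 : 0 < θ := by rw [hθ]; positivity
  obtain ⟨a0, ha0⟩ : ∃ a0 : ℕ, 2 / ε ≤ ((2 : ℝ) ^ a0) ^ θ := by
    have h1 : (1 : ℝ) < (2 : ℝ) ^ θ := Real.one_lt_rpow (by norm_num) hθ0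
    obtain ⟨n, hn⟩ := pow_unbounded_of_one_lt (2 / ε) h1
    refine ⟨n, hn.le.trans (le_of_eq ?_)⟩
    rw [← Real.rpow_natCast, ← Real.rpow_natCast, ← Real.rpow_mul (by norm_num), ← Real.rpow_mul (by norm_num),
      mul_comm]
  refine ⟨a0, r + a0 + 3, ?_⟩
  intro D k x w Φ hΦ hk hD hDx hxw hw
  have hU := Ub_pos k
  have hUN : UU (2 ^ (k + 6)) ≤ 64 * Ub k := by
    have := T2.AN.UU_up k 6
    norm_num at this
    exact this
  have hwU : UU w ≤ ε * Ub k := by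
    have h1 : w ≤ 2 ^ (k - a0) := by
      have h2 : 2 ^ k = 2 ^ (k - a0) * 2 ^ a0 := by
        rw [← pow_add]
        congr 1
        omega
      rw [h2] at hw
      exact Nat.le_of_mul_le_mul_right hw (by positivity)
    have h3 := UU_downW (k := k) (m := a0) (by omega)
    rw [← hθ] at h3
    have h4 : UU (2 ^ (k - a0)) * (2 / ε) ≤ 2 * Ub k :=
      (mul_le_mul_of_nonneg_left ha0 (Num2Aux.UU_pos _).le).trans h3
    have h5 : UU (2 ^ (k - a0)) ≤ ε * Ub k := by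
      have h6 : UU (2 ^ (k - a0)) = ε / 2 * (UU (2 ^ (k - a0)) * (2 / ε)) := by
        field_simp
      rw [h6]
      calc ε / 2 * (UU (2 ^ (k - a0)) * (2 / ε)) ≤ ε / 2 * (2 * Ub k) := by gcongr
        _ = ε * Ub k := by ring
    exact (Num2Aux.UU_mono h1).trans h5
  have hEZ : EZ D (2 ^ (k + 6)) k (WB x w) (ε * Ub k) := fun M hM P1 hP1 P2 hP2 Q hQ h1 h2 =>
    (EZ_win D (2 ^ (k + 6)) k x w M hM P1 hP1 P2 hP2 Q hQ h1 h2).trans (ENNReal.ofReal_le_ofReal hwU)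
  have hmain := hx D (2 ^ (k + 6)) k k (k - r) (WB x w) LFold 64 ε Φ hΦ RNb_LFold hD (by omega) le_rfl (by norm_num)
    hUN hε0.le hEZ
  refine (xT_mono fun t => ?_).trans (hmain.trans (mul_le_mul_left (ENNReal.ofReal_le_ofReal ?_) _))
  · exact Rec8.sw_mono (fun g hg => ⟨WB_sub hDx hxw hg.1, hg.1, hg.2⟩) fun _ _ => le_rfl
  · have e1 : ((k : ℝ) - ((k - r : ℕ) : ℝ)) = r := by
      rw [Nat.cast_sub (by omega)]
      ring
    have e2 : k - (k - r) = r := by omega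
    rw [e1, e2, Nat.sub_self, pow_zero, one_mul]
    have h7 : K * 64 * (4 ^ r * ε) = 1 / 8 := by
      rw [hε]
      field_simp
    calc K * 64 * ((2 : ℝ) ^ (-(c * (r : ℝ))) + 4 ^ r * ε) =
          K * 64 * (2 : ℝ) ^ (-(c * (r : ℝ))) + K * 64 * (4 ^ r * ε) := by ring
      _ ≤ 1 / 8 + 1 / 8 := add_le_add hr h7.le
      _ = 1 / 4 := by norm_num

end NTm

end HexObs
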