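import Pool.Agent.NTQ.Defs
import Pool.Agent.NTQ.Win

/-!
NTQ (natural time, quantitative form): the family of the windows of heights. Text: doc proof/QDISP_h94, section 2.
-/

set_option autoImplicit false

namespace HexObs

namespace NTm

open Finset TS SDN SDN.CN

open scoped ENNReal

theorem win_family : ∃ V k0 : ℕ, 1 ≤ V ∧ ∀ kc J : ℕ, k0 ≤ kc → 6 ≤ J →
    ∃ (W : ℕ → Set (List Bool)) (kp : ℕ → ℕ) (idx : ℕ → ℕ), Wnd kc J (V * J) W kp ∧
      (∀ h h' : ℕ, h ≤ h' → idx h ≤ idx h') ∧ ∀ (g : List Bool) (h : ℕ), g ∈ Brd h → 2 ^ (kc + 4) ≤ h →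
        h ≤ 2 ^ (kc + J) → idx h < V * J ∧ g ∈ W (idx h) := by
  obtain ⟨a0, k0, hwin⟩ := win_norm
  obtain ⟨V, hV⟩ : ∃ V : ℕ, V = 2 ^ (4 + a0) := ⟨_, rfl⟩
  have hV0 : 0 < V := by rw [hV]; positivity
  refine ⟨V, k0 + a0, hV0, fun kc J hkc hJ => ?_⟩
  -- a block: V windows of the width 2 ^ (k - a0)
  have hblk : ∀ k : ℕ, a0 ≤ k → V * 2 ^ (k - a0) = 2 ^ (k + 4) := by
    intro k hk
    rw [hV, ← pow_add]
    congr 1
    omega
  have hkp : ∀ i : ℕ, kc ≤ kc + i / V := fun i => Nat.le_add_right _ _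
  have hxw : ∀ i : ℕ, 2 ^ (kc + i / V + 4) + i % V * 2 ^ (kc + i / V - a0) + 2 ^ (kc + i / V - a0) ≤
      2 ^ (kc + i / V + 5) := by
    intro i
    have h1 : i % V + 1 ≤ V := Nat.mod_lt _ hV0
    have h2 := Nat.mul_le_mul_right (2 ^ (kc + i / V - a0)) h1
    have h0 := hkp i
    rw [hblk _ (by omega), add_mul, one_mul] at h2
    have h3 : 2 ^ (kc + i / V + 5) = 2 ^ (kc + i / V + 4) + 2 ^ (kc + i / V + 4) := by ring
    omega
  -- the index of a height
  obtain ⟨hh, hhh⟩ : ∃ hh : ℕ → ℕ, ∀ h, hh h = max h (2 ^ (kc + 4)) := ⟨_, fun _ => rfl⟩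
  obtain ⟨bb, hbb⟩ : ∃ bb : ℕ → ℕ, ∀ h, bb h + 4 = Nat.log 2 (hh h) := by
    refine ⟨fun h => Nat.log 2 (hh h) - 4, fun h => ?_⟩
    have h1 : kc + 4 ≤ Nat.log 2 (hh h) := by
      refine Nat.le_log_of_pow_le (by norm_num) ?_
      rw [hhh]
      exact le_max_right _ _
    show Nat.log 2 (hh h) - 4 + 4 = Nat.log 2 (hh h)
    omega
  have hh0 : ∀ h, hh h ≠ 0 := by
    intro h h1
    have h2 : 2 ^ (kc + 4) ≤ hh h := by rw [hhh]; exact le_max_right _ _
    have : 0 < 2 ^ (kc + 4) := by positivity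
    omega
  have b1 : ∀ h, kc ≤ bb h := by
    intro h
    have h1 : kc + 4 ≤ Nat.log 2 (hh h) := by
      refine Nat.le_log_of_pow_le (by norm_num) ?_
      rw [hhh]
      exact le_max_right _ _
    have := hbb h
    omega
  have b2 : ∀ h, 2 ^ (bb h + 4) ≤ hh h := by
    intro h
    rw [hbb]
    exact Nat.pow_log_le_self 2 (hh0 h)
  have b3 : ∀ h, hh h < 2 ^ (bb h + 5) := by
    intro h
    have h1 := Nat.lt_pow_succ_log_self (b := 2) (by norm_num) (hh h)
    rw [← hbb] at h1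
    exact h1
  obtain ⟨qq, hqq⟩ : ∃ qq : ℕ → ℕ, ∀ h, qq h = (hh h - 2 ^ (bb h + 4)) / 2 ^ (bb h - a0) := ⟨_, fun _ => rfl⟩
  have q1 : ∀ h, qq h < V := by
    intro h
    rw [hqq, Nat.div_lt_iff_lt_mul (by positivity), hblk _ (by have := b1 h; omega)]
    have h1 := b3 h
    have h2 := b2 h
    have h3 : 2 ^ (bb h + 5) = 2 ^ (bb h + 4) + 2 ^ (bb h + 4) := by ring
    omega
  refine ⟨fun i => WB (2 ^ (kc + i / V + 4) + i % V * 2 ^ (kc + i / V - a0)) (2 ^ (kc + i / V - a0)),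
    fun i => kc + i / V, fun h => (bb h - kc) * V + qq h, ⟨by simp, ?_, ?_, ?_, ?_⟩, ?_, ?_⟩
  · intro i j hij
    have := Nat.div_le_div_right (c := V) hij
    show kc + i / V ≤ kc + j / V
    omega
  · intro i hi
    have : i / V < J := by
      rw [Nat.div_lt_iff_lt_mul hV0, mul_comm]
      exact hi
    show kc + i / V ≤ kc + J
    omega
  · intro i _
    exact WB_sub (Nat.le_add_right _ _) (hxw i)
  · intro i _ Φ hΦ
    have h0 := hkp i
    have h1 := hxw i
    have h2 : 2 ^ (kc + i / V + 5) ≤ 2 ^ (kc + i / V + 6) := Nat.pow_le_pow_right (by norm_num) (by omega)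
    refine hwin (2 ^ (kc + i / V + 4)) (kc + i / V) _ _ Φ hΦ (by omega) le_rfl (Nat.le_add_right _ _) (by omega) ?_
    rw [← pow_add, Nat.sub_add_cancel (by omega)]
  · intro h h' hle
    show (bb h - kc) * V + qq h ≤ (bb h' - kc) * V + qq h'
    have hhle : hh h ≤ hh h' := by
      rw [hhh, hhh]
      exact max_le_max_right _ hle
    have h1 : bb h ≤ bb h' := by
      have h2 := Nat.log_mono_right (b := 2) hhle
      rw [← hbb, ← hbb] at h2
      omega
    have h3 := b1 h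
    rcases h1.eq_or_lt with h4 | h4
    · have h5 : qq h ≤ qq h' := by
        rw [hqq, hqq, h4]
        exact Nat.div_le_div_right (by omega)
      rw [h4]
      omega
    · have h5 := q1 h
      have h6 : (bb h - kc + 1) * V ≤ (bb h' - kc) * V := Nat.mul_le_mul_right _ (by omega)
      rw [add_mul, one_mul] at h6
      omega
  · intro g h hg h1 h2
    have h3 : hh h = h := by
      rw [hhh]
      exact max_eq_left h1
    have h4 := b1 h
    have h5 := b2 h
    have h6 := q1 h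
    have e1 : ((bb h - kc) * V + qq h) / V = bb h - kc := by
      rw [add_comm, Nat.add_mul_div_right _ _ hV0, Nat.div_eq_of_lt h6, zero_add]
    have e2 : ((bb h - kc) * V + qq h) % V = qq h := by
      rw [add_comm, Nat.add_mul_mod_self_right, Nat.mod_eq_of_lt h6]
    have e3 : kc + (bb h - kc) = bb h := by omega
    constructor
    · show (bb h - kc) * V + qq h < V * J
      have h7 : bb h + 4 ≤ kc + J := by
        rw [hbb, h3]
        have h8 := Nat.log_mono_right (b := 2) h2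
        rwa [Nat.log_pow (by norm_num)] at h8
      have h9 : (bb h - kc + 1) * V ≤ J * V := Nat.mul_le_mul_right _ (by omega)
      rw [add_mul, one_mul, mul_comm J V] at h9
      omega
    · show g ∈ WB (2 ^ (kc + ((bb h - kc) * V + qq h) / V + 4) +
        ((bb h - kc) * V + qq h) % V * 2 ^ (kc + ((bb h - kc) * V + qq h) / V - a0))
        (2 ^ (kc + ((bb h - kc) * V + qq h) / V - a0))
      rw [e1, e2, e3]
      have h7 := Nat.div_mul_le_self (hh h - 2 ^ (bb h + 4)) (2 ^ (bb h - a0))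
      have h8 := Nat.lt_div_mul_add (a := hh h - 2 ^ (bb h + 4)) (b := 2 ^ (bb h - a0)) (by positivity)
      rw [← hqq] at h7 h8
      rw [h3] at h5 h7 h8
      exact ⟨h, by omega, by omega, hg⟩

end NTm

end HexObs
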